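import Pool.Agent.Lib.MP_b54217_ag.G.Defs

/-! # PROJECT G: the space `H D`, lower bound for `KS`, simple points -/

set_option autoImplicit false

namespace Pool.Agent.SV.G

open MvPolynomial Module

variable {σ : Type}

instance (D : Finset (σ →₀ ℕ)) : FiniteDimensional ℂ (H D) :=
  Module.Finite.of_basis (basisRestrictSupport ℂ (D : Set (σ →₀ ℕ)))

theorem finrank_H (D : Finset (σ →₀ ℕ)) : finrank ℂ (H D) = D.card := by
  have h1 := finrank_eq_card_basis (basisRestrictSupport ℂ (D : Set (σ →₀ ℕ)))
  have h2 : Fintype.card ((D : Set (σ →₀ ℕ)) : Type) = D.card := by simp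
  rw [h2] at h1
  exact h1

/-- The conditions that define `KS`. -/
noncomputable def HDim_L (D : Finset (σ →₀ ℕ)) (p : ℕ → σ → ℂ) (S A : Finset ℕ) :
    H D →ₗ[ℂ] (S → ℂ) × (A × σ → ℂ) :=
  LinearMap.prod
    (LinearMap.pi fun k => ((aeval (p k) : MvPolynomial σ ℂ →ₐ[ℂ] ℂ).toLinearMap).comp (H D).subtype)
    (LinearMap.pi fun k => (((aeval (p k.1) : MvPolynomial σ ℂ →ₐ[ℂ] ℂ).toLinearMap).comp
      (pderiv k.2 : Derivation ℂ (MvPolynomial σ ℂ) (MvPolynomial σ ℂ)).toLinearMap).comp
        (H D).subtype)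

theorem HDim_ker (D : Finset (σ →₀ ℕ)) (p : ℕ → σ → ℂ) (S A : Finset ℕ) :
    LinearMap.ker (HDim_L D p S A) ≤ KS D p S A := by
  intro f hf
  rw [LinearMap.mem_ker, HDim_L, LinearMap.prod_apply, Prod.mk_eq_zero] at hf
  obtain ⟨h1, h2⟩ := hf
  refine ⟨fun k hk => ?_, fun k hk i => ?_⟩
  · have h3 := congrFun h1 ⟨k, hk⟩
    exact h3
  · have h3 := congrFun h2 (⟨k, hk⟩, i)
    exact h3

/-- `KS` is defined by `|S| + m |A|` linear equations. -/
theorem ks_ge [Fintype σ] (D : Finset (σ →₀ ℕ)) (p : ℕ → σ → ℂ) (S A : Finset ℕ) :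
    D.card ≤ finrank ℂ (KS D p S A) + S.card + Fintype.card σ * A.card := by
  have h1 := LinearMap.finrank_range_add_finrank_ker (HDim_L D p S A)
  rw [finrank_H] at h1
  have h2 : finrank ℂ (LinearMap.ker (HDim_L D p S A)) ≤ finrank ℂ (KS D p S A) :=
    Submodule.finrank_mono (HDim_ker D p S A)
  have h3 : finrank ℂ (LinearMap.range (HDim_L D p S A)) ≤ S.card + Fintype.card σ * A.card := by
    refine (Submodule.finrank_le _).trans (le_of_eq ?_)
    rw [finrank_prod, finrank_fintype_fun_eq_card, finrank_fintype_fun_eq_card, Fintype.card_prod,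
      Fintype.card_coe, Fintype.card_coe, mul_comm]
  omega

/-- General simple points impose independent conditions: the points with numbers in `T` can be
chosen such that the dimension of `K` drops by `|T|` (or to `0`).  Induction on `T`; if
`K ⊓ KS D p T ∅ ≠ ⊥`, take `f ≠ 0` in it and `y` with `eval y f ≠ 0` (`MvPolynomial.funext`). -/
theorem add_simple (D : Finset (σ →₀ ℕ)) (K : Submodule ℂ (H D)) (T : Finset ℕ)
    (p0 : ℕ → σ → ℂ) : ∃ p : ℕ → σ → ℂ, (∀ k ∉ T, p k = p0 k) ∧
      finrank ℂ (K ⊓ KS D p T ∅ : Submodule ℂ (H D)) ≤ finrank ℂ K - T.card := by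
  classical
  induction T using Finset.induction_on with
  | empty =>
    refine ⟨p0, fun _ _ => rfl, ?_⟩
    rw [Finset.card_empty, Nat.sub_zero]
    exact Submodule.finrank_mono inf_le_left
  | insert a T ha ih =>
    obtain ⟨p, hp, hdim⟩ := ih
    by_cases h0 : (K ⊓ KS D p T ∅ : Submodule ℂ (H D)) = ⊥
    · refine ⟨p, fun k hk => hp k fun h => hk (Finset.mem_insert_of_mem h), ?_⟩
      have h1 : (K ⊓ KS D p (insert a T) ∅ : Submodule ℂ (H D)) ≤ ⊥ := by
        rw [← h0]
        refine inf_le_inf_left K ?_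
        intro f hf
        exact ⟨fun k hk => hf.1 k (Finset.mem_insert_of_mem hk), hf.2⟩
      rw [le_bot_iff.1 h1, finrank_bot]
      exact Nat.zero_le _
    · obtain ⟨f, hf, hf0⟩ := Submodule.exists_mem_ne_zero_of_ne_bot h0
      obtain ⟨y, hy⟩ : ∃ y : σ → ℂ, eval y (f : MvPolynomial σ ℂ) ≠ 0 := by
        by_contra hcon
        push Not at hcon
        apply hf0
        apply Subtype.ext
        refine MvPolynomial.funext fun y => ?_
        rw [hcon y]
        simp
      refine ⟨Function.update p a y, fun k hk => ?_, ?_⟩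
      · rw [Finset.mem_insert, not_or] at hk
        rw [Function.update_of_ne hk.1]
        exact hp k hk.2
      · have h1 : (K ⊓ KS D (Function.update p a y) (insert a T) ∅ : Submodule ℂ (H D)) <
            (K ⊓ KS D p T ∅ : Submodule ℂ (H D)) := by
          refine lt_of_le_of_ne ?_ ?_
          · rintro g ⟨hg1, hg2⟩
            refine ⟨hg1, fun k hk => ?_, fun k hk => absurd hk (Finset.notMem_empty k)⟩
            have h2 := hg2.1 k (Finset.mem_insert_of_mem hk)
            have h3 : k ≠ a := fun h => ha (h ▸ hk)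
            rwa [Function.update_of_ne h3] at h2
          · intro heq
            have h2 : f ∈ (K ⊓ KS D (Function.update p a y) (insert a T) ∅ : Submodule ℂ (H D)) := by
              rw [heq]
              exact hf
            have h3 := h2.2.1 a (Finset.mem_insert_self a T)
            rw [Function.update_self] at h3
            exact hy h3
        have h2 := Submodule.finrank_lt_finrank_of_lt h1
        rw [Finset.card_insert_of_notMem ha]
        omega

end Pool.Agent.SV.G
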