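import Pool.Agent.Lib.MP_b54217_ag.G.ChainInd

/-! # PROJECT G: the chain lemma -/

set_option autoImplicit false

namespace Pool.Agent.SV.G

open MvPolynomial Module

variable {V σ : Type} [AddCommGroup V] [Module ℂ V]

/-- The map `F ↦ ∑ Phi M (u · l) (F l)`. -/
private noncomputable def PsiC {m s ν : ℕ} (K : Fin ν → Submodule ℂ V)
    (M : Fin s → V →ₗ[ℂ] (σ → ℂ)) (Q : Fin ν → (σ → ℂ) → V →ₗ[ℂ] ℂ) (u : Fin s → Fin ν → ℂ)
    (w : Fin ν → Fin m → σ → ℂ) :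
    (∀ l : Fin ν, cutV (K l) (Q l) (w l)) →ₗ[ℂ] (Fin s → σ → ℂ) :=
  ∑ l, ((Phi M fun j => u j l).comp (cutV (K l) (Q l) (w l)).subtype).comp (LinearMap.proj l)

private theorem PsiC_apply {m s ν : ℕ} (K : Fin ν → Submodule ℂ V)
    (M : Fin s → V →ₗ[ℂ] (σ → ℂ)) (Q : Fin ν → (σ → ℂ) → V →ₗ[ℂ] ℂ) (u : Fin s → Fin ν → ℂ)
    (w : Fin ν → Fin m → σ → ℂ) (F : ∀ l : Fin ν, cutV (K l) (Q l) (w l)) :
    PsiC K M Q u w F = ∑ l, Phi M (fun j => u j l) (F l : V) := by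
  rw [PsiC, LinearMap.sum_apply]
  rfl

/-- The inclusion of the product of the cuts. -/
private noncomputable def incC {m ν : ℕ} (K : Fin ν → Submodule ℂ V)
    (Q : Fin ν → (σ → ℂ) → V →ₗ[ℂ] ℂ) (w : Fin ν → Fin m → σ → ℂ) :
    (∀ l : Fin ν, cutV (K l) (Q l) (w l)) →ₗ[ℂ] (Fin ν → V) :=
  LinearMap.pi fun l => (cutV (K l) (Q l) (w l)).subtype.comp (LinearMap.proj l)

private theorem SS_le {m s ν : ℕ} (K : Fin ν → Submodule ℂ V)
    (M : Fin s → V →ₗ[ℂ] (σ → ℂ)) (Q : Fin ν → (σ → ℂ) → V →ₗ[ℂ] ℂ) (u : Fin s → Fin ν → ℂ)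
    (w : Fin ν → Fin m → σ → ℂ) : SS K M Q u w ≤ LinearMap.range (PsiC K M Q u w) := by
  classical
  refine iSup_le fun l => ?_
  rintro x ⟨v, hv, rfl⟩
  refine ⟨Pi.single l ⟨v, hv⟩, ?_⟩
  rw [PsiC_apply, Finset.sum_eq_single l]
  · rw [Pi.single_eq_same]
  · intro l' _ hl'
    rw [Pi.single_eq_of_ne hl', Submodule.coe_zero, map_zero]
  · intro h
    exact absurd (Finset.mem_univ l) h

private theorem CH_le {m s ν : ℕ} (K : Fin ν → Submodule ℂ V)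
    (M : Fin s → V →ₗ[ℂ] (σ → ℂ)) (Q : Fin ν → (σ → ℂ) → V →ₗ[ℂ] ℂ) (u : Fin s → Fin ν → ℂ)
    (w : Fin ν → Fin m → σ → ℂ) :
    CH K M Q u w ≤ (LinearMap.ker (PsiC K M Q u w)).map (incC K Q w) := by
  intro F hF
  obtain ⟨hF1, hF2⟩ := hF
  refine ⟨fun l => ⟨F l, hF1 l⟩, ?_, rfl⟩
  rw [SetLike.mem_coe, LinearMap.mem_ker, PsiC_apply]
  funext k
  rw [Finset.sum_apply, Pi.zero_apply, ← hF2 k]
  rfl

private theorem CH_add_SS [Fintype σ] [FiniteDimensional ℂ V] {m s ν : ℕ}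
    (K : Fin ν → Submodule ℂ V) (M : Fin s → V →ₗ[ℂ] (σ → ℂ))
    (Q : Fin ν → (σ → ℂ) → V →ₗ[ℂ] ℂ) (u : Fin s → Fin ν → ℂ)
    (w : Fin ν → Fin m → σ → ℂ) :
    finrank ℂ (CH K M Q u w) + finrank ℂ (SS K M Q u w) ≤
      ∑ l, finrank ℂ (cutV (K l) (Q l) (w l)) := by
  have h1 := LinearMap.finrank_range_add_finrank_ker (PsiC K M Q u w)
  rw [finrank_pi_fintype] at h1
  have h2 := Submodule.finrank_mono (SS_le K M Q u w)
  have h3 := (Submodule.finrank_mono (CH_le K M Q u w)).trans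
    (Submodule.finrank_map_le (incC K Q w) (LinearMap.ker (PsiC K M Q u w)))
  omega

/-- CHAIN LEMMA.  `CH` is the kernel of `∏ cutV → (Fin s → σ → ℂ)`, `F ↦ ∑ Phi M (u · l) (F l)`,
whose range is `SS`; so `finrank CH = ∑ finrank cutV - finrank SS ≤ ν t - min (ν t) (m s)`.
The case `s = 0` separately (only the cuts; `cut` with `X = K l`). -/
theorem chain [Fintype σ] [FiniteDimensional ℂ V] {ν s t : ℕ}
    (ht : t ≤ Fintype.card σ) (K : Fin ν → Submodule ℂ V) (M : Fin s → V →ₗ[ℂ] (σ → ℂ))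
    (Q : Fin ν → (σ → ℂ) → V →ₗ[ℂ] ℂ) (h1 : ∀ l, finrank ℂ (K l) = Fintype.card σ + t)
    (h2 : ∀ l k, finrank ℂ (K l ⊓ LinearMap.ker (M k) : Submodule ℂ V) ≤ t)
    (h3 : ∀ l, GenQ (Q l) (K l)) :
    ∃ (u : Fin s → Fin ν → ℂ) (w : Fin ν → Fin (Fintype.card σ) → σ → ℂ),
      (∀ l, LinearIndependent ℂ (w l)) ∧
      finrank ℂ (CH K M Q u w) ≤ ν * t - Fintype.card σ * s := by
  have hsum : ∀ w : Fin ν → Fin (Fintype.card σ) → σ → ℂ,
      (∀ l, finrank ℂ (cutV (K l) (Q l) (w l)) ≤ t) →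
      ∑ l, finrank ℂ (cutV (K l) (Q l) (w l)) ≤ ν * t := by
    intro w hw
    refine (Finset.sum_le_sum fun l _ => hw l).trans ?_
    rw [Finset.sum_const, Finset.card_univ, Fintype.card_fin, smul_eq_mul]
  rcases Nat.eq_zero_or_pos s with hs | hs
  · have hcut : ∀ l, ∃ w : Fin (Fintype.card σ) → σ → ℂ, LinearIndependent ℂ w ∧
        finrank ℂ (cutV (K l) (Q l) w) ≤ t := by
      intro l
      obtain ⟨w, hw1, hw2⟩ := cut (Q l) (K l) (h3 l) (fun _ : Unit => K l) (fun _ => le_rfl)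
        (Fintype.card σ) (by rw [finrank_fintype_fun_eq_card])
      refine ⟨w, hw1, (hw2 ()).trans ?_⟩
      rw [h1 l]
      omega
    choose w hw1 hw2 using hcut
    refine ⟨fun _ _ => 0, w, hw1, ?_⟩
    have h4 := CH_add_SS K M Q (fun _ _ => 0) w
    have h5 := hsum w hw2
    have h6 : Fintype.card σ * s = 0 := by rw [hs, Nat.mul_zero]
    omega
  · obtain ⟨u, w, k, hw1, hw2, -, -, -, h4⟩ := chain_ind hs ht K M Q h1 h2 h3
    refine ⟨u, w, hw1, ?_⟩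
    have h5 := CH_add_SS K M Q u w
    have h6 := hsum w hw2
    rcases min_choice (ν * t) (Fintype.card σ * s) with h7 | h7
    · rw [h7] at h4
      omega
    · rw [h7] at h4
      omega

end Pool.Agent.SV.G
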