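import Pool.Agent.Lib.MP_b54217_ag.G.OpenS

/-! # PROJECT G: the collapse with private partners -/

set_option autoImplicit false

namespace Pool.Agent.SV.G

open MvPolynomial Module

variable {σ : Type}

/-- The limit system: `F l` is simple at the points of `S`, double at those of `A l`,
`q2 (p (b l)) (w l i) (F l) = 0`, and `∑ u_{k,l} grad F_l = 0` at the points of `Z`. -/
noncomputable def LS (D : Finset (σ →₀ ℕ)) (S : Finset ℕ) {ν m : ℕ} (A : Fin ν → Finset ℕ)
    (b : Fin ν → ℕ) (w : Fin ν → Fin m → σ → ℂ) (Z : Finset ℕ) (u : ℕ → Fin ν → ℂ)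
    (p : ℕ → σ → ℂ) : Submodule ℂ (Fin ν → H D) where
  carrier := {F | F ∈ TB D S A Z u p ∧
    ∀ l i, q2 (p (b l)) (w l i) (F l : MvPolynomial σ ℂ) = 0}
  zero_mem' := ⟨Submodule.zero_mem _, by simp⟩
  add_mem' := by
    rintro F G ⟨h1, h2⟩ ⟨h3, h4⟩
    refine ⟨Submodule.add_mem _ h1 h3, fun l i => ?_⟩
    rw [Pi.add_apply, Submodule.coe_add, map_add, h2 l i, h4 l i, add_zero]
  smul_mem' := by
    rintro c F ⟨h1, h2⟩
    refine ⟨Submodule.smul_mem _ c h1, fun l i => ?_⟩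
    rw [Pi.smul_apply, Submodule.coe_smul, map_smul, h2 l i, smul_zero]

/-- `F ↦ eval y (F l)`. -/
private noncomputable def clE (D : Finset (σ →₀ ℕ)) {ν : ℕ} (y : σ → ℂ) (l : Fin ν) :
    (Fin ν → H D) →ₗ[ℂ] ℂ where
  toFun F := eval y (F l : MvPolynomial σ ℂ)
  map_add' F G := by rw [Pi.add_apply, Submodule.coe_add, map_add]
  map_smul' c F := by rw [Pi.smul_apply, Submodule.coe_smul, smul_eval, RingHom.id_apply,
    smul_eq_mul]

/-- `F ↦ ∑ l, c l * eval y (pderiv i (F l))`. -/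
private noncomputable def clG (D : Finset (σ →₀ ℕ)) {ν : ℕ} (y : σ → ℂ) (i : σ)
    (c : Fin ν → ℂ) : (Fin ν → H D) →ₗ[ℂ] ℂ where
  toFun F := ∑ l, c l * eval y (pderiv i (F l : MvPolynomial σ ℂ))
  map_add' F G := by
    rw [← Finset.sum_add_distrib]
    refine Finset.sum_congr rfl fun l _ => ?_
    rw [Pi.add_apply, Submodule.coe_add, map_add, map_add, mul_add]
  map_smul' a F := by
    rw [RingHom.id_apply, smul_eq_mul, Finset.mul_sum]
    refine Finset.sum_congr rfl fun l _ => ?_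
    rw [Pi.smul_apply, Submodule.coe_smul, Derivation.map_smul, smul_eval]
    ring

/-- `Polynomial.divX` as a linear map. -/
private noncomputable def clX : Polynomial ℂ →ₗ[ℂ] Polynomial ℂ where
  toFun f := Polynomial.divX f
  map_add' f g := by
    ext n
    simp only [Polynomial.coeff_divX, Polynomial.coeff_add]
  map_smul' c f := by
    ext n
    simp only [Polynomial.coeff_divX, Polynomial.coeff_smul, RingHom.id_apply]

/-- `F ↦ (divX (line y w (F l))).eval e`. -/
private noncomputable def clA (D : Finset (σ →₀ ℕ)) {ν : ℕ} (y w : σ → ℂ) (l : Fin ν) (e : ℂ) :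
    (Fin ν → H D) →ₗ[ℂ] ℂ :=
  (Polynomial.leval e).comp (clX.comp ((line y w).toLinearMap.comp
    ((H D).subtype.comp (LinearMap.proj l))))

/-- `F ↦ (divX (divX (line y w (F l)))).eval e`. -/
private noncomputable def clB (D : Finset (σ →₀ ℕ)) {ν : ℕ} (y w : σ → ℂ) (l : Fin ν) (e : ℂ) :
    (Fin ν → H D) →ₗ[ℂ] ℂ :=
  (Polynomial.leval e).comp (clX.comp (clX.comp ((line y w).toLinearMap.comp
    ((H D).subtype.comp (LinearMap.proj l)))))

private lemma clA_apply (D : Finset (σ →₀ ℕ)) {ν : ℕ} (y w : σ → ℂ) (l : Fin ν) (e : ℂ)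
    (F : Fin ν → H D) : clA D y w l e F =
      (Polynomial.divX (line y w (F l : MvPolynomial σ ℂ))).eval e := rfl

private lemma clB_apply (D : Finset (σ →₀ ℕ)) {ν : ℕ} (y w : σ → ℂ) (l : Fin ν) (e : ℂ)
    (F : Fin ν → H D) : clB D y w l e F =
      (Polynomial.divX (Polynomial.divX (line y w (F l : MvPolynomial σ ℂ)))).eval e := rfl

private lemma divX_eval (f : Polynomial ℂ) {e : ℂ} (he : e ≠ 0) (h0 : f.coeff 0 = 0)
    (h1 : f.eval e = 0) : (Polynomial.divX f).eval e = 0 := by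
  have h2 := congrArg (Polynomial.eval e) (Polynomial.divX_mul_X_add f)
  rw [Polynomial.eval_add, Polynomial.eval_mul, Polynomial.eval_X, Polynomial.eval_C, h0, h1,
    add_zero] at h2
  exact (mul_eq_zero.1 h2).resolve_right he

private lemma divX_eval_zero (f : Polynomial ℂ) :
    (Polynomial.divX f).eval 0 = f.coeff 1 := by
  rw [← Polynomial.coeff_zero_eq_eval_zero, Polynomial.coeff_divX]

private lemma grad_zero [Fintype σ] [DecidableEq σ] (w : Fin (Fintype.card σ) → σ → ℂ)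
    (hw : LinearIndependent ℂ w) (g : σ → ℂ) (h : ∀ i, ∑ a, w i a * g a = 0) (a : σ) :
    g a = 0 := by
  let ψ : (σ → ℂ) →ₗ[ℂ] ℂ :=
    { toFun := fun v => ∑ a, v a * g a
      map_add' := by
        intro v v'
        rw [← Finset.sum_add_distrib]
        exact Finset.sum_congr rfl fun a _ => by rw [Pi.add_apply, add_mul]
      map_smul' := by
        intro c v
        rw [RingHom.id_apply, smul_eq_mul, Finset.mul_sum]
        exact Finset.sum_congr rfl fun a _ => by rw [Pi.smul_apply, smul_eq_mul, mul_assoc] }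
  have hspan : Submodule.span ℂ (Set.range w) = ⊤ :=
    hw.span_eq_top_of_card_eq_finrank' (by rw [Fintype.card_fin, Module.finrank_fintype_fun_eq_card])
  have hψ : ψ = 0 := by
    apply LinearMap.ext_on_range hspan
    intro i
    exact h i
  have h1 : ψ (Pi.single a 1) = 0 := by rw [hψ, LinearMap.zero_apply]
  have h2 : ψ (Pi.single a 1) = g a := by
    show ∑ a', (Pi.single a (1 : ℂ) : σ → ℂ) a' * g a' = g a
    rw [Finset.sum_eq_single a]
    · rw [Pi.single_eq_same, one_mul]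
    · intro a' _ ha'
      rw [Pi.single_eq_of_ne ha', zero_mul]
    · intro ha
      exact absurd (Finset.mem_univ a) ha
  rw [← h2, h1]

/-- COLLAPSE.  The distinguished point `b l ∈ B l`, the partners `π l i ∈ P` (pairwise different,
outside all `B l'` and `Z`).  `p_e` = `p`, except `p_e (π l i) = p (b l) + e w_{l,i}`.

Functionals on `Fin ν → H D` depending polynomially on `e` (`open_ker1`, `x0 = 0`):
* `F_l ↦ eval (p k) F_l`, `k ∈ P` not a partner; `F_l ↦ eval (p k) (pderiv i F_l)`, `k ∈ B l`;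
  `∑ u_{k,l} eval (p k) (pderiv i F_l)`, `k ∈ Z` (no dependence on `e`; these points are not
  partners);
* for `l ≠ l'`: `F_{l'} ↦ (Polynomial.divX (line (p (b l)) (w l i) F_{l'})).eval e`; for `e ≠ 0` it
  is `(F_{l'}(p_e (π l i)) - F_{l'}(p (b l))) / e` (`line_eval`, `Polynomial.divX_mul_X_add`), at
  `e = 0` it is the coefficient `1`, the derivative in the direction `w l i` (`line_coeff_one`); the
  `w l i` span `σ → ℂ`, so the gradient of `F_{l'}` vanishes at `p (b l)`;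
* for `l`: `F_l ↦ (divX (divX (line (p (b l)) (w l i) F_l))).eval e`; for `e ≠ 0` it is
  `(F_l(p_e (π l i)) - F_l(p (b l)) - e ∂_w F_l(p (b l))) / e^2`, at `e = 0` it is `q2`.
For `e ≠ 0`: `TB D P B Z u p_e ≤ ⨅ ker`; at `e = 0`: `⨅ ker ≤ LS`.  So some `e ≠ 0` works. -/
theorem collapse [Fintype σ] [DecidableEq σ] (D : Finset (σ →₀ ℕ)) (P : Finset ℕ) {ν : ℕ}
    (B : Fin ν → Finset ℕ) (Z : Finset ℕ) (u : ℕ → Fin ν → ℂ) (p : ℕ → σ → ℂ)
    (b : Fin ν → ℕ) (hb : ∀ l, b l ∈ B l) (hB : ∀ l, B l ⊆ P) (hZ : Z ⊆ P)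
    (π : Fin ν × Fin (Fintype.card σ) → ℕ) (hπ : Function.Injective π) (hπP : ∀ x, π x ∈ P)
    (hπB : ∀ x l, π x ∉ B l) (hπZ : ∀ x, π x ∉ Z)
    (w : Fin ν → Fin (Fintype.card σ) → σ → ℂ) (hw : ∀ l, LinearIndependent ℂ (w l)) :
    ∃ p' : ℕ → σ → ℂ, finrank ℂ (TB D P B Z u p') ≤
      finrank ℂ (LS D (P \ Finset.univ.image π) (fun l => B l ∪ Finset.univ.image b) b w Z u p) := by
  classical
  -- the functionals
  let ι : Type := ({k : ℕ // k ∈ P \ Finset.univ.image π} × Fin ν) ⊕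
    ((Σ l : Fin ν, {k : ℕ // k ∈ B l}) × σ) ⊕ ({k : ℕ // k ∈ Z} × σ) ⊕
      (Fin ν × (Fin ν × Fin (Fintype.card σ)))
  let φ : ℂ → ι → (Fin ν → H D) →ₗ[ℂ] ℂ := fun e x =>
    match x with
    | Sum.inl (k, l) => clE D (p k) l
    | Sum.inr (Sum.inl (⟨l, k⟩, i)) => clG D (p k) i (Pi.single l 1)
    | Sum.inr (Sum.inr (Sum.inl (k, i))) => clG D (p k) i (u k)
    | Sum.inr (Sum.inr (Sum.inr (l', (l, i)))) =>
        if l = l' then clB D (p (b l)) (w l i) l' e else clA D (p (b l)) (w l i) l' e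
  have hGs : ∀ (y : σ → ℂ) (i : σ) (l : Fin ν) (F : Fin ν → H D),
      clG D y i (Pi.single l 1) F = eval y (pderiv i (F l : MvPolynomial σ ℂ)) := by
    intro y i l F
    show ∑ l', (Pi.single l (1 : ℂ) : Fin ν → ℂ) l' *
      eval y (pderiv i (F l' : MvPolynomial σ ℂ)) = _
    rw [Finset.sum_eq_single l]
    · rw [Pi.single_eq_same, one_mul]
    · intro l' _ hl'
      rw [Pi.single_eq_of_ne hl', zero_mul]
    · intro hl
      exact absurd (Finset.mem_univ l) hl
  have hφ : ∀ (x : ι) (v : Fin ν → H D), ∃ Q : Polynomial ℂ, ∀ e, φ e x v = Q.eval e := by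
    rintro (⟨k, l⟩ | ⟨⟨l, k⟩, i⟩ | ⟨k, i⟩ | ⟨l', l, i⟩) v
    · exact ⟨Polynomial.C (clE D (p k) l v), fun e => by rw [Polynomial.eval_C]⟩
    · exact ⟨Polynomial.C (clG D (p k) i (Pi.single l 1) v), fun e => by rw [Polynomial.eval_C]⟩
    · exact ⟨Polynomial.C (clG D (p k) i (u k) v), fun e => by rw [Polynomial.eval_C]⟩
    · by_cases h : l = l'
      · refine ⟨Polynomial.divX (Polynomial.divX (line (p (b l)) (w l i)
          (v l' : MvPolynomial σ ℂ))), fun e => ?_⟩
        show (if l = l' then clB D (p (b l)) (w l i) l' e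
          else clA D (p (b l)) (w l i) l' e) v = _
        rw [if_pos h, clB_apply]
      · refine ⟨Polynomial.divX (line (p (b l)) (w l i) (v l' : MvPolynomial σ ℂ)), fun e => ?_⟩
        show (if l = l' then clB D (p (b l)) (w l i) l' e
          else clA D (p (b l)) (w l i) l' e) v = _
        rw [if_neg h, clA_apply]
  -- the limit
  have hlim : (⨅ x, LinearMap.ker (φ 0 x) : Submodule ℂ (Fin ν → H D)) ≤
      LS D (P \ Finset.univ.image π) (fun l => B l ∪ Finset.univ.image b) b w Z u p := by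
    intro F hF
    rw [Submodule.mem_iInf] at hF
    have h1 : ∀ k ∈ P \ Finset.univ.image π, ∀ l, eval (p k) (F l : MvPolynomial σ ℂ) = 0 :=
      fun k hk l => hF (Sum.inl (⟨k, hk⟩, l))
    have h2 : ∀ l, ∀ k ∈ B l, ∀ i, eval (p k) (pderiv i (F l : MvPolynomial σ ℂ)) = 0 := by
      intro l k hk i
      rw [← hGs]
      exact hF (Sum.inr (Sum.inl (⟨l, ⟨k, hk⟩⟩, i)))
    have h3 : ∀ k ∈ Z, ∀ i, ∑ l, u k l * eval (p k) (pderiv i (F l : MvPolynomial σ ℂ)) = 0 :=
      fun k hk i => hF (Sum.inr (Sum.inr (Sum.inl (⟨k, hk⟩, i))))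
    have h4 : ∀ l l', l ≠ l' → ∀ i, (line (p (b l)) (w l i) (F l' : MvPolynomial σ ℂ)).coeff 1
        = 0 := by
      intro l l' hl i
      have h : (if l = l' then clB D (p (b l)) (w l i) l' 0
          else clA D (p (b l)) (w l i) l' 0) F = 0 :=
        hF (Sum.inr (Sum.inr (Sum.inr (l', (l, i)))))
      rw [if_neg hl, clA_apply, divX_eval_zero] at h
      exact h
    have h5 : ∀ l i, (line (p (b l)) (w l i) (F l : MvPolynomial σ ℂ)).coeff 2 = 0 := by
      intro l i
      have h : (if l = l then clB D (p (b l)) (w l i) l 0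
          else clA D (p (b l)) (w l i) l 0) F = 0 :=
        hF (Sum.inr (Sum.inr (Sum.inr (l, (l, i)))))
      rw [if_pos rfl, clB_apply, divX_eval_zero, Polynomial.coeff_divX] at h
      exact h
    refine ⟨⟨fun l => ⟨fun k hk => h1 k hk l, fun k hk i => ?_⟩, h3⟩, fun l i => h5 l i⟩
    rcases Finset.mem_union.1 hk with hk | hk
    · exact h2 l k hk i
    · obtain ⟨l', -, rfl⟩ := Finset.mem_image.1 hk
      by_cases hl : l' = l
      · subst hl
        exact h2 _ _ (hb _) i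
      · refine grad_zero (w l') (hw l') (fun a => eval (p (b l'))
          (pderiv a (F l : MvPolynomial σ ℂ))) (fun j => ?_) i
        rw [← line_coeff_one]
        exact h4 l' l hl j
  -- a good parameter
  have hfin := open_ker1 φ hφ 0 (Submodule.finrank_mono hlim)
  obtain ⟨e, he⟩ := (hfin.union (Set.finite_singleton (0 : ℂ))).exists_notMem
  have he0 : e ≠ 0 := fun h => he (Or.inr h)
  have heg : finrank ℂ (⨅ x, LinearMap.ker (φ e x) : Submodule ℂ (Fin ν → H D)) ≤
      finrank ℂ (LS D (P \ Finset.univ.image π) (fun l => B l ∪ Finset.univ.image b) b w Z u p) := by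
    by_contra h
    exact he (Or.inl h)
  -- the points
  let pe : ℕ → σ → ℂ := Function.extend π
    (fun x a => p (b x.1) a + w x.1 x.2 a * e) p
  have hpe1 : ∀ x, pe (π x) = fun a => p (b x.1) a + w x.1 x.2 a * e := fun x =>
    hπ.extend_apply _ _ x
  have hpe2 : ∀ k, (∀ x, π x ≠ k) → pe k = p k := fun k hk =>
    Function.extend_apply' _ _ _ (fun ⟨x, hx⟩ => hk x hx)
  have hpeB : ∀ l, ∀ k ∈ B l, pe k = p k := fun l k hk =>
    hpe2 k fun x hx => hπB x l (hx ▸ hk)
  have hpeZ : ∀ k ∈ Z, pe k = p k := fun k hk => hpe2 k fun x hx => hπZ x (hx ▸ hk)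
  refine ⟨pe, le_trans (Submodule.finrank_mono ?_) heg⟩
  rintro F ⟨hF1, hF2⟩
  rw [Submodule.mem_iInf]
  have hcoeff0 : ∀ l l' i, (line (p (b l)) (w l i) (F l' : MvPolynomial σ ℂ)).coeff 0 = 0 := by
    intro l l' i
    rw [line_coeff_zero, ← hpeB l (b l) (hb l)]
    exact (hF1 l').1 _ (hB l (hb l))
  have heval : ∀ l l' i, (line (p (b l)) (w l i) (F l' : MvPolynomial σ ℂ)).eval e = 0 := by
    intro l l' i
    rw [line_eval]
    have h := (hF1 l').1 (π (l, i)) (hπP _)
    rw [hpe1] at h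
    exact h
  rintro (⟨⟨k, hk⟩, l⟩ | ⟨⟨l, ⟨k, hk⟩⟩, i⟩ | ⟨⟨k, hk⟩, i⟩ | ⟨l', l, i⟩)
  · show eval (p k) (F l : MvPolynomial σ ℂ) = 0
    rw [Finset.mem_sdiff] at hk
    rw [← hpe2 k fun x hx => hk.2 (Finset.mem_image.2 ⟨x, Finset.mem_univ x, hx⟩)]
    exact (hF1 l).1 k hk.1
  · show clG D (p k) i (Pi.single l 1) F = 0
    rw [hGs, ← hpeB l k hk]
    exact (hF1 l).2 k hk i
  · show ∑ l, u k l * eval (p k) (pderiv i (F l : MvPolynomial σ ℂ)) = 0
    rw [← hpeZ k hk]
    exact hF2 k hk i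
  · show (if l = l' then clB D (p (b l)) (w l i) l' e
      else clA D (p (b l)) (w l i) l' e) F = 0
    have hA : (Polynomial.divX (line (p (b l)) (w l i) (F l' : MvPolynomial σ ℂ))).eval e = 0 :=
      divX_eval _ he0 (hcoeff0 l l' i) (heval l l' i)
    by_cases h : l = l'
    · subst h
      rw [if_pos rfl, clB_apply]
      refine divX_eval _ he0 ?_ hA
      rw [Polynomial.coeff_divX, zero_add, line_coeff_one]
      refine Finset.sum_eq_zero fun a _ => ?_
      rw [← hpeB l (b l) (hb l), (hF1 l).2 (b l) (hb l) a, mul_zero]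
    · rw [if_neg h, clA_apply]
      exact hA

end Pool.Agent.SV.G
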