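import Pool.Agent.Lib.MP_b54217_ag.G.Defs

/-! # PROJECT G: Taylor expansion and polynomial dependence -/

set_option autoImplicit false

namespace Pool.Agent.SV.G

open MvPolynomial

variable {σ : Type}

/-- `eval (p k) f` is a polynomial in `p` (`rename (fun i => (k, i)) f`). -/
theorem poly_ev (k : ℕ) (f : MvPolynomial σ ℂ) : ∃ F : MvPolynomial (ℕ × σ) ℂ,
    ∀ p : ℕ → σ → ℂ, eval (p k) f = eval (fun x => p x.1 x.2) F := by
  refine ⟨rename (fun i => (k, i)) f, fun p => ?_⟩
  rw [eval_rename]
  rfl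

/-- Evaluation of `line y w f`. -/
theorem line_eval (y w : σ → ℂ) (f : MvPolynomial σ ℂ) (e : ℂ) :
    (line y w f).eval e = eval (fun i => y i + w i * e) f := by
  have h : (Polynomial.aeval e).comp (line y w) =
      (aeval (fun i => y i + w i * e) : MvPolynomial σ ℂ →ₐ[ℂ] ℂ) := by
    apply MvPolynomial.algHom_ext
    intro i
    rw [AlgHom.comp_apply, line, aeval_X, aeval_X]
    simp
  have h1 := DFunLike.congr_fun h f
  rw [AlgHom.comp_apply, Polynomial.coe_aeval_eq_eval] at h1
  rw [h1]
  rfl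

theorem line_coeff_zero (y w : σ → ℂ) (f : MvPolynomial σ ℂ) :
    (line y w f).coeff 0 = eval y f := by
  rw [Polynomial.coeff_zero_eq_eval_zero, line_eval]
  congr 2
  funext i
  rw [mul_zero, add_zero]

/-- The linear term is the directional derivative (both sides are derivations along `eval y`;
`MvPolynomial.induction_on`). -/
theorem line_coeff_one [Fintype σ] (y w : σ → ℂ) (f : MvPolynomial σ ℂ) :
    (line y w f).coeff 1 = ∑ i, w i * eval y (pderiv i f) := by
  classical
  induction f using MvPolynomial.induction_on with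
  | C a =>
    have h : line y w (C a) = Polynomial.C a := by
      rw [line, aeval_C]
      rfl
    rw [h, Polynomial.coeff_C_of_ne_zero one_ne_zero]
    simp
  | add p q hp hq =>
    rw [map_add, Polynomial.coeff_add, hp, hq, ← Finset.sum_add_distrib]
    refine Finset.sum_congr rfl fun i _ => ?_
    rw [map_add, map_add, mul_add]
  | mul_X p j hp =>
    have h : line y w (X j) = Polynomial.C (y j) + Polynomial.C (w j) * Polynomial.X := by
      rw [line, aeval_X]
    have h0 : (Polynomial.C (y j) + Polynomial.C (w j) * Polynomial.X).coeff 0 = y j := by simp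
    have h1 : (Polynomial.C (y j) + Polynomial.C (w j) * Polynomial.X).coeff 1 = w j := by
      rw [Polynomial.coeff_add, Polynomial.coeff_C_of_ne_zero one_ne_zero,
        Polynomial.coeff_C_mul, Polynomial.coeff_X_one, mul_one, zero_add]
    rw [map_mul, h, Polynomial.mul_coeff_one, h0, h1, line_coeff_zero, hp]
    have h2 : ∀ i, w i * eval y (pderiv i (p * X j)) =
        (if i = j then w i * eval y p else 0) + w i * eval y (pderiv i p) * y j := by
      intro i
      rw [Derivation.leibniz, pderiv_X, map_add, smul_eq_mul, smul_eq_mul, map_mul, map_mul, eval_X]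
      by_cases hij : i = j
      · subst hij
        rw [if_pos rfl, Pi.single_eq_same, map_one]
        ring
      · rw [if_neg hij, Pi.single_eq_of_ne (Ne.symm hij), map_zero]
        ring
    rw [Finset.sum_congr rfl fun i _ => h2 i, Finset.sum_add_distrib, Finset.sum_ite_eq' Finset.univ j,
      if_pos (Finset.mem_univ j), ← Finset.sum_mul]
    ring

/-- all Taylor coefficients along a line with base point `p k` -/
theorem poly_line (k : ℕ) (w : σ → ℂ) (f : MvPolynomial σ ℂ) (j : ℕ) :
    ∃ F : MvPolynomial (ℕ × σ) ℂ,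
      ∀ p : ℕ → σ → ℂ, (line (p k) w f).coeff j = eval (fun x => p x.1 x.2) F := by
  refine ⟨((aeval fun i => Polynomial.C (X (k, i)) + Polynomial.C (C (w i)) * Polynomial.X :
    MvPolynomial σ ℂ →ₐ[ℂ] Polynomial (MvPolynomial (ℕ × σ) ℂ)) f).coeff j, fun p => ?_⟩
  have h : (Polynomial.mapAlgHom (aeval fun x : ℕ × σ => p x.1 x.2 :
      MvPolynomial (ℕ × σ) ℂ →ₐ[ℂ] ℂ)).comp
      (aeval fun i => Polynomial.C (X (k, i)) + Polynomial.C (C (w i)) * Polynomial.X :
        MvPolynomial σ ℂ →ₐ[ℂ] Polynomial (MvPolynomial (ℕ × σ) ℂ)) = line (p k) w := by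
    apply MvPolynomial.algHom_ext
    intro i
    rw [AlgHom.comp_apply, line, aeval_X, aeval_X]
    simp
  rw [← h, AlgHom.comp_apply, Polynomial.coe_mapAlgHom, Polynomial.coeff_map, ← coe_aeval_eq_eval]

/-- `q2 (p k) w f` is a polynomial in `p`.  (`line` over the ring `MvPolynomial (ℕ × σ) ℂ`:
`aeval (fun i => Polynomial.C (X (k,i)) + Polynomial.C (C (w i)) * X) f`, coefficient 2; or
induction on `f`: `MvPolynomial.induction_on`, products via `Polynomial.coeff_mul`, with the
statement for all coefficients `j` instead of `2`.) -/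
theorem poly_q2 (k : ℕ) (w : σ → ℂ) (f : MvPolynomial σ ℂ) : ∃ F : MvPolynomial (ℕ × σ) ℂ,
    ∀ p : ℕ → σ → ℂ, q2 (p k) w f = eval (fun x => p x.1 x.2) F := by
  obtain ⟨F, hF⟩ := poly_line k w f 2
  exact ⟨F, fun p => hF p⟩

/-- `q2 y w f` is a polynomial in `w`. -/
theorem poly_q2w (y : σ → ℂ) (f : MvPolynomial σ ℂ) : ∃ F : MvPolynomial σ ℂ,
    ∀ w : σ → ℂ, q2 y w f = eval w F := by
  refine ⟨((aeval fun i => Polynomial.C (C (y i)) + Polynomial.C (X i) * Polynomial.X :
    MvPolynomial σ ℂ →ₐ[ℂ] Polynomial (MvPolynomial σ ℂ)) f).coeff 2, fun w => ?_⟩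
  have h : (Polynomial.mapAlgHom (aeval w : MvPolynomial σ ℂ →ₐ[ℂ] ℂ)).comp
      (aeval fun i => Polynomial.C (C (y i)) + Polynomial.C (X i) * Polynomial.X :
        MvPolynomial σ ℂ →ₐ[ℂ] Polynomial (MvPolynomial σ ℂ)) = line y w := by
    apply MvPolynomial.algHom_ext
    intro i
    rw [AlgHom.comp_apply, line, aeval_X, aeval_X]
    simp
  have h1 : q2 y w f = (line y w f).coeff 2 := rfl
  rw [h1, ← h, AlgHom.comp_apply, Polynomial.coe_mapAlgHom, Polynomial.coeff_map,
    ← coe_aeval_eq_eval]

end Pool.Agent.SV.G
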