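import Pool.Agent.Lib.MP_b54217_ag.G.Cut
import Pool.Agent.Lib.MP_b54217_ag.G.PolyF

/-! # PROJECT G: `q2` is a generic family -/

set_option autoImplicit false

namespace Pool.Agent.SV.G

open MvPolynomial Module

/-- A nonzero polynomial over `ℂ` has a point where it does not vanish. -/
theorem exists_eval_ne {σ : Type} {F : MvPolynomial σ ℂ} (hF : F ≠ 0) :
    ∃ w : σ → ℂ, eval w F ≠ 0 := by
  by_contra h
  push Not at h
  exact hF (MvPolynomial.funext fun x => by rw [h x, map_zero])

/-- A linear form is given by a polynomial. -/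
theorem poly_linear {σ : Type} [Fintype σ] [DecidableEq σ] (φ : (σ → ℂ) →ₗ[ℂ] ℂ) (w : σ → ℂ) :
    eval w (∑ i, C (φ (Pi.single i 1)) * X i : MvPolynomial σ ℂ) = φ w := by
  conv_rhs => rw [← Finset.univ_sum_single w]
  rw [map_sum, map_sum]
  refine Finset.sum_congr rfl fun i _ => ?_
  rw [map_mul, eval_C, eval_X]
  have h : (Pi.single i (w i) : σ → ℂ) = w i • Pi.single i (1 : ℂ) := by
    rw [← Pi.single_smul, smul_eq_mul, mul_one]
  rw [h, map_smul, smul_eq_mul, mul_comm]

/-- `q2 y` is generic on a subspace on which the Hessian at `y` is injective: for `f ≠ 0` the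
polynomial of `poly_q2w` is nonzero; a proper subspace is contained in the kernel of a nonzero
linear form (`Submodule.exists_le_ker_of_ne_top` or similar), which is a nonzero polynomial as
well; the product of finitely many nonzero polynomials is nonzero (`MvPolynomial.funext`). -/
theorem genQ_q2 {σ : Type} [Fintype σ] {D : Finset (σ →₀ ℕ)} (y : σ → ℂ)
    (K : Submodule ℂ (H D))
    (hK : ∀ f ∈ K, f ≠ 0 → ∃ w, q2 y w (f : MvPolynomial σ ℂ) ≠ 0) :
    GenQ (fun w => (q2 y w).comp (H D).subtype) K := by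
  classical
  intro T hT U hU
  obtain ⟨φ, hφ0, hφU⟩ := Submodule.exists_le_ker_of_lt_top U (lt_top_iff_ne_top.2 hU)
  choose F hF using fun f : H D => poly_q2w y (f : MvPolynomial σ ℂ)
  have hL : (∑ i, C (φ (Pi.single i 1)) * X i : MvPolynomial σ ℂ) ≠ 0 := by
    intro h0
    apply hφ0
    refine LinearMap.ext fun w => ?_
    rw [← poly_linear φ w, h0, map_zero, LinearMap.zero_apply]
  have hP : (∑ i, C (φ (Pi.single i 1)) * X i : MvPolynomial σ ℂ) * ∏ f ∈ T, F f ≠ 0 := by
    refine mul_ne_zero hL (Finset.prod_ne_zero_iff.2 fun f hf h0 => ?_)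
    obtain ⟨w, hw⟩ := hK f (hT f hf).1 (hT f hf).2
    apply hw
    rw [hF f w, h0, map_zero]
  obtain ⟨w, hw⟩ := exists_eval_ne hP
  rw [map_mul, map_prod, poly_linear] at hw
  refine ⟨w, fun hwU => left_ne_zero_of_mul hw (hφU hwU), fun f hf => ?_⟩
  have h1 := Finset.prod_ne_zero_iff.1 (right_ne_zero_of_mul hw) f hf
  rw [← hF f w] at h1
  exact h1

end Pool.Agent.SV.G
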