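import Pool.Agent.Lib.MP_b54217_ag.G.BlockA
import Pool.Agent.Lib.MP_b54217_ag.G.Chain
import Pool.Agent.Lib.MP_b54217_ag.G.CutQ
import Pool.Agent.Lib.MP_b54217_ag.G.Collapse

/-! # PROJECT G: the block lemma -/

set_option autoImplicit false

namespace Pool.Agent.SV.G

open MvPolynomial Module

variable {σ : Type} [Fintype σ] [DecidableEq σ]

/-- The gradient at the point `y`. -/
noncomputable def gradL {σ : Type} (D : Finset (σ →₀ ℕ)) (y : σ → ℂ) : H D →ₗ[ℂ] (σ → ℂ) where
  toFun f i := eval y (pderiv i (f : MvPolynomial σ ℂ))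
  map_add' f g := by
    funext i
    rw [Pi.add_apply, Submodule.coe_add, map_add, map_add]
  map_smul' c f := by
    funext i
    rw [Pi.smul_apply, Submodule.coe_smul, Derivation.map_smul, smul_eval, RingHom.id_apply,
      smul_eq_mul]

/-- The choice of the partners. -/
theorem exists_partners {P : Finset ℕ} {q ν s m : ℕ} (hP : ν * q + s + ν * m ≤ P.card)
    (B : Fin ν → Finset ℕ) (Z : Finset ℕ) (hBq : ∀ l, (B l).card = q) (hZs : Z.card = s) :
    ∃ π : Fin ν × Fin m → ℕ, Function.Injective π ∧ (∀ x, π x ∈ P) ∧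
      (∀ x l, π x ∉ B l) ∧ ∀ x, π x ∉ Z := by
  classical
  set R : Finset ℕ := P \ (Finset.univ.biUnion B ∪ Z) with hR
  have h1 : (Finset.univ.biUnion B).card ≤ ν * q := by
    refine Finset.card_biUnion_le.trans ?_
    rw [Finset.sum_congr rfl fun l _ => hBq l, Finset.sum_const, Finset.card_univ,
      Fintype.card_fin, smul_eq_mul]
  have h2 : ν * m ≤ R.card := by
    have h3 : P.card - (Finset.univ.biUnion B ∪ Z).card ≤ R.card := Finset.le_card_sdiff _ _
    have h4 := Finset.card_union_le (Finset.univ.biUnion B) Z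
    omega
  have h5 : Fintype.card (Fin ν × Fin m) ≤ Fintype.card R := by
    rw [Fintype.card_prod, Fintype.card_fin, Fintype.card_fin, Fintype.card_coe]
    exact h2
  obtain ⟨e⟩ := Function.Embedding.nonempty_of_card_le h5
  have h6 : ∀ x, ((e x : R) : ℕ) ∈ P ∧ ((e x : R) : ℕ) ∉ Finset.univ.biUnion B ∪ Z := fun x =>
    Finset.mem_sdiff.1 (e x).2
  refine ⟨fun x => (e x : R), fun x y hxy => e.injective (Subtype.ext hxy), fun x => (h6 x).1,
    fun x l hx => (h6 x).2 ?_, fun x hx => (h6 x).2 ?_⟩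
  · exact Finset.mem_union_left _ (Finset.mem_biUnion.2 ⟨l, Finset.mem_univ l, hx⟩)
  · exact Finset.mem_union_right _ hx

/-- BLOCK LEMMA.  Choose `b l ∈ B l` and partners `π` (`P` minus all `B l` and `Z` has at least
`ν m` elements), the base position `p` of `base_pos`, then `u`, `w` by `chain` with
`K l = KS D p S0 (A l)`, `M k` = gradient at the `k`-th point of `Z`
(`Z.equivFin` / `Finset.orderEmbOfFin`), `Q l w = q2 (p (b l)) w` (`genQ_q2`), then `collapse`;
`LS ≤ CH`; finally `gen_tb`. -/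
theorem block {D : Finset (σ →₀ ℕ)} (hlow : ∀ a : σ →₀ ℕ, ∑ i, a i ≤ 2 → a ∈ D)
    (hm : 2 ≤ Fintype.card σ) {P : Finset ℕ} {q t ν s : ℕ}
    (hN : D.card = P.card + Fintype.card σ * q + t) (hq : 1 ≤ q)
    (htm : t < Fintype.card σ) (hν : ν ≤ Fintype.card σ)
    (hP : ν * q + s + ν * Fintype.card σ ≤ P.card)
    (hc1 : Cap D ((Fintype.card σ + 1) * (Fintype.card σ + q)))
    (hc3 : Cap D ((Fintype.card σ + 1) * (Fintype.card σ + 2) / 2 +
      (Fintype.card σ + 1) * (Fintype.card σ + q - 2))) :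
    BS D P q t ν s := by
  intro B Z hB hBq hBd hZ hBZ hZs
  have hbe : ∀ l, ∃ x, x ∈ B l := fun l =>
    Finset.card_pos.1 (by rw [hBq l]; exact hq)
  choose b hb using hbe
  obtain ⟨π, hπ, hπP, hπB, hπZ⟩ := exists_partners (m := Fintype.card σ) hP B Z hBq hZs
  obtain ⟨p, hp⟩ := base_pos hlow hm hN hq htm hν hc1 hc3 B Z hB hBq hBd hZ hBZ b hb π hπ hπP
    hπB hπZ
  have z : Fin s ≃ Z := (Z.equivFinOfCardEq hZs).symm
  obtain ⟨u0, w, hw, hch⟩ := chain (ν := ν) (s := s) (t := t) htm.le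
    (fun l => KS D p (P \ Finset.univ.image π) (B l ∪ Finset.univ.image b))
    (fun k => gradL D (p (z k)))
    (fun l w => (q2 (p (b l)) w).comp (H D).subtype)
    (fun l => (hp l).1)
    (fun l k => by
      refine le_trans (Submodule.finrank_mono ?_) ((hp l).2.1 (z k) (z k).2)
      rintro f ⟨hf, hf2⟩
      refine ⟨hf.1, fun k' hk' i => ?_⟩
      rcases Finset.mem_insert.1 hk' with rfl | hk'
      · exact congrFun (LinearMap.mem_ker.1 hf2) i
      · exact hf.2 k' hk' i)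
    (fun l => genQ_q2 (p (b l)) _ fun f hf hf0 => by
      by_contra hcon
      push Not at hcon
      apply hf0
      have h1 : f ∈ KH D p (P \ Finset.univ.image π) (B l ∪ Finset.univ.image b) (b l) :=
        ⟨hf, fun i j => hcon _⟩
      rw [(hp l).2.2] at h1
      exact (Submodule.mem_bot ℂ).1 h1)
  have hu : ∃ u : ℕ → Fin ν → ℂ, ∀ k : Fin s, u (z k) = u0 k := by
    refine ⟨fun k => if hk : k ∈ Z then u0 (z.symm ⟨k, hk⟩) else 0, fun k => ?_⟩
    have h1 : ((z k : Z) : ℕ) ∈ Z := (z k).2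
    simp only [h1, dif_pos, Subtype.coe_eta, Equiv.symm_apply_apply]
  obtain ⟨u, hu⟩ := hu
  obtain ⟨p', hp'⟩ := collapse D P B Z u p b hb hB hZ π hπ hπP hπB hπZ w hw
  refine ⟨u, gen_tb D P B Z u p' (hp'.trans (le_trans (Submodule.finrank_mono ?_) hch))⟩
  rintro F ⟨⟨hF1, hF2⟩, hF3⟩
  refine ⟨fun l => ⟨hF1 l, ?_⟩, fun k => ?_⟩
  · rw [SetLike.mem_coe, Submodule.mem_iInf]
    exact fun i => LinearMap.mem_ker.2 (hF3 l i)
  · funext i
    rw [Finset.sum_apply, Pi.zero_apply, ← hF2 (z k) (z k).2 i]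
    refine Finset.sum_congr rfl fun l _ => ?_
    rw [hu k]
    rfl

end Pool.Agent.SV.G
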