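import Pool.Agent.Lib.MP_b54217_ag.G.Defs

/-! # PROJECT G: general properties of `Gen` (copy of `S/GenBasic.lean` for general `σ`) -/

set_option autoImplicit false

namespace Pool.Agent.SV.G

open MvPolynomial

variable {σ : Type}

theorem gen_true {Q : (ℕ → σ → ℂ) → Prop} (h : ∀ p, Q p) : Gen Q :=
  ⟨1, one_ne_zero, fun p _ => h p⟩

theorem Gen.and {Q R : (ℕ → σ → ℂ) → Prop} (h : Gen Q) (h' : Gen R) :
    Gen fun p => Q p ∧ R p := by
  obtain ⟨F, h0, h1⟩ := h
  obtain ⟨G, h0', h1'⟩ := h'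
  refine ⟨F * G, mul_ne_zero h0 h0', fun p hp => ?_⟩
  rw [map_mul] at hp
  exact ⟨h1 p (left_ne_zero_of_mul hp), h1' p (right_ne_zero_of_mul hp)⟩

theorem Gen.mono {Q R : (ℕ → σ → ℂ) → Prop} (h : Gen Q) (h' : ∀ p, Q p → R p) : Gen R := by
  obtain ⟨F, h0, h1⟩ := h
  exact ⟨F, h0, fun p hp => h' p (h1 p hp)⟩

theorem Gen.all {ι : Type} (s : Finset ι) {Q : ι → (ℕ → σ → ℂ) → Prop}
    (h : ∀ i ∈ s, Gen (Q i)) : Gen fun p => ∀ i ∈ s, Q i p := by
  classical
  induction s using Finset.induction_on with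
  | empty => exact ⟨1, one_ne_zero, fun p _ i hi => absurd hi (Finset.notMem_empty i)⟩
  | insert i s _ ih =>
    have h1 := (h i (Finset.mem_insert_self i s)).and
      (ih fun j hj => h j (Finset.mem_insert_of_mem hj))
    refine h1.mono fun p hp j hj => ?_
    rcases Finset.mem_insert.1 hj with rfl | hj
    · exact hp.1
    · exact hp.2 j hj

/-- `MvPolynomial.funext`. -/
theorem Gen.ex {Q : (ℕ → σ → ℂ) → Prop} (h : Gen Q) : ∃ p, Q p := by
  obtain ⟨F, h0, h1⟩ := h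
  by_contra hcon
  push Not at hcon
  apply h0
  apply MvPolynomial.funext
  intro x
  rw [map_zero]
  by_contra h2
  exact hcon (fun k i => x (k, i)) (h1 _ h2)

end Pool.Agent.SV.G
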