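import Pool.Agent.Lib.MP_b54217_ag.G.Hess
import Pool.Agent.Lib.MP_b54217_ag.G.GenB

/-! # PROJECT G: the base position of a block -/

set_option autoImplicit false

namespace Pool.Agent.SV.G

open MvPolynomial Module

variable {σ : Type} [Fintype σ] [DecidableEq σ]

private theorem blockA_cap {D : Finset (σ →₀ ℕ)} {x y : ℕ} (h : Cap D x) (hy : y ≤ x) :
    Cap D y := fun j => le_trans hy (h j)

private theorem blockA_bot {V : Type} [AddCommGroup V] [Module ℂ V] [FiniteDimensional ℂ V]
    {K : Submodule ℂ V} (h : finrank ℂ K ≤ 0) : K = ⊥ :=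
  Submodule.finrank_eq_zero.1 (Nat.le_zero.1 h)

private theorem blockA_num {m t : ℕ} (hm : 2 ≤ m) (htm : t < m) : m + t ≤ m * (m + 1) / 2 := by
  rw [Nat.le_div_iff_mul_le (by norm_num)]
  obtain ⟨k, rfl⟩ := Nat.exists_eq_add_of_le hm
  nlinarith [Nat.zero_le (k * k), Nat.zero_le k]

/-- The base position: `S0` = the points of `P` which are not partners, `A l = B l ∪ {b}`,
`|A l| = ν + q - 1`, `K l = KS D p S0 (A l)`.
* `finrank (K l) = m + t`: `sc` (upper bound), `ks_ge` (lower bound), with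
  `|D| = |P| + m q + t`, `|S0| = |P| - ν m`;
* `K l ⊓ ker (gradient at z) = KS D p S0 (insert z (A l))` has dimension `≤ t` (`sc`, `z ∈ Z`);
* `KH D p S0 (A l) (b l) = ⊥` (`sc3`, `m + t ≤ m (m + 1) / 2`).
Finitely many generic conditions: `Gen.all`, `Gen.and`, `Gen.ex`. -/
theorem base_pos {D : Finset (σ →₀ ℕ)} (hlow : ∀ a : σ →₀ ℕ, ∑ i, a i ≤ 2 → a ∈ D)
    (hm : 2 ≤ Fintype.card σ) {P : Finset ℕ} {q t ν : ℕ}
    (hN : D.card = P.card + Fintype.card σ * q + t) (hq : 1 ≤ q)
    (htm : t < Fintype.card σ) (hν : ν ≤ Fintype.card σ)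
    (hc1 : Cap D ((Fintype.card σ + 1) * (Fintype.card σ + q)))
    (hc3 : Cap D ((Fintype.card σ + 1) * (Fintype.card σ + 2) / 2 +
      (Fintype.card σ + 1) * (Fintype.card σ + q - 2)))
    (B : Fin ν → Finset ℕ) (Z : Finset ℕ) (hB : ∀ l, B l ⊆ P) (hBq : ∀ l, (B l).card = q)
    (hBd : ∀ l l', l ≠ l' → Disjoint (B l) (B l')) (hZ : Z ⊆ P) (hBZ : ∀ l, Disjoint (B l) Z)
    (b : Fin ν → ℕ) (hb : ∀ l, b l ∈ B l) (π : Fin ν × Fin (Fintype.card σ) → ℕ)
    (hπ : Function.Injective π) (hπP : ∀ x, π x ∈ P) (hπB : ∀ x l, π x ∉ B l)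
    (hπZ : ∀ x, π x ∉ Z) :
    ∃ p : ℕ → σ → ℂ, ∀ l : Fin ν,
      finrank ℂ (KS D p (P \ Finset.univ.image π) (B l ∪ Finset.univ.image b)) =
        Fintype.card σ + t ∧
      (∀ z ∈ Z, finrank ℂ (KS D p (P \ Finset.univ.image π)
        (insert z (B l ∪ Finset.univ.image b))) ≤ t) ∧
      KH D p (P \ Finset.univ.image π) (B l ∪ Finset.univ.image b) (b l) = ⊥ := by
  classical
  have hne : Nonempty σ := Fintype.card_pos_iff.1 (by omega)
  generalize hmd : Fintype.card σ = m at *
  -- the partners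
  have hπc : (Finset.univ.image π).card = ν * m := by
    rw [Finset.card_image_of_injective _ hπ, Finset.card_univ, Fintype.card_prod,
      Fintype.card_fin, Fintype.card_fin]
  have hπs : Finset.univ.image π ⊆ P := by
    intro x hx
    obtain ⟨y, _, rfl⟩ := Finset.mem_image.1 hx
    exact hπP y
  have hS0 : (P \ Finset.univ.image π).card + ν * m = P.card := by
    rw [Finset.card_sdiff_of_subset hπs, hπc]
    have := Finset.card_le_card hπs
    rw [hπc] at this
    omega
  -- the points `b`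
  have hbi : Function.Injective b := by
    intro l l' h
    by_contra hne'
    exact Finset.disjoint_left.1 (hBd l l' hne') (hb l) (h ▸ hb l')
  have hbB : ∀ l l', b l' ∈ B l → l' = l := by
    intro l l' h
    by_contra hne'
    exact Finset.disjoint_left.1 (hBd l' l hne') (hb l') h
  have hcapB : ∀ l, B l ∩ Finset.univ.image b = {b l} := by
    intro l
    ext x
    simp only [Finset.mem_inter, Finset.mem_image, Finset.mem_univ, true_and,
      Finset.mem_singleton]
    constructor
    · rintro ⟨h1, l', rfl⟩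
      rw [hbB l l' h1]
    · rintro rfl
      exact ⟨hb l, l, rfl⟩
  have hAc : ∀ l, (B l ∪ Finset.univ.image b).card + 1 = q + ν := by
    intro l
    have h1 := Finset.card_union_add_card_inter (B l) (Finset.univ.image b)
    rw [hcapB l, Finset.card_singleton, hBq l, Finset.card_image_of_injective _ hbi,
      Finset.card_univ, Fintype.card_fin] at h1
    exact h1
  have hAS : ∀ l, B l ∪ Finset.univ.image b ⊆ P \ Finset.univ.image π := by
    intro l x hx
    rw [Finset.mem_sdiff]
    rcases Finset.mem_union.1 hx with hx | hx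
    · refine ⟨hB l hx, fun h => ?_⟩
      obtain ⟨y, _, rfl⟩ := Finset.mem_image.1 h
      exact hπB y l hx
    · obtain ⟨l', _, rfl⟩ := Finset.mem_image.1 hx
      refine ⟨hB l' (hb l'), fun h => ?_⟩
      obtain ⟨y, _, hy⟩ := Finset.mem_image.1 h
      exact hπB y l' (hy ▸ hb l')
  have hzA : ∀ l, ∀ z ∈ Z, z ∉ B l ∪ Finset.univ.image b := by
    intro l z hz h
    rcases Finset.mem_union.1 h with h | h
    · exact Finset.disjoint_left.1 (hBZ l) h hz
    · obtain ⟨l', _, rfl⟩ := Finset.mem_image.1 h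
      exact Finset.disjoint_left.1 (hBZ l') (hb l') hz
  have hzS : ∀ l, ∀ z ∈ Z, insert z (B l ∪ Finset.univ.image b) ⊆ P \ Finset.univ.image π := by
    intro l z hz
    refine Finset.insert_subset ?_ (hAS l)
    refine Finset.mem_sdiff.2 ⟨hZ hz, fun h => ?_⟩
    obtain ⟨y, _, rfl⟩ := Finset.mem_image.1 h
    exact hπZ y hz
  -- the three generic conditions
  have g1 : ∀ l : Fin ν, Gen fun p : ℕ → σ → ℂ =>
      finrank ℂ (KS D p (P \ Finset.univ.image π) (B l ∪ Finset.univ.image b)) ≤ m + t := by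
    intro l
    have hνl : 0 < ν := l.pos
    have h1 := sc D (P \ Finset.univ.image π) (B l ∪ Finset.univ.image b) (hAS l) (by
      rw [hmd]
      exact blockA_cap hc1 (Nat.mul_le_mul_left _ (by have := hAc l; omega)))
    refine h1.mono fun p hp => hp.trans ?_
    rw [hmd]
    have h2 : m * (B l ∪ Finset.univ.image b).card + m = m * q + ν * m := by
      rw [← Nat.mul_succ, Nat.succ_eq_add_one, hAc l]
      ring
    omega
  have g2 : ∀ l : Fin ν, ∀ z ∈ Z, Gen fun p : ℕ → σ → ℂ =>
      finrank ℂ (KS D p (P \ Finset.univ.image π)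
        (insert z (B l ∪ Finset.univ.image b))) ≤ t := by
    intro l z hz
    have hcz : (insert z (B l ∪ Finset.univ.image b)).card = q + ν := by
      rw [Finset.card_insert_of_notMem (hzA l z hz), hAc l]
    have h1 := sc D (P \ Finset.univ.image π) (insert z (B l ∪ Finset.univ.image b)) (hzS l z hz)
      (by
        rw [hmd, hcz]
        exact blockA_cap hc1 (Nat.mul_le_mul_left _ (by omega)))
    refine h1.mono fun p hp => hp.trans ?_
    rw [hmd, hcz]
    have h2 : m * (q + ν) = m * q + ν * m := by ring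
    omega
  have g3 : ∀ l : Fin ν, Gen fun p : ℕ → σ → ℂ =>
      finrank ℂ (KH D p (P \ Finset.univ.image π) (B l ∪ Finset.univ.image b) (b l)) ≤ 0 := by
    intro l
    have hνl : 0 < ν := l.pos
    have h1 := sc3 D (P \ Finset.univ.image π) (B l ∪ Finset.univ.image b) (b l) (hAS l)
      (Finset.mem_union_left _ (hb l)) hlow (by
        rw [hmd]
        exact blockA_cap hc3 (Nat.add_le_add_left (Nat.mul_le_mul_left _
          (by have := hAc l; omega)) _))
    refine h1.mono fun p hp => hp.trans ?_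
    rw [hmd]
    have h2 : m * (B l ∪ Finset.univ.image b).card + m = m * q + ν * m := by
      rw [← Nat.mul_succ, Nat.succ_eq_add_one, hAc l]
      ring
    have h3 := blockA_num hm htm
    omega
  obtain ⟨p, hp⟩ := (Gen.all Finset.univ fun l (_ : l ∈ (Finset.univ : Finset (Fin ν))) =>
    (g1 l).and ((Gen.all Z (g2 l)).and (g3 l))).ex
  refine ⟨p, fun l => ?_⟩
  obtain ⟨h1, h2, h3⟩ := hp l (Finset.mem_univ l)
  refine ⟨le_antisymm h1 ?_, h2, blockA_bot h3⟩
  have h4 := ks_ge D p (P \ Finset.univ.image π) (B l ∪ Finset.univ.image b)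
  rw [hmd] at h4
  have h5 : m * (B l ∪ Finset.univ.image b).card + m = m * q + ν * m := by
    rw [← Nat.mul_succ, Nat.succ_eq_add_one, hAc l]
    ring
  have hνl : 0 < ν := l.pos
  omega

end Pool.Agent.SV.G
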