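import Pool.Agent.Lib.MP_b54217_ag.G.ChainDefs

/-! # PROJECT G: rank counts for the chain lemma -/

set_option autoImplicit false

namespace Pool.Agent.SV.G

open MvPolynomial Module

variable {V σ : Type} [AddCommGroup V] [Module ℂ V]

/-- The first `k + 1` boxes, as a function space. -/
noncomputable def ChainA_equiv {s k : ℕ} (hk : k < s) : Ek σ s k ≃ₗ[ℂ] (Fin (k + 1) → σ → ℂ) where
  toFun x := fun i => (x : Fin s → σ → ℂ) ⟨(i : ℕ), lt_of_lt_of_le i.2 hk⟩
  map_add' := fun _ _ => rfl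
  map_smul' := fun _ _ => rfl
  invFun y := ⟨fun j => if h : (j : ℕ) < k + 1 then y ⟨(j : ℕ), h⟩ else 0, by
    intro j hj
    have h1 : ¬ (j : ℕ) < k + 1 := by omega
    simp only [dif_neg h1]⟩
  left_inv := by
    rintro ⟨x, hx⟩
    apply Subtype.ext
    funext j
    simp only
    by_cases h : (j : ℕ) < k + 1
    · rw [dif_pos h]
    · rw [dif_neg h]
      exact (hx j (by omega)).symm
  right_inv := by
    intro y
    funext i
    simp only
    rw [dif_pos i.2]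

theorem finrank_Ek [Fintype σ] {s k : ℕ} (hk : k < s) :
    finrank ℂ (Ek σ s k) = Fintype.card σ * (k + 1) := by
  rw [(ChainA_equiv hk).finrank_eq, Module.finrank_pi_fintype]
  simp only [Module.finrank_fintype_fun_eq_card, Finset.sum_const, Finset.card_univ,
    Fintype.card_fin, smul_eq_mul]
  rw [mul_comm]

theorem ChainA_map {E : Type} [AddCommGroup E] [Module ℂ E] [FiniteDimensional ℂ V]
    (Φ : V →ₗ[ℂ] E) (W : Submodule ℂ V) :
    finrank ℂ (W.map Φ) + finrank ℂ (W ⊓ LinearMap.ker Φ : Submodule ℂ V) = finrank ℂ W := by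
  have h1 := LinearMap.finrank_range_add_finrank_ker (Φ.domRestrict W)
  rw [LinearMap.range_domRestrict] at h1
  have h2 : LinearMap.ker (Φ.domRestrict W) =
      Submodule.comap W.subtype (W ⊓ LinearMap.ker Φ : Submodule ℂ V) := by
    ext x
    simp [LinearMap.domRestrict_apply]
  rw [h2, (Submodule.comapSubtypeEquivOfLe (inf_le_left :
    W ⊓ LinearMap.ker Φ ≤ W)).finrank_eq] at h1
  exact h1

theorem ChainA_sup {E : Type} [AddCommGroup E] [Module ℂ E] [FiniteDimensional ℂ E]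
    [FiniteDimensional ℂ V] (Φ : V →ₗ[ℂ] E) (S : Submodule ℂ E) (W : Submodule ℂ V) :
    finrank ℂ (S ⊔ W.map Φ : Submodule ℂ E) + finrank ℂ (W ⊓ S.comap Φ : Submodule ℂ V) =
      finrank ℂ S + finrank ℂ W := by
  have h1 := Submodule.finrank_sup_add_finrank_inf_eq S (W.map Φ)
  have h2 := ChainA_map Φ W
  have h3 := ChainA_map Φ (W ⊓ S.comap Φ)
  have h4 : (W ⊓ S.comap Φ).map Φ = S ⊓ W.map Φ := by
    ext y
    simp only [Submodule.mem_map, Submodule.mem_inf, Submodule.mem_comap]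
    constructor
    · rintro ⟨x, ⟨h6, h7⟩, rfl⟩
      exact ⟨h7, x, h6, rfl⟩
    · rintro ⟨h7, x, h6, rfl⟩
      exact ⟨x, ⟨h6, h7⟩, rfl⟩
  have h5 : W ⊓ S.comap Φ ⊓ LinearMap.ker Φ = W ⊓ LinearMap.ker Φ := by
    ext x
    simp only [Submodule.mem_inf, Submodule.mem_comap, LinearMap.mem_ker]
    constructor
    · rintro ⟨⟨h6, _⟩, h7⟩
      exact ⟨h6, h7⟩
    · rintro ⟨h6, h7⟩
      exact ⟨⟨h6, by rw [h7]; exact S.zero_mem⟩, h7⟩
  rw [h4, h5] at h3
  omega

/-- Rank count: `finrank (S ⊔ Φ(V')) = finrank S + finrank V' - finrank (V' ⊓ Φ⁻¹ S)` (rank-nullity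
for `V' → E ⧸ S`), the same for `K`; `finrank (K ⊓ Φ⁻¹ S) = m + t - (finrank (S ⊔ Φ(K)) -
finrank S)`. -/
theorem rank_cut {E : Type} [AddCommGroup E] [Module ℂ E] [FiniteDimensional ℂ E]
    [FiniteDimensional ℂ V] (Φ : V →ₗ[ℂ] E) (S : Submodule ℂ E) (K V' : Submodule ℂ V)
    {m t : ℕ} (hK : finrank ℂ K = m + t) (hV : t ≤ finrank ℂ V')
    (hX : finrank ℂ (V' ⊓ S.comap Φ : Submodule ℂ V) ≤
      finrank ℂ (K ⊓ S.comap Φ : Submodule ℂ V) - m) :
    min (finrank ℂ S + t) (finrank ℂ (S ⊔ K.map Φ : Submodule ℂ E)) ≤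
      finrank ℂ (S ⊔ V'.map Φ : Submodule ℂ E) := by
  have h1 := ChainA_sup Φ S K
  have h2 := ChainA_sup Φ S V'
  omega

end Pool.Agent.SV.G
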