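import Pool.Agent.Lib.MP_b54217_ag.G.Cut

/-! # PROJECT G: the chain lemma, definitions -/

set_option autoImplicit false

namespace Pool.Agent.SV.G

open MvPolynomial Module

variable {V σ : Type} [AddCommGroup V] [Module ℂ V]

/-- The first `k + 1` boxes. -/
def Ek (σ : Type) (s k : ℕ) : Submodule ℂ (Fin s → σ → ℂ) where
  carrier := {x | ∀ j : Fin s, k < (j : ℕ) → x j = 0}
  zero_mem' := fun _ _ => rfl
  add_mem' := by
    intro x y hx hy j hj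
    rw [Pi.add_apply, hx j hj, hy j hj, add_zero]
  smul_mem' := by
    intro c x hx j hj
    rw [Pi.smul_apply, hx j hj, smul_zero]

/-- The box number `k`. -/
def Ck (σ : Type) (s k : ℕ) : Submodule ℂ (Fin s → σ → ℂ) where
  carrier := {x | ∀ j : Fin s, (j : ℕ) ≠ k → x j = 0}
  zero_mem' := fun _ _ => rfl
  add_mem' := by
    intro x y hx hy j hj
    rw [Pi.add_apply, hx j hj, hy j hj, add_zero]
  smul_mem' := by
    intro c x hx j hj
    rw [Pi.smul_apply, hx j hj, smul_zero]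

/-- `v ↦ (c_j M_j v)_j`. -/
def Phi {s : ℕ} (M : Fin s → V →ₗ[ℂ] (σ → ℂ)) (c : Fin s → ℂ) : V →ₗ[ℂ] (Fin s → σ → ℂ) :=
  LinearMap.pi fun j => c j • M j

/-- `K` cut by the functionals `Q (w i)`. -/
def cutV {m : ℕ} (K : Submodule ℂ V) (Q : (σ → ℂ) → V →ₗ[ℂ] ℂ) (w : Fin m → σ → ℂ) :
    Submodule ℂ V :=
  K ⊓ ⨅ i, LinearMap.ker (Q (w i))

/-- The kernel of the chain system. -/
noncomputable def CH {m s ν : ℕ} (K : Fin ν → Submodule ℂ V) (M : Fin s → V →ₗ[ℂ] (σ → ℂ))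
    (Q : Fin ν → (σ → ℂ) → V →ₗ[ℂ] ℂ) (u : Fin s → Fin ν → ℂ) (w : Fin ν → Fin m → σ → ℂ) :
    Submodule ℂ (Fin ν → V) where
  carrier := {F | (∀ l, F l ∈ cutV (K l) (Q l) (w l)) ∧ ∀ k, ∑ l, u k l • M k (F l) = 0}
  zero_mem' := ⟨fun _ => Submodule.zero_mem _, fun k => by simp⟩
  add_mem' := by
    rintro F G ⟨h1, h2⟩ ⟨h3, h4⟩
    refine ⟨fun l => Submodule.add_mem _ (h1 l) (h3 l), fun k => ?_⟩
    have h5 := congrArg₂ (· + ·) (h2 k) (h4 k)
    simp only [add_zero, ← Finset.sum_add_distrib] at h5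
    rw [← h5]
    refine Finset.sum_congr rfl fun l _ => ?_
    rw [Pi.add_apply, map_add, smul_add]
  smul_mem' := by
    rintro c F ⟨h1, h2⟩
    refine ⟨fun l => Submodule.smul_mem _ c (h1 l), fun k => ?_⟩
    rw [← smul_zero c, ← h2 k, Finset.smul_sum]
    refine Finset.sum_congr rfl fun l _ => ?_
    rw [Pi.smul_apply, map_smul, smul_comm]

/-- The image. -/
noncomputable def SS {m s ν : ℕ} (K : Fin ν → Submodule ℂ V) (M : Fin s → V →ₗ[ℂ] (σ → ℂ))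
    (Q : Fin ν → (σ → ℂ) → V →ₗ[ℂ] ℂ) (u : Fin s → Fin ν → ℂ) (w : Fin ν → Fin m → σ → ℂ) :
    Submodule ℂ (Fin s → σ → ℂ) :=
  ⨆ l, (cutV (K l) (Q l) (w l)).map (Phi M fun j => u j l)

end Pool.Agent.SV.G
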