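import Pool.Agent.Lib.MP_b54217_ag.G.ChainStep

/-! # PROJECT G: the chain lemma, induction -/

set_option autoImplicit false

namespace Pool.Agent.SV.G

open MvPolynomial Module

variable {V σ : Type} [AddCommGroup V] [Module ℂ V]

/-- `SS` of `ν + 1` coordinates. -/
theorem SS_snoc {m s ν : ℕ} (K : Fin (ν + 1) → Submodule ℂ V) (M : Fin s → V →ₗ[ℂ] (σ → ℂ))
    (Q : Fin (ν + 1) → (σ → ℂ) → V →ₗ[ℂ] ℂ) (u : Fin s → Fin ν → ℂ) (w : Fin ν → Fin m → σ → ℂ)
    (c : Fin s → ℂ) (w' : Fin m → σ → ℂ) :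
    SS K M Q (fun j => Fin.snoc (α := fun _ => ℂ) (u j) (c j))
        (Fin.snoc (α := fun _ => Fin m → σ → ℂ) w w') =
      SS (fun l => K l.castSucc) M (fun l => Q l.castSucc) u w ⊔
        (cutV (K (Fin.last ν)) (Q (Fin.last ν)) w').map (Phi M c) := by
  unfold SS
  refine le_antisymm (iSup_le fun l => ?_) (sup_le (iSup_le fun l => ?_) ?_)
  · refine Fin.lastCases ?_ (fun i => ?_) l
    · simp only [Fin.snoc_last]
      exact le_sup_right
    · simp only [Fin.snoc_castSucc]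
      exact le_sup_of_le_left (le_iSup (fun l : Fin ν =>
        (cutV (K l.castSucc) (Q l.castSucc) (w l)).map (Phi M fun j => u j l)) i)
  · refine le_iSup_of_le l.castSucc ?_
    simp only [Fin.snoc_castSucc]
    exact le_refl _
  · refine le_iSup_of_le (Fin.last ν) ?_
    simp only [Fin.snoc_last]
    exact le_refl _

/-- Induction on `ν` (`Fin.snoc` for `u k` and `w`; `SS` of `ν + 1` coordinates is
`SS ⊔ (cutV ..).map ..`), starting with `SS = ⊥`, `k = 0`. -/
theorem chain_ind [Fintype σ] [FiniteDimensional ℂ V] {ν s t : ℕ} (hs : 1 ≤ s)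
    (ht : t ≤ Fintype.card σ) (K : Fin ν → Submodule ℂ V) (M : Fin s → V →ₗ[ℂ] (σ → ℂ))
    (Q : Fin ν → (σ → ℂ) → V →ₗ[ℂ] ℂ) (h1 : ∀ l, finrank ℂ (K l) = Fintype.card σ + t)
    (h2 : ∀ l k, finrank ℂ (K l ⊓ LinearMap.ker (M k) : Submodule ℂ V) ≤ t)
    (h3 : ∀ l, GenQ (Q l) (K l)) :
    ∃ (u : Fin s → Fin ν → ℂ) (w : Fin ν → Fin (Fintype.card σ) → σ → ℂ) (k : ℕ),
      (∀ l, LinearIndependent ℂ (w l)) ∧ (∀ l, finrank ℂ (cutV (K l) (Q l) (w l)) ≤ t) ∧
      k < s ∧ SS K M Q u w ≤ Ek σ s k ∧ Ek σ s k ≤ SS K M Q u w ⊔ Ck σ s k ∧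
      min (ν * t) (Fintype.card σ * s) ≤ finrank ℂ (SS K M Q u w) := by
  induction ν with
  | zero =>
    refine ⟨fun _ => Fin.elim0, Fin.elim0, 0, fun l => l.elim0, fun l => l.elim0, hs, ?_, ?_, ?_⟩
    · exact iSup_le fun l => l.elim0
    · refine le_trans ?_ le_sup_right
      intro x hx j hj
      exact hx j (Nat.pos_of_ne_zero hj)
    · rw [Nat.zero_mul, Nat.zero_min]
      exact Nat.zero_le _
  | succ ν ih =>
    obtain ⟨u, w, k, hw, hc, hk, hS, hS', hd⟩ := ih (fun l => K l.castSucc)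
      (fun l => Q l.castSucc) (fun l => h1 l.castSucc) (fun l => h2 l.castSucc)
      (fun l => h3 l.castSucc)
    obtain ⟨c, w', k', hw', hk', hT, hT', hc', hd'⟩ := chain_step ht (K (Fin.last ν)) M
      (Q (Fin.last ν)) (h1 _) (h2 _) (h3 _) _ k hk hS hS'
    refine ⟨fun j => Fin.snoc (α := fun _ => ℂ) (u j) (c j),
      Fin.snoc (α := fun _ => Fin (Fintype.card σ) → σ → ℂ) w w', k', ?_, ?_, hk', ?_, ?_, ?_⟩
    · intro l
      refine Fin.lastCases ?_ (fun i => ?_) l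
      · rw [Fin.snoc_last]
        exact hw'
      · rw [Fin.snoc_castSucc]
        exact hw i
    · intro l
      refine Fin.lastCases ?_ (fun i => ?_) l
      · rw [Fin.snoc_last]
        exact hc'
      · rw [Fin.snoc_castSucc]
        exact hc i
    · rw [SS_snoc]
      exact hT
    · rw [SS_snoc]
      exact hT'
    · rw [SS_snoc]
      refine le_trans ?_ hd'
      rw [Nat.succ_mul]
      omega

end Pool.Agent.SV.G
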