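import Pool.Agent.Lib.MP_b54217_ag.G.ChainA

/-! # PROJECT G: one step of the chain lemma -/

set_option autoImplicit false

namespace Pool.Agent.SV.G

open MvPolynomial Module

variable {V σ : Type} [AddCommGroup V] [Module ℂ V]

private theorem cs_rank {A B : Type} [AddCommGroup A] [Module ℂ A] [FiniteDimensional ℂ A]
    [AddCommGroup B] [Module ℂ B] (f : A →ₗ[ℂ] B) (p : Submodule ℂ A) :
    finrank ℂ (p.map f) + finrank ℂ (p ⊓ LinearMap.ker f : Submodule ℂ A) = finrank ℂ p := by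
  have h1 := LinearMap.finrank_range_add_finrank_ker (f.domRestrict p)
  have h2 : LinearMap.range (f.domRestrict p) = p.map f := by
    ext x
    constructor
    · rintro ⟨y, rfl⟩
      exact ⟨y, y.2, rfl⟩
    · rintro ⟨y, hy, rfl⟩
      exact ⟨⟨y, hy⟩, rfl⟩
  have h3 : LinearMap.ker (f.domRestrict p) =
      Submodule.comap p.subtype (p ⊓ LinearMap.ker f) := by
    ext x
    constructor
    · intro hx
      exact ⟨x.2, hx⟩
    · intro hx
      exact hx.2
  have h4 : finrank ℂ (Submodule.comap p.subtype (p ⊓ LinearMap.ker f)) =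
      finrank ℂ (p ⊓ LinearMap.ker f : Submodule ℂ A) :=
    LinearEquiv.finrank_eq (Submodule.comapSubtypeEquivOfLe inf_le_left)
  rw [h2, h3, h4] at h1
  exact h1

private theorem cs_rank_le {A B : Type} [AddCommGroup A] [Module ℂ A] [FiniteDimensional ℂ A]
    [AddCommGroup B] [Module ℂ B] (f : A →ₗ[ℂ] B) (p q : Submodule ℂ A) (h1 : q ≤ p)
    (h2 : q ≤ LinearMap.ker f) :
    finrank ℂ (p.map f) + finrank ℂ q ≤ finrank ℂ p := by
  rw [← cs_rank f p]
  exact Nat.add_le_add_left (Submodule.finrank_mono (le_inf h1 h2)) _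

private theorem cs_onto [Fintype σ] [FiniteDimensional ℂ V] {t : ℕ} (K : Submodule ℂ V)
    (M : V →ₗ[ℂ] (σ → ℂ)) (h1 : finrank ℂ K = Fintype.card σ + t)
    (h2 : finrank ℂ (K ⊓ LinearMap.ker M : Submodule ℂ V) ≤ t) : K.map M = ⊤ := by
  have h3 := cs_rank M K
  have h4 : finrank ℂ (σ → ℂ) = Fintype.card σ := Module.finrank_fintype_fun_eq_card ℂ
  have h5 : finrank ℂ (K.map M) ≤ finrank ℂ (σ → ℂ) := Submodule.finrank_le _
  apply Submodule.eq_top_of_finrank_eq
  omega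

private theorem cs_Ek_mono {s k k' : ℕ} (h : k ≤ k') : Ek σ s k ≤ Ek σ s k' := by
  intro x hx j hj
  exact hx j (lt_of_le_of_lt h hj)

private theorem cs_Ck_le {s k : ℕ} : Ck σ s k ≤ Ek σ s k := by
  intro x hx j hj
  exact hx j (ne_of_gt hj)

private theorem cs_Phi_apply {s : ℕ} (M : Fin s → V →ₗ[ℂ] (σ → ℂ)) (c : Fin s → ℂ) (v : V)
    (j : Fin s) : Phi M c v j = c j • M j v := rfl

private theorem cs_map_le {s k : ℕ} (M : Fin s → V →ₗ[ℂ] (σ → ℂ)) (c : Fin s → ℂ)
    (K : Submodule ℂ V) (hc : ∀ j : Fin s, k < (j : ℕ) → c j = 0) :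
    K.map (Phi M c) ≤ Ek σ s k := by
  rintro x ⟨v, -, rfl⟩ j hj
  rw [cs_Phi_apply, hc j hj, zero_smul]

private theorem cs_Ck_map {s k : ℕ} (hk : k < s) (M : Fin s → V →ₗ[ℂ] (σ → ℂ))
    (K : Submodule ℂ V) (h : K.map (M ⟨k, hk⟩) = ⊤) :
    Ck σ s k ≤ K.map (Phi M (Pi.single ⟨k, hk⟩ 1)) := by
  intro x hx
  have h1 : x ⟨k, hk⟩ ∈ K.map (M ⟨k, hk⟩) := by
    rw [h]
    exact Submodule.mem_top
  obtain ⟨v, hv, hv'⟩ := h1
  refine ⟨v, hv, ?_⟩
  funext j
  rw [cs_Phi_apply]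
  by_cases hj : j = ⟨k, hk⟩
  · subst hj
    rw [Pi.single_eq_same, one_smul, hv']
  · rw [Pi.single_eq_of_ne hj, zero_smul, hx j]
    intro h2
    exact hj (Fin.ext h2)

private theorem cs_inf {Kc : Submodule ℂ V} {m : ℕ} (K : Submodule ℂ V)
    (Q : (σ → ℂ) → V →ₗ[ℂ] ℂ) (w : Fin m → σ → ℂ) :
    (cutV K Q w ⊓ Kc : Submodule ℂ V) = K ⊓ Kc ⊓ ⨅ i, LinearMap.ker (Q (w i)) :=
  inf_right_comm _ _ _

/-- ONE STEP.  `M j` maps `K` onto `σ → ℂ` (`h1`, `h2`).

(a) `finrank S + t ≤ m (k+1)` or `k + 1 = s`: `c = e_k`, `k' = k`, cuts general with respect to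
`K ⊓ S.comap Φ`, `Φ = Phi M c`; `S ⊔ K.map Φ ⊇ Ek s k` (`K.map Φ = Ck s k`), `rank_cut`.
(b) `m (k+1) < finrank S + t` and `k + 1 < s`: `c = e_k + e_(k+1)`, `k' = k + 1`, cuts general with
respect to `K ⊓ S.comap Φ`, `K ⊓ S.comap Φ_k` (`Φ_k = Phi M e_k`).  Dimension: `rank_cut` with
`finrank (S ⊔ K.map Φ) ≥ finrank S + m` (the coordinate `k + 1` of `S` is `0` and `M_(k+1)` is onto)
and `t ≤ m`.  Invariant: the projection of `S'` to the boxes `≤ k` is `S ⊔ V'.map Φ_k`, which has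
dimension `≥ min (finrank S + t) (m (k+1)) = m (k+1)`, so it is `Ek s k`. -/
theorem chain_step [Fintype σ] [FiniteDimensional ℂ V] {s t : ℕ}
    (ht : t ≤ Fintype.card σ) (K : Submodule ℂ V) (M : Fin s → V →ₗ[ℂ] (σ → ℂ))
    (Q : (σ → ℂ) → V →ₗ[ℂ] ℂ) (h1 : finrank ℂ K = Fintype.card σ + t)
    (h2 : ∀ k, finrank ℂ (K ⊓ LinearMap.ker (M k) : Submodule ℂ V) ≤ t) (h3 : GenQ Q K)
    (S : Submodule ℂ (Fin s → σ → ℂ)) (k : ℕ) (hk : k < s) (hS : S ≤ Ek σ s k)
    (hS' : Ek σ s k ≤ S ⊔ Ck σ s k) :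
    ∃ (c : Fin s → ℂ) (w : Fin (Fintype.card σ) → σ → ℂ) (k' : ℕ), LinearIndependent ℂ w ∧
      k' < s ∧ S ⊔ (cutV K Q w).map (Phi M c) ≤ Ek σ s k' ∧
      Ek σ s k' ≤ S ⊔ (cutV K Q w).map (Phi M c) ⊔ Ck σ s k' ∧
      finrank ℂ (cutV K Q w) ≤ t ∧
      min (finrank ℂ S + t) (Fintype.card σ * s) ≤
        finrank ℂ (S ⊔ (cutV K Q w).map (Phi M c) : Submodule ℂ (Fin s → σ → ℂ)) := by
  have hon : ∀ j, K.map (M j) = ⊤ := fun j => cs_onto K (M j) h1 (h2 j)
  have hW : Fintype.card σ ≤ finrank ℂ (σ → ℂ) :=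
    (Module.finrank_fintype_fun_eq_card ℂ).ge
  have hfull : finrank ℂ (Ek σ s k) ≤ finrank ℂ
      (S ⊔ K.map (Phi M (Pi.single ⟨k, hk⟩ 1)) : Submodule ℂ (Fin s → σ → ℂ)) := by
    apply Submodule.finrank_mono
    exact hS'.trans (sup_le_sup_left (cs_Ck_map hk M K (hon _)) _)
  rw [finrank_Ek hk] at hfull
  by_cases hcase : Fintype.card σ * (k + 1) < finrank ℂ S + t ∧ k + 1 < s
  · obtain ⟨hc1, hc2⟩ := hcase
    let c : Fin s → ℂ := Pi.single ⟨k, hk⟩ 1 + Pi.single ⟨k + 1, hc2⟩ 1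
    let c0 : Fin s → ℂ := Pi.single ⟨k, hk⟩ 1
    have hckk : c ⟨k + 1, hc2⟩ = 1 := by
      have h4 : (⟨k + 1, hc2⟩ : Fin s) ≠ ⟨k, hk⟩ := by
        intro h
        have := congrArg Fin.val h
        simp at this
      simp only [c, Pi.add_apply, Pi.single_eq_same, Pi.single_eq_of_ne h4, zero_add]
    have hcne : ∀ j : Fin s, (j : ℕ) ≠ k + 1 → c j = c0 j := by
      intro j hj
      have h4 : j ≠ ⟨k + 1, hc2⟩ := by
        intro h
        exact hj (congrArg Fin.val h)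
      simp only [c, c0, Pi.add_apply, Pi.single_eq_of_ne h4, add_zero]
    have hc0 : ∀ j : Fin s, (j : ℕ) ≠ k → c0 j = 0 := by
      intro j hj
      have h4 : j ≠ ⟨k, hk⟩ := by
        intro h
        exact hj (congrArg Fin.val h)
      simp only [c0, Pi.single_eq_of_ne h4]
    obtain ⟨w, hw1, hw2⟩ := cut Q K h3
      (fun i : Fin 3 => ![K, K ⊓ S.comap (Phi M c), K ⊓ S.comap (Phi M c0)] i)
      (by
        intro j
        fin_cases j
        · exact le_refl _
        · exact inf_le_left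
        · exact inf_le_left) (Fintype.card σ) hW
    have hw20 := hw2 0
    have hw21 := hw2 1
    have hw22 := hw2 2
    have hVle : finrank ℂ (cutV K Q w) ≤ t := by
      have h4 : finrank ℂ (cutV K Q w) ≤ finrank ℂ K - Fintype.card σ := hw20
      omega
    have hVge : t ≤ finrank ℂ (cutV K Q w) := by
      have h4 : finrank ℂ K ≤ finrank ℂ (cutV K Q w) + Fintype.card σ := cut_ge Q K w
      omega
    have hX1 : finrank ℂ (cutV K Q w ⊓ S.comap (Phi M c) : Submodule ℂ V) ≤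
        finrank ℂ (K ⊓ S.comap (Phi M c) : Submodule ℂ V) - Fintype.card σ := by
      rw [cs_inf]
      exact hw21
    have hX2 : finrank ℂ (cutV K Q w ⊓ S.comap (Phi M c0) : Submodule ℂ V) ≤
        finrank ℂ (K ⊓ S.comap (Phi M c0) : Submodule ℂ V) - Fintype.card σ := by
      rw [cs_inf]
      exact hw22
    have hR1 := rank_cut (Phi M c) S K (cutV K Q w) h1 hVge hX1
    have hR2 := rank_cut (Phi M c0) S K (cutV K Q w) h1 hVge hX2
    have hEk : S ⊔ (cutV K Q w).map (Phi M c0) = Ek σ s k := by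
      apply Submodule.eq_of_le_of_finrank_le
      · refine sup_le hS (cs_map_le M c0 _ ?_)
        intro j hj
        exact hc0 j (ne_of_gt hj)
      · rw [finrank_Ek hk]
        refine le_trans (le_min hc1.le hfull) hR2
    refine ⟨c, w, k + 1, hw1, hc2, ?_, ?_, hVle, ?_⟩
    · refine sup_le (hS.trans (cs_Ek_mono (Nat.le_succ k))) (cs_map_le M c _ ?_)
      intro j hj
      rw [hcne j (ne_of_gt hj)]
      exact hc0 j (ne_of_gt (lt_trans (Nat.lt_succ_self k) hj))
    · intro x hx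
      have hx' : Function.update x ⟨k + 1, hc2⟩ 0 ∈ Ek σ s k := by
        intro j hj
        by_cases hj' : j = ⟨k + 1, hc2⟩
        · rw [hj', Function.update_self]
        · rw [Function.update_of_ne hj']
          apply hx
          have h4 : (j : ℕ) ≠ k + 1 := fun h => hj' (Fin.ext h)
          omega
      rw [← hEk] at hx'
      obtain ⟨y, hy, z, ⟨v, hv, rfl⟩, hyz⟩ := Submodule.mem_sup.1 hx'
      have h5 : x = (y + Phi M c v) + (x - (y + Phi M c v)) := by abel
      rw [h5]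
      refine Submodule.add_mem _ (Submodule.mem_sup_left ?_) (Submodule.mem_sup_right ?_)
      · exact Submodule.add_mem _ (Submodule.mem_sup_left hy)
          (Submodule.mem_sup_right ⟨v, hv, rfl⟩)
      · intro j hj
        have h6 := congrFun hyz j
        have hj' : j ≠ ⟨k + 1, hc2⟩ := fun h => hj (congrArg Fin.val h)
        rw [Function.update_of_ne hj', Pi.add_apply, cs_Phi_apply] at h6
        rw [Pi.sub_apply, Pi.add_apply, cs_Phi_apply, hcne j hj, h6, sub_self]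
    · refine le_trans ?_ hR1
      refine le_min (min_le_left _ _) ?_
      refine le_trans (min_le_left _ _) ?_
      let π : (Fin s → σ → ℂ) →ₗ[ℂ] (σ → ℂ) := LinearMap.proj ⟨k + 1, hc2⟩
      have h6 := cs_rank_le π (S ⊔ K.map (Phi M c)) S le_sup_left (by
        intro x hx
        exact hS hx ⟨k + 1, hc2⟩ (Nat.lt_succ_self k))
      have h7 : (S ⊔ K.map (Phi M c)).map π = ⊤ := by
        rw [eq_top_iff, ← hon ⟨k + 1, hc2⟩]
        rintro x ⟨v, hv, rfl⟩
        refine ⟨Phi M c v, Submodule.mem_sup_right ⟨v, hv, rfl⟩, ?_⟩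
        change Phi M c v ⟨k + 1, hc2⟩ = _
        rw [cs_Phi_apply, hckk, one_smul]
      rw [h7, finrank_top, Module.finrank_fintype_fun_eq_card] at h6
      omega
  · let c : Fin s → ℂ := Pi.single ⟨k, hk⟩ 1
    have hc0 : ∀ j : Fin s, (j : ℕ) ≠ k → c j = 0 := by
      intro j hj
      have h4 : j ≠ ⟨k, hk⟩ := by
        intro h
        exact hj (congrArg Fin.val h)
      simp only [c, Pi.single_eq_of_ne h4]
    obtain ⟨w, hw1, hw2⟩ := cut Q K h3
      (fun i : Fin 2 => ![K, K ⊓ S.comap (Phi M c)] i)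
      (by
        intro j
        fin_cases j
        · exact le_refl _
        · exact inf_le_left) (Fintype.card σ) hW
    have hw20 := hw2 0
    have hw21 := hw2 1
    have hVle : finrank ℂ (cutV K Q w) ≤ t := by
      have h4 : finrank ℂ (cutV K Q w) ≤ finrank ℂ K - Fintype.card σ := hw20
      omega
    have hVge : t ≤ finrank ℂ (cutV K Q w) := by
      have h4 : finrank ℂ K ≤ finrank ℂ (cutV K Q w) + Fintype.card σ := cut_ge Q K w
      omega
    have hX1 : finrank ℂ (cutV K Q w ⊓ S.comap (Phi M c) : Submodule ℂ V) ≤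
        finrank ℂ (K ⊓ S.comap (Phi M c) : Submodule ℂ V) - Fintype.card σ := by
      rw [cs_inf]
      exact hw21
    have hR1 := rank_cut (Phi M c) S K (cutV K Q w) h1 hVge hX1
    refine ⟨c, w, k, hw1, hk, ?_, ?_, hVle, ?_⟩
    · refine sup_le hS (cs_map_le M c _ ?_)
      intro j hj
      exact hc0 j (ne_of_gt hj)
    · exact hS'.trans (sup_le_sup_right le_sup_left _)
    · refine le_trans ?_ hR1
      refine le_min (min_le_left _ _) ?_
      refine le_trans ?_ hfull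
      by_cases h6 : k + 1 < s
      · have h7 : finrank ℂ S + t ≤ Fintype.card σ * (k + 1) := by
          by_contra h8
          exact hcase ⟨not_le.1 h8, h6⟩
        exact le_trans (min_le_left _ _) h7
      · have h7 : s = k + 1 := by omega
        refine le_trans (min_le_right _ _) ?_
        exact Nat.mul_le_mul_left _ h7.le

end Pool.Agent.SV.G
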