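import Pool.Agent.Lib.MP_b54217_ag.G.PolyF

/-! # PROJECT G: general cuts -/

set_option autoImplicit false

namespace Pool.Agent.SV.G

open MvPolynomial Module

/-- The family of functionals `Q w` on `K` is generic: for finitely many nonzero vectors and a
proper subspace `U` some `w ∉ U` works for all of them. -/
def GenQ {V W : Type} [AddCommGroup V] [Module ℂ V] [AddCommGroup W] [Module ℂ W]
    (Q : W → V →ₗ[ℂ] ℂ) (K : Submodule ℂ V) : Prop :=
  ∀ T : Finset V, (∀ f ∈ T, f ∈ K ∧ f ≠ 0) → ∀ U : Submodule ℂ W, U ≠ ⊤ →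
    ∃ w, w ∉ U ∧ ∀ f ∈ T, Q w f ≠ 0

/-- Sequential choice of `w 0, w 1, ..`: in step `j` take a nonzero vector in every nonzero
`X j ⊓ (ker of the previous ones)` and `U = span` of the previous `w`'s (proper because
`j < m ≤ finrank W`); then every dimension drops by one or is `0`.  Induction on `m` with
`Fin.snoc` (`LinearIndependent.finSnoc` / `linearIndependent_finSnoc`). -/
theorem cut {V W J : Type} [AddCommGroup V] [Module ℂ V] [FiniteDimensional ℂ V]
    [AddCommGroup W] [Module ℂ W] [FiniteDimensional ℂ W] [Finite J] (Q : W → V →ₗ[ℂ] ℂ)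
    (K : Submodule ℂ V) (hQ : GenQ Q K) (X : J → Submodule ℂ V) (hX : ∀ j, X j ≤ K) (m : ℕ)
    (hm : m ≤ finrank ℂ W) :
    ∃ w : Fin m → W, LinearIndependent ℂ w ∧
      ∀ j, finrank ℂ (X j ⊓ ⨅ i, LinearMap.ker (Q (w i)) : Submodule ℂ V) ≤
        finrank ℂ (X j) - m := by
  classical
  have : Fintype J := Fintype.ofFinite J
  induction m with
  | zero =>
    refine ⟨fun i => i.elim0, linearIndependent_empty_type, fun j => ?_⟩
    rw [Nat.sub_zero]
    exact Submodule.finrank_mono inf_le_left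
  | succ m ih =>
    obtain ⟨w, hw, hwX⟩ := ih (Nat.le_of_succ_le hm)
    have hex : ∀ j, ∃ f : V, (X j ⊓ ⨅ i, LinearMap.ker (Q (w i)) : Submodule ℂ V) ≠ ⊥ →
        f ∈ (X j ⊓ ⨅ i, LinearMap.ker (Q (w i)) : Submodule ℂ V) ∧ f ≠ 0 := by
      intro j
      by_cases h : (X j ⊓ ⨅ i, LinearMap.ker (Q (w i)) : Submodule ℂ V) = ⊥
      · exact ⟨0, fun h' => absurd h h'⟩
      · obtain ⟨f, hf, hf0⟩ := Submodule.exists_mem_ne_zero_of_ne_bot h
        exact ⟨f, fun _ => ⟨hf, hf0⟩⟩
    choose f hf using hex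
    have hU : Submodule.span ℂ (Set.range w) ≠ ⊤ := by
      intro h
      have h1 := finrank_span_eq_card hw
      rw [h, finrank_top, Fintype.card_fin] at h1
      omega
    obtain ⟨v, hv, hvT⟩ := hQ ((Finset.univ.filter fun j =>
      (X j ⊓ ⨅ i, LinearMap.ker (Q (w i)) : Submodule ℂ V) ≠ ⊥).image f) (by
        intro g hg
        rw [Finset.mem_image] at hg
        obtain ⟨j, hj, rfl⟩ := hg
        rw [Finset.mem_filter] at hj
        exact ⟨hX j (hf j hj.2).1.1, (hf j hj.2).2⟩) _ hU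
    refine ⟨Fin.snoc w v, linearIndependent_finSnoc.2 ⟨hw, hv⟩, fun j => ?_⟩
    have hle : (X j ⊓ ⨅ i, LinearMap.ker (Q ((Fin.snoc w v : Fin (m + 1) → W) i)) :
        Submodule ℂ V) ≤ (X j ⊓ ⨅ i, LinearMap.ker (Q (w i))) ⊓ LinearMap.ker (Q v) := by
      rintro x ⟨hx1, hx2⟩
      rw [SetLike.mem_coe, Submodule.mem_iInf] at hx2
      refine ⟨⟨hx1, ?_⟩, ?_⟩
      · rw [SetLike.mem_coe, Submodule.mem_iInf]
        intro i
        have h := hx2 i.castSucc
        rwa [Fin.snoc_castSucc] at h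
      · have h := hx2 (Fin.last m)
        rwa [Fin.snoc_last] at h
    by_cases h : (X j ⊓ ⨅ i, LinearMap.ker (Q (w i)) : Submodule ℂ V) = ⊥
    · rw [h, bot_inf_eq] at hle
      rw [le_bot_iff.mp hle, finrank_bot]
      exact Nat.zero_le _
    · have hlt : (X j ⊓ ⨅ i, LinearMap.ker (Q (w i))) ⊓ LinearMap.ker (Q v) <
          (X j ⊓ ⨅ i, LinearMap.ker (Q (w i)) : Submodule ℂ V) := by
        refine lt_of_le_of_ne inf_le_left fun heq => ?_
        have h1 : f j ∈ (X j ⊓ ⨅ i, LinearMap.ker (Q (w i))) ⊓ LinearMap.ker (Q v) := by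
          rw [heq]
          exact (hf j h).1
        refine hvT (f j) ?_ (LinearMap.mem_ker.mp h1.2)
        rw [Finset.mem_image]
        exact ⟨j, by rw [Finset.mem_filter]; exact ⟨Finset.mem_univ _, h⟩, rfl⟩
      have h2 := Submodule.finrank_lt_finrank_of_lt hlt
      have h3 := Submodule.finrank_mono hle
      have h4 := hwX j
      omega

/-- The cuts are `m` linear equations. -/
theorem cut_ge {V W : Type} [AddCommGroup V] [Module ℂ V] [FiniteDimensional ℂ V]
    (Q : W → V →ₗ[ℂ] ℂ) (K : Submodule ℂ V) {m : ℕ} (w : Fin m → W) :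
    finrank ℂ K ≤ finrank ℂ (K ⊓ ⨅ i, LinearMap.ker (Q (w i)) : Submodule ℂ V) + m := by
  let φ : K →ₗ[ℂ] (Fin m → ℂ) := LinearMap.pi fun i => (Q (w i)).comp K.subtype
  have h1 := LinearMap.finrank_range_add_finrank_ker φ
  have h2 : finrank ℂ (LinearMap.range φ) ≤ m := by
    refine (Submodule.finrank_le _).trans ?_
    rw [finrank_fin_fun]
  have h3 : finrank ℂ (LinearMap.ker φ) ≤
      finrank ℂ (K ⊓ ⨅ i, LinearMap.ker (Q (w i)) : Submodule ℂ V) := by
    rw [← Submodule.finrank_map_subtype_eq K (LinearMap.ker φ)]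
    refine Submodule.finrank_mono ?_
    rintro x ⟨y, hy, rfl⟩
    refine ⟨y.2, ?_⟩
    rw [SetLike.mem_coe, Submodule.mem_iInf]
    intro i
    exact congrFun (LinearMap.mem_ker.mp hy) i
  omega

end Pool.Agent.SV.G
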