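import Mathlib

/-!
# PROJECT G: a linear factor times any Segre-Veronese variety of large degree.  Definitions

`σ` is the (finite) set of affine coordinates of `Y`, `m = Fintype.card σ = dim Y`.
`H D` = polynomials in the variables `σ` whose exponents lie in the finite set `D`.
Points of `Y` are `p k : σ → ℂ` (`k : ℕ`).  See `/team-store/h50_G2.md`.
-/

set_option autoImplicit false

namespace Pool.Agent.SV.G

open MvPolynomial

/-- Polynomials with exponents in `D`. -/
noncomputable def H {σ : Type} (D : Finset (σ →₀ ℕ)) : Submodule ℂ (MvPolynomial σ ℂ) :=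
  restrictSupport ℂ (D : Set (σ →₀ ℕ))

/-- `Q` holds for all `p` outside the zero set of a nonzero polynomial. -/
def Gen {σ : Type} (Q : (ℕ → σ → ℂ) → Prop) : Prop :=
  ∃ F : MvPolynomial (ℕ × σ) ℂ, F ≠ 0 ∧
    ∀ p : ℕ → σ → ℂ, eval (fun x => p x.1 x.2) F ≠ 0 → Q p

/-- The polynomial `f(y + T w)` in `T`. -/
noncomputable def line {σ : Type} (y w : σ → ℂ) : MvPolynomial σ ℂ →ₐ[ℂ] Polynomial ℂ :=
  aeval fun i => Polynomial.C (y i) + Polynomial.C (w i) * Polynomial.X

/-- The second order Taylor term of `f` at `y` in the direction `w`. -/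
noncomputable def q2 {σ : Type} (y w : σ → ℂ) : MvPolynomial σ ℂ →ₗ[ℂ] ℂ :=
  (Polynomial.lcoeff ℂ 2).comp (line y w).toLinearMap

/-- The vector `e_i + e_j`. -/
def ee {σ : Type} [DecidableEq σ] (i j : σ) : σ → ℂ := fun a =>
  (if a = i then 1 else 0) + if a = j then 1 else 0

/-- Simple at the points of `S`, double at the points of `A`. -/
noncomputable def KS {σ : Type} (D : Finset (σ →₀ ℕ)) (p : ℕ → σ → ℂ) (S A : Finset ℕ) :
    Submodule ℂ (H D) where
  carrier := {f | (∀ k ∈ S, eval (p k) (f : MvPolynomial σ ℂ) = 0) ∧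
    ∀ k ∈ A, ∀ i, eval (p k) (pderiv i (f : MvPolynomial σ ℂ)) = 0}
  zero_mem' := by simp
  add_mem' := by
    rintro f g ⟨h1, h2⟩ ⟨h3, h4⟩
    refine ⟨fun k hk => ?_, fun k hk i => ?_⟩
    · rw [Submodule.coe_add, map_add, h1 k hk, h3 k hk, add_zero]
    · rw [Submodule.coe_add, map_add, map_add, h2 k hk i, h4 k hk i, add_zero]
  smul_mem' := by
    rintro c f ⟨h1, h2⟩
    refine ⟨fun k hk => ?_, fun k hk i => ?_⟩
    · rw [Submodule.coe_smul, smul_eval, h1 k hk, mul_zero]
    · rw [Submodule.coe_smul, Derivation.map_smul, smul_eval, h2 k hk i, mul_zero]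

/-- `KS` with a vanishing Hessian at the point number `b`. -/
noncomputable def KH {σ : Type} [DecidableEq σ] (D : Finset (σ →₀ ℕ)) (p : ℕ → σ → ℂ)
    (S A : Finset ℕ) (b : ℕ) : Submodule ℂ (H D) where
  carrier := {f | f ∈ KS D p S A ∧ ∀ i j, q2 (p b) (ee i j) (f : MvPolynomial σ ℂ) = 0}
  zero_mem' := ⟨Submodule.zero_mem _, by simp⟩
  add_mem' := by
    rintro f g ⟨h1, h2⟩ ⟨h3, h4⟩
    refine ⟨Submodule.add_mem _ h1 h3, fun i j => ?_⟩
    rw [Submodule.coe_add, map_add, h2 i j, h4 i j, add_zero]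
  smul_mem' := by
    rintro c f ⟨h1, h2⟩
    refine ⟨Submodule.smul_mem _ c h1, fun i j => ?_⟩
    rw [Submodule.coe_smul, map_smul, h2 i j, smul_zero]

/-- A block of `ν` coordinates: every `F l` is simple at the points of `P` and double at those of
`B l`, and `∑ u_{k,l} grad F_l = 0` at the points of `Z`. -/
noncomputable def TB {σ : Type} (D : Finset (σ →₀ ℕ)) (P : Finset ℕ) {ν : ℕ}
    (B : Fin ν → Finset ℕ) (Z : Finset ℕ) (u : ℕ → Fin ν → ℂ) (p : ℕ → σ → ℂ) :
    Submodule ℂ (Fin ν → H D) where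
  carrier := {F | (∀ l, F l ∈ KS D p P (B l)) ∧
    ∀ k ∈ Z, ∀ i, ∑ l, u k l * eval (p k) (pderiv i (F l : MvPolynomial σ ℂ)) = 0}
  zero_mem' := ⟨fun _ => Submodule.zero_mem _, by simp⟩
  add_mem' := by
    rintro F G ⟨h1, h2⟩ ⟨h3, h4⟩
    refine ⟨fun l => Submodule.add_mem _ (h1 l) (h3 l), fun k hk i => ?_⟩
    have h5 := congrArg₂ (· + ·) (h2 k hk i) (h4 k hk i)
    simp only [add_zero, ← Finset.sum_add_distrib] at h5
    rw [← h5]
    refine Finset.sum_congr rfl fun l _ => ?_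
    rw [Pi.add_apply, Submodule.coe_add, map_add, map_add, mul_add]
  smul_mem' := by
    rintro c F ⟨h1, h2⟩
    refine ⟨fun l => Submodule.smul_mem _ c (h1 l), fun k hk i => ?_⟩
    rw [← mul_zero c, ← h2 k hk i, Finset.mul_sum]
    refine Finset.sum_congr rfl fun l _ => ?_
    rw [Pi.smul_apply, Submodule.coe_smul, Derivation.map_smul, smul_eval]
    ring

/-- The annihilator of the tangent space of the `r`-th secant variety of `P^(n-1) × Y` at general
points of the `r` points `(u_k, p_k)`. -/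
noncomputable def TT {σ : Type} (n : ℕ) (D : Finset (σ →₀ ℕ)) (r : ℕ) (u : ℕ → Fin n → ℂ)
    (p : ℕ → σ → ℂ) : Submodule ℂ (Fin n → H D) :=
  TB D (Finset.range r) (fun _ : Fin n => ∅) (Finset.range r) u p

/-- `D'_j`: the exponents `a` of `D` with `a + e_j ∈ D`. -/
noncomputable def Dj {σ : Type} [DecidableEq σ] (D : Finset (σ →₀ ℕ)) (j : σ) :
    Finset (σ →₀ ℕ) :=
  D.filter fun a => a + Finsupp.single j 1 ∈ D

/-- The capacity of `D` is at least `x`. -/
def Cap {σ : Type} [DecidableEq σ] (D : Finset (σ →₀ ℕ)) (x : ℕ) : Prop :=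
  ∀ j, x ≤ (Dj D j).card

/-- The block statement: for every choice of `ν` disjoint groups of `q` points and of `s` points
`z` there are `u` such that, for general `p`, the block has dimension at most `ν t - m s`. -/
def BS {σ : Type} [Fintype σ] (D : Finset (σ →₀ ℕ)) (P : Finset ℕ) (q t ν s : ℕ) : Prop :=
  ∀ (B : Fin ν → Finset ℕ) (Z : Finset ℕ), (∀ l, B l ⊆ P) → (∀ l, (B l).card = q) →
    (∀ l l', l ≠ l' → Disjoint (B l) (B l')) → Z ⊆ P → (∀ l, Disjoint (B l) Z) → Z.card = s →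
    ∃ u : ℕ → Fin ν → ℂ, Gen fun p =>
      Module.finrank ℂ (TB D P B Z u p) ≤ ν * t - Fintype.card σ * s

/-- What is needed about the set of exponents `D`: `m ≥ 2`, `D` contains all exponents of degree at
most `2`, and the numerical hypotheses. -/
structure Good {σ : Type} [DecidableEq σ] [Fintype σ] (D : Finset (σ →₀ ℕ)) : Prop where
  two : 2 ≤ Fintype.card σ
  low : ∀ a : σ →₀ ℕ, ∑ i, a i ≤ 2 → a ∈ D
  cap : ∀ j, (Fintype.card σ + 1) *
      (2 * D.card + (2 * Fintype.card σ + 1) * (3 * Fintype.card σ - 2)) ≤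
    2 * (2 * Fintype.card σ + 1) * (Dj D j).card
  big : (2 * Fintype.card σ + 1) * (Fintype.card σ * (Fintype.card σ + 2)) ≤ D.card

end Pool.Agent.SV.G
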