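import Pool.Agent.Lib.MP_b54217_ag.G.Scalar
import Pool.Agent.Lib.MP_b54217_ag.G.GenB

/-! # PROJECT G: putting blocks together -/

set_option autoImplicit false

namespace Pool.Agent.SV.G

open MvPolynomial Module

variable {σ : Type} [Fintype σ] [DecidableEq σ]

private theorem free_sub {M : Type} [AddCommGroup M] [Module ℂ M] (S : Submodule ℂ M) :
    Module.Free ℂ S := inferInstance

omit [DecidableEq σ] in
/-- The dimension of a glued block. -/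
private theorem glue_le {D : Finset (σ →₀ ℕ)} {P : Finset ℕ} {ν₁ ν₂ : ℕ}
    (B : Fin (ν₁ + ν₂) → Finset ℕ) (Z Z1 Z2 : Finset ℕ) (hZ1 : Z1 ⊆ Z) (hZ2 : Z2 ⊆ Z)
    (hd : Disjoint Z1 Z2) (u1 : ℕ → Fin ν₁ → ℂ) (u2 : ℕ → Fin ν₂ → ℂ)
    (u : ℕ → Fin (ν₁ + ν₂) → ℂ)
    (hu1 : ∀ k ∈ Z1, u k = Fin.append (u1 k) (0 : Fin ν₂ → ℂ))
    (hu2 : ∀ k ∈ Z2, u k = Fin.append (0 : Fin ν₁ → ℂ) (u2 k)) (p : ℕ → σ → ℂ) :
    finrank ℂ (TB D P B Z u p) ≤
      finrank ℂ (TB D P (fun l => B (Fin.castAdd ν₂ l)) Z1 u1 p) +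
        finrank ℂ (TB D P (fun l => B (Fin.natAdd ν₁ l)) Z2 u2 p) := by
  have key1 : ∀ F : Fin (ν₁ + ν₂) → H D, F ∈ TB D P B Z u p →
      (fun l => F (Fin.castAdd ν₂ l)) ∈ TB D P (fun l => B (Fin.castAdd ν₂ l)) Z1 u1 p := by
    intro F hF
    refine ⟨fun l => hF.1 (Fin.castAdd ν₂ l), fun k hk i => ?_⟩
    have h := hF.2 k (hZ1 hk) i
    rw [Fin.sum_univ_add, hu1 k hk] at h
    simp only [Fin.append_left, Fin.append_right, Pi.zero_apply, zero_mul,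
      Finset.sum_const_zero, add_zero] at h
    exact h
  have key2 : ∀ F : Fin (ν₁ + ν₂) → H D, F ∈ TB D P B Z u p →
      (fun l => F (Fin.natAdd ν₁ l)) ∈ TB D P (fun l => B (Fin.natAdd ν₁ l)) Z2 u2 p := by
    intro F hF
    refine ⟨fun l => hF.1 (Fin.natAdd ν₁ l), fun k hk i => ?_⟩
    have h := hF.2 k (hZ2 hk) i
    rw [Fin.sum_univ_add, hu2 k hk] at h
    simp only [Fin.append_left, Fin.append_right, Pi.zero_apply, zero_mul,
      Finset.sum_const_zero, zero_add] at h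
    exact h
  let Φ : (TB D P B Z u p) →ₗ[ℂ]
      (TB D P (fun l => B (Fin.castAdd ν₂ l)) Z1 u1 p) ×
        (TB D P (fun l => B (Fin.natAdd ν₁ l)) Z2 u2 p) :=
    { toFun := fun F => (⟨fun l => F.1 (Fin.castAdd ν₂ l), key1 F.1 F.2⟩,
        ⟨fun l => F.1 (Fin.natAdd ν₁ l), key2 F.1 F.2⟩)
      map_add' := fun _ _ => rfl
      map_smul' := fun _ _ => rfl }
  have hinj : Function.Injective Φ := by
    intro F G hFG
    have h1 := congrArg (fun x => x.1.1) hFG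
    have h2 := congrArg (fun x => x.2.1) hFG
    apply Subtype.ext
    funext l
    refine Fin.addCases (fun l => ?_) (fun l => ?_) l
    · exact congrFun h1 l
    · exact congrFun h2 l
  have h3 := LinearMap.finrank_le_finrank_of_injective hinj
  haveI : Module.Free ℂ (TB D P (fun l => B (Fin.castAdd ν₂ l)) Z1 u1 p) := free_sub _
  haveI : Module.Free ℂ (TB D P (fun l => B (Fin.natAdd ν₁ l)) Z2 u2 p) := free_sub _
  have h4 : finrank ℂ ((TB D P (fun l => B (Fin.castAdd ν₂ l)) Z1 u1 p) ×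
      (TB D P (fun l => B (Fin.natAdd ν₁ l)) Z2 u2 p)) =
      finrank ℂ (TB D P (fun l => B (Fin.castAdd ν₂ l)) Z1 u1 p) +
        finrank ℂ (TB D P (fun l => B (Fin.natAdd ν₁ l)) Z2 u2 p) := Module.finrank_prod
  rw [h4] at h3
  exact h3

/-- Split `B` (`Fin.castAdd`, `Fin.natAdd`) and `Z = Z1 ∪ Z2`; `u k = (u1 k, 0)` on `Z1` and
`(0, u2 k)` on `Z2` (`Fin.append`).  `TB` embeds into `TB1 × TB2`, so the dimension is at most the
sum of the two; both subtractions have the same sign. -/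
theorem BS_add {D : Finset (σ →₀ ℕ)} {P : Finset ℕ} {q t ν₁ ν₂ s₁ s₂ : ℕ}
    (h1 : BS D P q t ν₁ s₁) (h2 : BS D P q t ν₂ s₂)
    (h : (Fintype.card σ * s₁ ≤ ν₁ * t ∧ Fintype.card σ * s₂ ≤ ν₂ * t) ∨
      (ν₁ * t ≤ Fintype.card σ * s₁ ∧ ν₂ * t ≤ Fintype.card σ * s₂)) :
    BS D P q t (ν₁ + ν₂) (s₁ + s₂) := by
  classical
  intro B Z hBP hBq hBB hZP hBZ hZs
  obtain ⟨Z1, hZ1, hZ1c⟩ := Finset.exists_subset_card_eq (s := Z) (n := s₁) (by omega)
  have hZ2 : Z \ Z1 ⊆ Z := Finset.sdiff_subset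
  have hZ2c : (Z \ Z1).card = s₂ := by
    rw [Finset.card_sdiff_of_subset hZ1]
    omega
  have hd : Disjoint Z1 (Z \ Z1) := Finset.disjoint_sdiff
  obtain ⟨u1, hu1⟩ := h1 (fun l => B (Fin.castAdd ν₂ l)) Z1 (fun l => hBP _) (fun l => hBq _)
    (fun l l' hl => hBB _ _ fun he => hl (Fin.castAdd_injective ν₁ ν₂ he)) (hZ1.trans hZP)
    (fun l => (hBZ _).mono_right hZ1) hZ1c
  obtain ⟨u2, hu2⟩ := h2 (fun l => B (Fin.natAdd ν₁ l)) (Z \ Z1) (fun l => hBP _) (fun l => hBq _)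
    (fun l l' hl => hBB _ _ fun he => hl (Fin.natAdd_injective ν₂ ν₁ he)) (hZ2.trans hZP)
    (fun l => (hBZ _).mono_right hZ2) hZ2c
  refine ⟨fun k => if k ∈ Z1 then Fin.append (u1 k) (0 : Fin ν₂ → ℂ)
    else Fin.append (0 : Fin ν₁ → ℂ) (u2 k), (hu1.and hu2).mono fun p hp => ?_⟩
  have h3 := glue_le (D := D) (P := P) B Z Z1 (Z \ Z1) hZ1 hZ2 hd u1 u2
    (fun k => if k ∈ Z1 then Fin.append (u1 k) (0 : Fin ν₂ → ℂ)
      else Fin.append (0 : Fin ν₁ → ℂ) (u2 k))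
    (fun k hk => if_pos hk) (fun k hk => if_neg (Finset.mem_sdiff.1 hk).2) p
  have h4 := h3.trans (Nat.add_le_add hp.1 hp.2)
  refine h4.trans ?_
  rw [Nat.add_mul, Nat.mul_add]
  omega

/-- No coordinates. -/
theorem BS_nil (D : Finset (σ →₀ ℕ)) (P : Finset ℕ) (q t s : ℕ) : BS D P q t 0 s := by
  intro B Z _ _ _ _ _ _
  refine ⟨fun _ _ => 0, gen_true fun p => ?_⟩
  have h : finrank ℂ (TB D P B Z (fun _ _ => 0) p) = 0 := Module.finrank_zero_of_subsingleton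
  rw [h]
  exact Nat.zero_le _

/-- One coordinate without `z`: `sc`. -/
theorem BS_one [Nonempty σ] {D : Finset (σ →₀ ℕ)} {P : Finset ℕ} {q t : ℕ}
    (hN : D.card = P.card + Fintype.card σ * q + t)
    (hc : Cap D ((Fintype.card σ + 1) * q)) : BS D P q t 1 0 := by
  intro B Z hBP hBq _ _ _ _
  refine ⟨fun _ _ => 0, ?_⟩
  have hc' : Cap D ((Fintype.card σ + 1) * (B 0).card) := by
    rw [hBq 0]
    exact hc
  refine (sc D P (B 0) (hBP 0) hc').mono fun p hp => ?_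
  let Φ : (TB D P B Z (fun _ _ => 0) p) →ₗ[ℂ] (KS D p P (B 0)) :=
    { toFun := fun F => ⟨F.1 0, F.2.1 0⟩
      map_add' := fun _ _ => rfl
      map_smul' := fun _ _ => rfl }
  have hinj : Function.Injective Φ := by
    intro F G hFG
    have h1 := congrArg (fun x => x.1) hFG
    apply Subtype.ext
    funext l
    rw [Subsingleton.elim l 0]
    exact h1
  have h3 := LinearMap.finrank_le_finrank_of_injective hinj
  refine h3.trans (hp.trans ?_)
  rw [hBq 0]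
  omega

end Pool.Agent.SV.G
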