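import Pool.Agent.Lib.MP_b54217_ag.G.Glue

/-! # PROJECT G: all blocks from the small ones -/

set_option autoImplicit false

namespace Pool.Agent.SV.G

open MvPolynomial Module

variable {σ : Type} [Fintype σ] [DecidableEq σ]

private lemma glall_mul {D : Finset (σ →₀ ℕ)} {P : Finset ℕ} {q t : ℕ}
    (h : BS D P q t (Fintype.card σ) t) (β : ℕ) :
    BS D P q t (β * Fintype.card σ) (β * t) := by
  induction β with
  | zero => simpa using BS_nil D P q t 0
  | succ β ih =>
    have h2 := BS_add ih h (Or.inl ⟨le_of_eq (by ring), le_of_eq (by ring)⟩)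
    have e1 : (β + 1) * Fintype.card σ = β * Fintype.card σ + Fintype.card σ := by ring
    have e2 : (β + 1) * t = β * t + t := by ring
    rw [e1, e2]
    exact h2

private lemma glall_ones {D : Finset (σ →₀ ℕ)} {P : Finset ℕ} {q t : ℕ}
    (h1 : BS D P q t 1 0) (k : ℕ) : BS D P q t k 0 := by
  induction k with
  | zero => exact BS_nil D P q t 0
  | succ k ih => exact BS_add ih h1 (Or.inl ⟨by simp, by simp⟩)

/-- ALL BLOCKS from the small ones.  `m = Fintype.card σ`, `0 < t < m`.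
If `m s ≤ n t`: `s = β t + s'`, `s' < t`: `β` blocks `(m, t)`, one block `(ν', s')` with
`ν' = ⌈m s' / t⌉ ≤ m`, the other coordinates by `BS_one` (`β m + ν' ≤ n`).
If `n t ≤ m s`: `n = β m + ν'`, `ν' < m`, `s' = ⌈ν' t / m⌉`: `β` blocks `(m, t)`, one block
`(ν', s')` and `BS_nil` (`β t + s' ≤ s`). -/
theorem BS_all {D : Finset (σ →₀ ℕ)} {P : Finset ℕ} {q t : ℕ} (ht : 0 < t)
    (htm : t < Fintype.card σ) (h1 : BS D P q t 1 0)
    (hsmall : ∀ ν s, ν ≤ Fintype.card σ → s ≤ Fintype.card σ → BS D P q t ν s) (n s : ℕ) :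
    BS D P q t n s := by
  have hmt := hsmall (Fintype.card σ) t le_rfl htm.le
  have hm : 0 < Fintype.card σ := ht.trans htm
  generalize hmd : Fintype.card σ = m at *
  rcases le_total (m * s) (n * t) with hle | hle
  · -- few points
    obtain ⟨β, s', hs, hs'⟩ : ∃ β s', s = β * t + s' ∧ s' < t :=
      ⟨s / t, s % t, by rw [mul_comm]; exact (Nat.div_add_mod s t).symm, Nat.mod_lt s ht⟩
    subst hs
    obtain ⟨ν', hν1, hν2⟩ : ∃ ν', m * s' ≤ ν' * t ∧ ∀ x, m * s' ≤ x * t → ν' ≤ x := by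
      have hex : ∃ x, m * s' ≤ x * t := ⟨m, Nat.mul_le_mul_left m hs'.le⟩
      exact ⟨Nat.find hex, Nat.find_spec hex, fun x hx => Nat.find_min' hex hx⟩
    have hνm : ν' ≤ m := hν2 m (Nat.mul_le_mul_left m hs'.le)
    have hβ : β * m ≤ n := by
      have h3 : (β * m) * t ≤ n * t := by nlinarith [Nat.zero_le (m * s')]
      exact Nat.le_of_mul_le_mul_right h3 ht
    obtain ⟨c, rfl⟩ := Nat.exists_eq_add_of_le hβ
    have hc : m * s' ≤ c * t := by nlinarith
    obtain ⟨k, rfl⟩ := Nat.exists_eq_add_of_le (hν2 c hc)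
    have hA := glall_mul (σ := σ) (by rw [hmd]; exact hmt) β
    rw [hmd] at hA
    have hB := BS_add hA (hsmall ν' s' hνm (hs'.le.trans htm.le))
      (Or.inl ⟨by rw [hmd]; exact le_of_eq (by ring), by rw [hmd]; exact hν1⟩)
    have hC := BS_add hB (glall_ones h1 k)
      (Or.inl ⟨by rw [hmd]; nlinarith, by simp⟩)
    rw [add_zero, add_assoc] at hC
    exact hC
  · -- many points
    obtain ⟨β, ν', hn, hν'⟩ : ∃ β ν', n = β * m + ν' ∧ ν' < m :=
      ⟨n / m, n % m, by rw [mul_comm]; exact (Nat.div_add_mod n m).symm, Nat.mod_lt n hm⟩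
    subst hn
    obtain ⟨s', hs1, hs2⟩ : ∃ s', ν' * t ≤ m * s' ∧ ∀ x, ν' * t ≤ m * x → s' ≤ x := by
      have hex : ∃ x, ν' * t ≤ m * x := ⟨t, Nat.mul_le_mul_right t hν'.le⟩
      exact ⟨Nat.find hex, Nat.find_spec hex, fun x hx => Nat.find_min' hex hx⟩
    have hst : s' ≤ t := hs2 t (Nat.mul_le_mul_right t hν'.le)
    have hβ : β * t ≤ s := by
      have h3 : m * (β * t) ≤ m * s := by nlinarith [Nat.zero_le (ν' * t)]
      exact Nat.le_of_mul_le_mul_left h3 hm
    obtain ⟨c, rfl⟩ := Nat.exists_eq_add_of_le hβ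
    have hc : ν' * t ≤ m * c := by nlinarith
    obtain ⟨k, rfl⟩ := Nat.exists_eq_add_of_le (hs2 c hc)
    have hA := glall_mul (σ := σ) (by rw [hmd]; exact hmt) β
    rw [hmd] at hA
    have hB := BS_add hA (hsmall ν' s' hν'.le (hst.trans htm.le))
      (Or.inr ⟨by rw [hmd]; exact le_of_eq (by ring), by rw [hmd]; exact hs1⟩)
    have hC := BS_add hB (BS_nil D P q t k)
      (Or.inr ⟨by rw [hmd]; nlinarith, by simp⟩)
    rw [add_zero, add_assoc (β * t)] at hC
    exact hC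

end Pool.Agent.SV.G
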