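import Pool.Agent.Lib.MP_b54217_ag.G.PolyF

/-! # PROJECT G: jets at the origin -/

set_option autoImplicit false

namespace Pool.Agent.SV.G

open MvPolynomial Module

variable {σ : Type}

theorem line_zero_monomial [Fintype σ] (w : σ → ℂ) (a : σ →₀ ℕ) (c : ℂ) :
    line (0 : σ → ℂ) w (monomial a c) =
      Polynomial.C (c * ∏ i, w i ^ a i) * Polynomial.X ^ (∑ i, a i) := by
  unfold line
  rw [aeval_monomial, Finsupp.prod_fintype _ _ (fun i => pow_zero _)]
  simp only [Pi.zero_apply, map_zero, zero_add, mul_pow]
  rw [Finset.prod_mul_distrib, Finset.prod_pow_eq_pow_sum, ← mul_assoc]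
  congr 1
  rw [Polynomial.C_mul, map_prod]
  simp only [Polynomial.C_pow]
  rfl

theorem q2_zero_monomial [Fintype σ] (w : σ → ℂ) (a : σ →₀ ℕ) (c : ℂ) :
    q2 (0 : σ → ℂ) w (monomial a c) = if ∑ i, a i = 2 then c * ∏ i, w i ^ a i else 0 := by
  unfold q2
  rw [LinearMap.comp_apply, AlgHom.toLinearMap_apply, line_zero_monomial, Polynomial.lcoeff_apply,
    Polynomial.coeff_C_mul_X_pow]
  simp only [eq_comm]

theorem q2_zero_eq [Fintype σ] (w : σ → ℂ) (f : MvPolynomial σ ℂ) :
    q2 (0 : σ → ℂ) w f =
      ∑ a ∈ f.support, if ∑ i, a i = 2 then coeff a f * ∏ i, w i ^ a i else 0 := by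
  conv_lhs => rw [← support_sum_monomial_coeff f]
  rw [map_sum]
  exact Finset.sum_congr rfl fun a _ => q2_zero_monomial w a _

/-- The sum over any finite set which contains all relevant exponents. -/
theorem q2_zero_eq_of [Fintype σ] [DecidableEq σ] (w : σ → ℂ) (f : MvPolynomial σ ℂ)
    (T : Finset (σ →₀ ℕ)) (hT : ∀ a ∈ T, ∑ i, a i = 2)
    (h : ∀ a, ∑ i, a i = 2 → a ∉ T → ∏ i, w i ^ a i = 0) :
    q2 (0 : σ → ℂ) w f = ∑ a ∈ T, coeff a f * ∏ i, w i ^ a i := by
  classical
  rw [q2_zero_eq]
  have h1 : ∑ a ∈ f.support, (if ∑ i, a i = 2 then coeff a f * ∏ i, w i ^ a i else 0) =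
      ∑ a ∈ f.support ∪ T, (if ∑ i, a i = 2 then coeff a f * ∏ i, w i ^ a i else 0) := by
    refine Finset.sum_subset Finset.subset_union_left fun a _ ha => ?_
    rw [notMem_support_iff.1 ha, zero_mul, ite_self]
  have h2 : ∑ a ∈ T, (if ∑ i, a i = 2 then coeff a f * ∏ i, w i ^ a i else 0) =
      ∑ a ∈ f.support ∪ T, (if ∑ i, a i = 2 then coeff a f * ∏ i, w i ^ a i else 0) := by
    refine Finset.sum_subset Finset.subset_union_right fun a _ ha => ?_
    by_cases h3 : ∑ i, a i = 2
    · rw [if_pos h3, h a h3 ha, mul_zero]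
    · rw [if_neg h3]
  rw [h1, ← h2]
  exact Finset.sum_congr rfl fun a ha => if_pos (hT a ha)

theorem sum_single_apply [Fintype σ] [DecidableEq σ] (i : σ) (n : ℕ) :
    ∑ l, (Finsupp.single i n : σ →₀ ℕ) l = n := by
  rw [Finset.sum_eq_single i]
  · simp
  · intro l _ hl
    exact Finsupp.single_eq_of_ne hl
  · intro h
    exact absurd (Finset.mem_univ i) h

theorem exists_single [Fintype σ] [DecidableEq σ] (a : σ →₀ ℕ) (n : ℕ)
    (ha : ∑ i, a i = n + 1) : ∃ i b, a = Finsupp.single i 1 + b ∧ ∑ l, b l = n := by
  obtain ⟨i, hi⟩ : ∃ i, 1 ≤ a i := by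
    by_contra hc
    push Not at hc
    have : ∑ i, a i = 0 := Finset.sum_eq_zero fun i _ => by
      have := hc i
      omega
    omega
  have h1 : Finsupp.single i 1 ≤ a := by
    intro l
    by_cases hl : l = i
    · subst hl
      rw [Finsupp.single_eq_same]
      exact hi
    · rw [Finsupp.single_eq_of_ne hl]
      exact Nat.zero_le _
  obtain ⟨b, rfl⟩ := exists_add_of_le h1
  refine ⟨i, b, rfl, ?_⟩
  have h2 : ∑ l, (Finsupp.single i 1 + b : σ →₀ ℕ) l = 1 + ∑ l, b l := by
    simp only [Finsupp.add_apply, Finset.sum_add_distrib, sum_single_apply]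
  omega

/-- Exponents of degree two. -/
theorem exists_pair [Fintype σ] [DecidableEq σ] (a : σ →₀ ℕ) (ha : ∑ i, a i = 2) :
    ∃ i j, a = Finsupp.single i 1 + Finsupp.single j 1 := by
  obtain ⟨i, b, rfl, hb⟩ := exists_single a 1 ha
  obtain ⟨j, c, rfl, hc⟩ := exists_single b 0 hb
  refine ⟨i, j, ?_⟩
  have h0 : c = 0 := by
    ext l
    have := Finset.sum_eq_zero_iff.1 hc l (Finset.mem_univ l)
    simpa using this
  rw [h0, add_zero]

/-- At the origin `q2 0 w f` is the value at `w` of the homogeneous part of degree `2`; the values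
at the `e_i + e_j` determine it: `i = j` gives `4 c_{2 e_i} = 0`, `i ≠ j` gives
`c_{2 e_i} + c_{2 e_j} + c_{e_i + e_j} = 0`. -/
theorem coeff_two_of_q2 [Fintype σ] [DecidableEq σ] (f : MvPolynomial σ ℂ)
    (h : ∀ i j, q2 (0 : σ → ℂ) (ee i j) f = 0) (a : σ →₀ ℕ) (ha : ∑ i, a i = 2) :
    coeff a f = 0 := by
  classical
  have hee : ∀ i j l : σ, l ≠ i → l ≠ j → ee i j l = 0 := by
    intro i j l h1 h2
    unfold ee
    rw [if_neg h1, if_neg h2, add_zero]
  have hdiag : ∀ i : σ, coeff (Finsupp.single i 1 + Finsupp.single i 1) f = 0 := by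
    intro i
    have h1 := q2_zero_eq_of (ee i i) f {Finsupp.single i 1 + Finsupp.single i 1}
      (by
        intro a ha
        rw [Finset.mem_singleton] at ha
        subst ha
        simp only [Finsupp.add_apply, Finset.sum_add_distrib, sum_single_apply])
      (by
        intro a ha hna
        obtain ⟨j, l, rfl⟩ := exists_pair a ha
        have h2 : j ≠ i ∨ l ≠ i := by
          by_contra hc
          push Not at hc
          exact hna (by rw [hc.1, hc.2, Finset.mem_singleton])
        rcases h2 with h2 | h2
        · refine Finset.prod_eq_zero (Finset.mem_univ j) ?_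
          rw [hee i i j h2 h2]
          exact zero_pow (by simp)
        · refine Finset.prod_eq_zero (Finset.mem_univ l) ?_
          rw [hee i i l h2 h2]
          exact zero_pow (by simp))
    rw [h i i, Finset.sum_singleton] at h1
    have h3 : ∏ l, ee i i l ^ (Finsupp.single i 1 + Finsupp.single i 1 : σ →₀ ℕ) l = 4 := by
      rw [Finset.prod_eq_single i]
      · simp [ee]
        norm_num
      · intro l _ hl
        rw [Finsupp.add_apply, Finsupp.single_eq_of_ne hl]
        simp
      · intro hi
        exact absurd (Finset.mem_univ i) hi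
    rw [h3] at h1
    have h4 : coeff (Finsupp.single i 1 + Finsupp.single i 1) f * 4 = 0 := h1.symm
    rcases mul_eq_zero.1 h4 with h5 | h5
    · exact h5
    · norm_num at h5
  obtain ⟨i, j, rfl⟩ := exists_pair a ha
  by_cases hij : i = j
  · subst hij
    exact hdiag i
  · have hval : ∀ u v : σ, (u = i ∨ u = j) → (v = i ∨ v = j) →
        ∏ l, ee i j l ^ (Finsupp.single u 1 + Finsupp.single v 1 : σ →₀ ℕ) l = 1 := by
      intro u v hu hv
      refine Finset.prod_eq_one fun l _ => ?_
      by_cases hl : l = i ∨ l = j
      · have h1 : ee i j l = 1 := by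
          unfold ee
          rcases hl with rfl | rfl
          · rw [if_pos rfl, if_neg hij, add_zero]
          · rw [if_pos rfl, if_neg (Ne.symm hij), zero_add]
        rw [h1, one_pow]
      · push Not at hl
        have h1 : l ≠ u := by
          rcases hu with rfl | rfl
          · exact hl.1
          · exact hl.2
        have h2 : l ≠ v := by
          rcases hv with rfl | rfl
          · exact hl.1
          · exact hl.2
        rw [Finsupp.add_apply, Finsupp.single_eq_of_ne h1, Finsupp.single_eq_of_ne h2, add_zero,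
          pow_zero]
    have h1 := q2_zero_eq_of (ee i j) f {Finsupp.single i 1 + Finsupp.single i 1,
        Finsupp.single j 1 + Finsupp.single j 1, Finsupp.single i 1 + Finsupp.single j 1}
      (by
        intro a ha
        simp only [Finset.mem_insert, Finset.mem_singleton] at ha
        rcases ha with rfl | rfl | rfl <;>
        simp only [Finsupp.add_apply, Finset.sum_add_distrib, sum_single_apply])
      (by
        intro a ha hna
        obtain ⟨u, v, rfl⟩ := exists_pair a ha
        have h2 : (u ≠ i ∧ u ≠ j) ∨ (v ≠ i ∧ v ≠ j) := by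
          by_contra hc
          push Not at hc
          obtain ⟨hc1, hc2⟩ := hc
          apply hna
          simp only [Finset.mem_insert, Finset.mem_singleton]
          by_cases hu : u = i
          · by_cases hv : v = i
            · left
              rw [hu, hv]
            · right
              right
              rw [hu, hc2 hv]
          · have hu' := hc1 hu
            by_cases hv : v = i
            · right
              right
              rw [hu', hv, add_comm]
            · right
              left
              rw [hu', hc2 hv]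
        rcases h2 with h2 | h2
        · refine Finset.prod_eq_zero (Finset.mem_univ u) ?_
          rw [hee i j u h2.1 h2.2]
          exact zero_pow (by simp)
        · refine Finset.prod_eq_zero (Finset.mem_univ v) ?_
          rw [hee i j v h2.1 h2.2]
          exact zero_pow (by simp))
    have hne1 : (Finsupp.single i 1 + Finsupp.single i 1 : σ →₀ ℕ) ≠
        Finsupp.single j 1 + Finsupp.single j 1 := by
      intro he
      have := DFunLike.congr_fun he i
      simp [Finsupp.single_eq_of_ne hij] at this
    have hne2 : (Finsupp.single i 1 + Finsupp.single i 1 : σ →₀ ℕ) ≠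
        Finsupp.single i 1 + Finsupp.single j 1 := by
      intro he
      have := DFunLike.congr_fun he i
      simp [Finsupp.single_eq_of_ne hij] at this
    have hne3 : (Finsupp.single j 1 + Finsupp.single j 1 : σ →₀ ℕ) ≠
        Finsupp.single i 1 + Finsupp.single j 1 := by
      intro he
      have := DFunLike.congr_fun he i
      simp [Finsupp.single_eq_of_ne hij] at this
    rw [h i j, Finset.sum_insert (by simp [hne1, hne2]), Finset.sum_insert (by simp [hne3]),
      Finset.sum_singleton, hval i i (Or.inl rfl) (Or.inl rfl), hval j j (Or.inr rfl) (Or.inr rfl),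
      hval i j (Or.inl rfl) (Or.inr rfl), hdiag i, hdiag j] at h1
    simp only [zero_mul, zero_add, mul_one] at h1
    exact h1.symm

/-- Value and gradient at the origin. -/
theorem coeff_zero_of_eval (f : MvPolynomial σ ℂ) (h : eval (0 : σ → ℂ) f = 0) :
    coeff 0 f = 0 := by
  rw [eval_zero, constantCoeff_eq] at h
  exact h

theorem coeff_one_of_pderiv [DecidableEq σ] (f : MvPolynomial σ ℂ) (i : σ)
    (h : eval (0 : σ → ℂ) (pderiv i f) = 0) : coeff (Finsupp.single i 1) f = 0 := by
  rw [eval_zero, constantCoeff_eq, coeff_pderiv] at h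
  simpa using h

end Pool.Agent.SV.G
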