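import Pool.Agent.Lib.MP_b54217_ag.G.HDim
import Pool.Agent.Lib.MP_b54217_ag.G.PolyG

/-! # PROJECT G: jets of order 2 at the origin -/

set_option autoImplicit false

namespace Pool.Agent.SV.G

open MvPolynomial Module

variable {σ : Type} [Fintype σ] [DecidableEq σ]

/-- The number of exponents of degree at most `2` is `(m+1)(m+2)/2`
(`0`, `e_i`, `e_i + e_j` with `i ≤ j`; e.g. `Sym2 σ` (`Sym2.card`) for the degree `2`, or
`Finsupp.degree`/`finsuppAntidiag`). -/
theorem card_le_two (T : Finset (σ →₀ ℕ)) (hT : ∀ a, a ∈ T ↔ ∑ i, a i ≤ 2) :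
    T.card = (Fintype.card σ + 1) * (Fintype.card σ + 2) / 2 := by
  classical
  let e : T ≃ {P : Option σ → ℕ // ∑ i, P i = 2} :=
    { toFun := fun a => ⟨fun o => o.elim (2 - ∑ i, (a : σ →₀ ℕ) i) fun i => (a : σ →₀ ℕ) i, by
        have h := (hT a).1 a.2
        rw [Fintype.sum_option]
        exact Nat.sub_add_cancel h⟩
      invFun := fun P => ⟨Finsupp.equivFunOnFinite.symm fun i => P.1 (some i), by
        have h := P.2
        rw [Fintype.sum_option] at h
        rw [hT]
        have h2 : ∑ i, (Finsupp.equivFunOnFinite.symm fun i => P.1 (some i)) i =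
            ∑ i, P.1 (some i) := Finset.sum_congr rfl fun i _ => rfl
        rw [h2]
        omega⟩
      left_inv := by
        intro a
        apply Subtype.ext
        ext i
        rfl
      right_inv := by
        intro P
        apply Subtype.ext
        funext o
        cases o with
        | none =>
          have h := P.2
          rw [Fintype.sum_option] at h
          have h2 : ∑ i, (Finsupp.equivFunOnFinite.symm fun i => P.1 (some i)) i =
            ∑ i, P.1 (some i) := Finset.sum_congr rfl fun i _ => rfl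
          show 2 - ∑ i, (Finsupp.equivFunOnFinite.symm fun i => P.1 (some i)) i = P.1 none
          rw [h2]
          omega
        | some i => rfl }
  have h1 : T.card = Nat.card (Sym (Option σ) 2) := by
    rw [Nat.card_congr (Sym.equivNatSumOfFintype (Option σ) 2), ← Nat.card_congr e,
      Nat.card_eq_fintype_card, Fintype.card_coe]
  rw [h1, Nat.card_eq_fintype_card, Sym.card_sym_eq_choose, Fintype.card_option]
  have h2 : Fintype.card σ + 1 + 2 - 1 = Fintype.card σ + 2 := by omega
  rw [h2, Nat.choose_two_right, mul_comm]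
  rfl

omit [DecidableEq σ] in
/-- On `H D'` with all degrees at least `3` the coefficients of degree at most `2` of every line
through the origin vanish. -/
theorem line_coeff_of_high (D : Finset (σ →₀ ℕ)) (hD : ∀ a ∈ D, 3 ≤ ∑ i, a i)
    (f : MvPolynomial σ ℂ) (hf : f ∈ H D) (w : σ → ℂ) (k : ℕ) (hk : k ≤ 2) :
    (line 0 w f).coeff k = 0 := by
  have hsub : (f.support : Set (σ →₀ ℕ)) ⊆ (D : Set (σ →₀ ℕ)) := (mem_restrictSupport_iff ℂ).1 hf
  rw [f.as_sum, map_sum, Polynomial.finsetSum_coeff]
  refine Finset.sum_eq_zero fun a ha => ?_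
  have h3 := hD a (hsub ha)
  have h1 : line 0 w (monomial a (coeff a f)) =
      Polynomial.C (coeff a f * ∏ i, w i ^ a i) * Polynomial.X ^ (∑ i, a i) := by
    rw [line, aeval_monomial, Finsupp.prod_fintype _ _ (fun i => pow_zero _),
      Polynomial.algebraMap_eq, map_mul, mul_assoc]
    congr 1
    rw [map_prod, ← Finset.prod_pow_eq_pow_sum, ← Finset.prod_mul_distrib]
    refine Finset.prod_congr rfl fun i _ => ?_
    rw [Pi.zero_apply, map_zero, zero_add, mul_pow, map_pow]
  rw [h1, Polynomial.coeff_C_mul, Polynomial.coeff_X_pow, if_neg (by omega), mul_zero]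

/-- All jets of order `≤ 2` at the origin can be prescribed on `H D`: the subspace of the `f` with
value, gradient and Hessian `0` at the origin has dimension exactly
`|D| - (m+1)(m+2)/2`: it is `{f ∈ H D : coeff a f = 0 for |a| ≤ 2}`
(`coeff_zero_of_eval`, `coeff_one_of_pderiv`, `coeff_two_of_q2`, `card_le_two`). -/
theorem finrank_jet2 (D : Finset (σ →₀ ℕ)) (hlow : ∀ a : σ →₀ ℕ, ∑ i, a i ≤ 2 → a ∈ D)
    (p : ℕ → σ → ℂ) (b : ℕ) (hb : p b = 0) :
    finrank ℂ (KH D p {b} {b} b) + (Fintype.card σ + 1) * (Fintype.card σ + 2) / 2 = D.card := by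
  have hT : ∀ a : σ →₀ ℕ, a ∈ D.filter (fun a => ∑ i, a i ≤ 2) ↔ ∑ i, a i ≤ 2 := by
    intro a
    rw [Finset.mem_filter]
    exact ⟨fun h => h.2, fun h => ⟨hlow a h, h⟩⟩
  have hcard := card_le_two _ hT
  have hhigh : ∀ a ∈ D \ D.filter (fun a => ∑ i, a i ≤ 2), 3 ≤ ∑ i, a i := by
    intro a ha
    rw [Finset.mem_sdiff, hT] at ha
    omega
  have hmap : (KH D p {b} {b} b).map (H D).subtype =
      H (D \ D.filter (fun a => ∑ i, a i ≤ 2)) := by
    ext f
    constructor
    · rintro ⟨g, ⟨⟨h1, h2⟩, h3⟩, rfl⟩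
      have g0 := coeff_zero_of_eval (g : MvPolynomial σ ℂ)
        (by rw [← hb]; exact h1 b (Finset.mem_singleton_self b))
      have g1 := fun i => coeff_one_of_pderiv (g : MvPolynomial σ ℂ) i
        (by rw [← hb]; exact h2 b (Finset.mem_singleton_self b) i)
      have g2 := coeff_two_of_q2 (g : MvPolynomial σ ℂ) (by rw [← hb]; exact h3)
      have hg : ((g : MvPolynomial σ ℂ).support : Set (σ →₀ ℕ)) ⊆ (D : Set (σ →₀ ℕ)) :=
        (mem_restrictSupport_iff ℂ).1 g.2
      refine (mem_restrictSupport_iff ℂ).2 fun a ha => ?_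
      rw [Finset.coe_sdiff]
      refine ⟨hg ha, fun haT => ?_⟩
      have h4 : ∑ i, a i ≤ 2 := (hT a).1 haT
      have h5 : coeff a (g : MvPolynomial σ ℂ) ≠ 0 := mem_support_iff.1 ha
      have hcases : ∑ i, a i = 0 ∨ ∑ i, a i = 1 ∨ ∑ i, a i = 2 := by omega
      rcases hcases with h | h | h
      · have h6 : a = 0 := by
          ext i
          exact (Finset.sum_eq_zero_iff.1 h) i (Finset.mem_univ i)
        exact h5 (h6 ▸ g0)
      · obtain ⟨i, hi⟩ : ∃ i, a i ≠ 0 := by
          by_contra hne
          push Not at hne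
          rw [Finset.sum_eq_zero fun i _ => hne i] at h
          omega
        have h7 := Finset.add_sum_erase Finset.univ (fun i => a i) (Finset.mem_univ i)
        rw [h] at h7
        have h8 : a i = 1 ∧ ∑ j ∈ Finset.univ.erase i, a j = 0 := by
          omega
        have h9 : a = Finsupp.single i 1 := by
          ext j
          by_cases hj : j = i
          · rw [hj, Finsupp.single_eq_same, h8.1]
          · rw [Finsupp.single_eq_of_ne hj]
            exact (Finset.sum_eq_zero_iff.1 h8.2) j (Finset.mem_erase.2 ⟨hj, Finset.mem_univ j⟩)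
        exact h5 (h9 ▸ g1 i)
      · exact h5 (g2 a h)
    · intro hf
      have hfs : (f.support : Set (σ →₀ ℕ)) ⊆ ((D \ D.filter (fun a => ∑ i, a i ≤ 2) :
          Finset (σ →₀ ℕ)) : Set (σ →₀ ℕ)) := (mem_restrictSupport_iff ℂ).1 hf
      have hfD : f ∈ H D := (mem_restrictSupport_iff ℂ).2 (hfs.trans (by
        rw [Finset.coe_subset]
        exact Finset.sdiff_subset))
      have hl := line_coeff_of_high _ hhigh f hf
      refine ⟨⟨f, hfD⟩, ⟨⟨fun k hk => ?_, fun k hk i => ?_⟩, fun i j => ?_⟩, rfl⟩
      · rw [Finset.mem_singleton.1 hk, hb]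
        have h1 := hl 0 0 (by omega)
        rw [line_coeff_zero] at h1
        exact h1
      · rw [Finset.mem_singleton.1 hk, hb]
        have h1 := hl (Pi.single i 1) 1 (by omega)
        rw [line_coeff_one, Finset.sum_eq_single i (fun j _ hj => by
          rw [Pi.single_eq_of_ne hj, zero_mul]) (fun h => absurd (Finset.mem_univ i) h),
          Pi.single_eq_same, one_mul] at h1
        exact h1
      · rw [hb]
        exact hl (ee i j) 2 le_rfl
  have h1 : finrank ℂ (KH D p {b} {b} b) =
      (D \ D.filter (fun a => ∑ i, a i ≤ 2)).card := by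
    rw [← finrank_H, ← hmap, Submodule.finrank_map_subtype_eq]
  rw [h1, ← hcard]
  exact Finset.card_sdiff_add_card_eq_card (Finset.filter_subset _ _)

end Pool.Agent.SV.G
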