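import Pool.Agent.Lib.MP_b54217_ag.G.Scalar
import Pool.Agent.Lib.MP_b54217_ag.G.HessA

/-! # PROJECT G: the Hessian is injective (condition (C3)) -/

set_option autoImplicit false

namespace Pool.Agent.SV.G

open MvPolynomial Module

variable {σ : Type} [Fintype σ] [DecidableEq σ]

private theorem sc3_num (m s a : ℕ) (ha : 1 ≤ a) (has : a ≤ s) :
    (m + 1) * (m + 2) / 2 + (m + 1) * (a - 1) + (s - a) = s + m * a + m * (m + 1) / 2 := by
  have h1 : (m + 1) * (m + 2) / 2 = m * (m + 1) / 2 + (m + 1) := by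
    rw [show (m + 1) * (m + 2) = m * (m + 1) + (m + 1) * 2 by ring,
      Nat.add_mul_div_right _ _ (by norm_num)]
  obtain ⟨c, rfl⟩ := Nat.exists_eq_add_of_le ha
  obtain ⟨d, rfl⟩ := Nat.exists_eq_add_of_le has
  rw [h1, Nat.add_sub_cancel_left, Nat.add_sub_cancel_left]
  ring

/-- Put the point `b` at the origin, `L = KH D p {b} {b} b` (`finrank_jet2`), the points of
`A.erase b` by `doubles` with `e = (m+1)(m+2)/2`, the points of `S \ A` by `add_simple`;
`gen_kh`. -/
theorem sc3 [Nonempty σ] (D : Finset (σ →₀ ℕ)) (S A : Finset ℕ) (b : ℕ) (hA : A ⊆ S) (hb : b ∈ A)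
    (hlow : ∀ a : σ →₀ ℕ, ∑ i, a i ≤ 2 → a ∈ D)
    (hc : Cap D ((Fintype.card σ + 1) * (Fintype.card σ + 2) / 2 +
      (Fintype.card σ + 1) * (A.card - 1))) :
    Gen fun p => finrank ℂ (KH D p S A b) ≤ D.card - S.card - Fintype.card σ * A.card -
      Fintype.card σ * (Fintype.card σ + 1) / 2 := by
  have hA1 : 1 ≤ A.card := Finset.card_pos.2 ⟨b, hb⟩
  have hcard : (A.erase b).card = A.card - 1 := Finset.card_erase_of_mem hb
  have hL := finrank_jet2 D hlow (fun _ => 0) b rfl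
  obtain ⟨p1, hp1, h1⟩ := doubles D (KH D (fun _ => 0) {b} {b} b) (A.erase b)
    ((Fintype.card σ + 1) * (Fintype.card σ + 2) / 2) hL.ge (by rwa [hcard]) (fun _ => 0)
  obtain ⟨p, hp, h2⟩ := add_simple D
    (KH D (fun _ => 0) {b} {b} b ⊓ KS D p1 (A.erase b) (A.erase b)) (S \ A) p1
  refine gen_kh D S A b p ?_
  have hpb : p b = 0 := by
    rw [hp b (fun h => (Finset.mem_sdiff.1 h).2 hb), hp1 b (Finset.notMem_erase b A)]
  have hpA : ∀ k ∈ A, p k = p1 k := fun k hk => hp k fun h => (Finset.mem_sdiff.1 h).2 hk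
  have hle : KH D p S A b ≤ KH D (fun _ => 0) {b} {b} b ⊓ KS D p1 (A.erase b) (A.erase b) ⊓
      KS D p (S \ A) ∅ := by
    rintro f ⟨⟨hf1, hf2⟩, hf3⟩
    refine ⟨⟨⟨⟨fun k hk => ?_, fun k hk i => ?_⟩, fun i j => ?_⟩, fun k hk => ?_, fun k hk i => ?_⟩,
      fun k hk => hf1 k (Finset.mem_sdiff.1 hk).1, fun k hk => absurd hk (Finset.notMem_empty k)⟩
    · rw [Finset.mem_singleton] at hk
      subst hk
      have := hf1 k (hA hb)
      rwa [hpb] at this
    · rw [Finset.mem_singleton] at hk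
      subst hk
      have := hf2 k hb i
      rwa [hpb] at this
    · have := hf3 i j
      rwa [hpb] at this
    · have hk' := Finset.mem_of_mem_erase hk
      rw [← hpA k hk']
      exact hf1 k (hA hk')
    · have hk' := Finset.mem_of_mem_erase hk
      rw [← hpA k hk']
      exact hf2 k hk' i
  have h3 := Submodule.finrank_mono hle
  have h4 : (S \ A).card = S.card - A.card := Finset.card_sdiff_of_subset hA
  have h5 := sc3_num (Fintype.card σ) S.card A.card hA1 (Finset.card_le_card hA)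
  rw [hcard] at h1
  omega

end Pool.Agent.SV.G
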