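import Pool.Agent.Lib.MP_b54217_ag.G.JetsB

/-! # PROJECT G: double points -/

set_option autoImplicit false

namespace Pool.Agent.SV.G

open MvPolynomial Module

variable {σ : Type} [Fintype σ] [DecidableEq σ]

/-- the value and the gradient at `y` -/
private noncomputable def JM (D : Finset (σ →₀ ℕ)) (y : σ → ℂ) : H D →ₗ[ℂ] ℂ × (σ → ℂ) where
  toFun f := (eval y (f : MvPolynomial σ ℂ), fun j => eval y (pderiv j (f : MvPolynomial σ ℂ)))
  map_add' f g := by
    ext j
    · rw [Submodule.coe_add, map_add]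
      rfl
    · simp only [Submodule.coe_add, map_add]
      rfl
  map_smul' c f := by
    ext j
    · rw [Submodule.coe_smul, smul_eval]
      rfl
    · simp only [Submodule.coe_smul, Derivation.map_smul, smul_eval]
      rfl

private theorem JM_ker (D : Finset (σ →₀ ℕ)) (p : ℕ → σ → ℂ) (a : ℕ) (f : H D) :
    f ∈ LinearMap.ker (JM D (p a)) ↔ f ∈ KS D p {a} {a} := by
  rw [LinearMap.mem_ker]
  constructor
  · intro h
    have h1 : eval (p a) (f : MvPolynomial σ ℂ) = 0 := congrArg Prod.fst h
    have h2 : ∀ j, eval (p a) (pderiv j (f : MvPolynomial σ ℂ)) = 0 :=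
      fun j => congrFun (congrArg Prod.snd h) j
    refine ⟨fun k hk => ?_, fun k hk j => ?_⟩
    · rw [Finset.mem_singleton.1 hk]
      exact h1
    · rw [Finset.mem_singleton.1 hk]
      exact h2 j
  · rintro ⟨h1, h2⟩
    have h1' := h1 a (Finset.mem_singleton_self a)
    have h2' := h2 a (Finset.mem_singleton_self a)
    exact Prod.ext h1' (funext h2')

/-- the dimension drops by `m + 1` if the jets are onto -/
private theorem JM_drop (D : Finset (σ →₀ ℕ)) (L : Submodule ℂ (H D)) (p : ℕ → σ → ℂ) (a : ℕ)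
    (h : ∀ (c : ℂ) (b : σ → ℂ), ∃ f ∈ L, eval (p a) (f : MvPolynomial σ ℂ) = c ∧
      ∀ j, eval (p a) (pderiv j (f : MvPolynomial σ ℂ)) = b j) :
    finrank ℂ (L ⊓ KS D p {a} {a} : Submodule ℂ (H D)) + (Fintype.card σ + 1) =
      finrank ℂ L := by
  have e1 : KS D p {a} {a} = LinearMap.ker (JM D (p a)) := by
    ext f
    exact (JM_ker D p a f).symm
  obtain ⟨φ, hφ⟩ : ∃ φ : L →ₗ[ℂ] ℂ × (σ → ℂ), φ = (JM D (p a)) ∘ₗ L.subtype := ⟨_, rfl⟩
  have h1 : finrank ℂ (LinearMap.range φ) + finrank ℂ (LinearMap.ker φ) = finrank ℂ L :=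
    LinearMap.finrank_range_add_finrank_ker (K := ℂ) (V := L) (V₂ := ℂ × (σ → ℂ)) φ
  have h2 : LinearMap.range φ = ⊤ := by
    rw [LinearMap.range_eq_top]
    rintro ⟨c, b⟩
    obtain ⟨f, hf, h3, h4⟩ := h c b
    refine ⟨⟨f, hf⟩, ?_⟩
    rw [hφ]
    exact Prod.ext h3 (funext h4)
  have h3 : finrank ℂ (LinearMap.range φ) = Fintype.card σ + 1 := by
    rw [h2, finrank_top, Module.finrank_prod, Module.finrank_self, Module.finrank_fintype_fun_eq_card,
      add_comm]
  have h4 : finrank ℂ (LinearMap.ker φ) =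
      finrank ℂ (L ⊓ KS D p {a} {a} : Submodule ℂ (H D)) := by
    rw [hφ, LinearMap.ker_comp, e1, ← Submodule.finrank_map_subtype_eq L,
      Submodule.map_comap_subtype]
  rw [h3, h4] at h1
  omega

/-- DOUBLE POINTS on a subspace `L` of codimension at most `e`: the points with numbers in `A` can
be chosen such that the dimension drops by `(m+1) |A|`.  Induction on `A` with `jets`. -/
theorem doubles [Nonempty σ] (D : Finset (σ →₀ ℕ)) (L : Submodule ℂ (H D)) (A : Finset ℕ) (e : ℕ)
    (hL : D.card ≤ finrank ℂ L + e) (hc : Cap D (e + (Fintype.card σ + 1) * A.card))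
    (p0 : ℕ → σ → ℂ) : ∃ p : ℕ → σ → ℂ, (∀ k ∉ A, p k = p0 k) ∧
      finrank ℂ (L ⊓ KS D p A A : Submodule ℂ (H D)) ≤
        finrank ℂ L - (Fintype.card σ + 1) * A.card := by
  induction A using Finset.induction_on generalizing L e p0 with
  | empty =>
    refine ⟨p0, fun k _ => rfl, ?_⟩
    rw [Finset.card_empty, mul_zero, Nat.sub_zero]
    exact Submodule.finrank_mono inf_le_left
  | insert a A ha ih =>
    by_cases hbot : L = ⊥
    · refine ⟨p0, fun k _ => rfl, ?_⟩
      rw [hbot, bot_inf_eq, finrank_bot]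
      exact Nat.zero_le _
    · rw [Finset.card_insert_of_notMem ha] at hc ⊢
      obtain ⟨y, hy⟩ := jets D L hbot (fun j => by
        have h1 := hc j
        have h2 : (Fintype.card σ + 1) * (A.card + 1) =
          (Fintype.card σ + 1) * A.card + (Fintype.card σ + 1) := by ring
        omega)
      obtain ⟨p1, hp1⟩ : ∃ p1 : ℕ → σ → ℂ, p1 = Function.update p0 a y := ⟨_, rfl⟩
      have hp1a : p1 a = y := by
        rw [hp1, Function.update_self]
      have hp1k : ∀ k, k ≠ a → p1 k = p0 k := by
        intro k hk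
        rw [hp1, Function.update_of_ne hk]
      have hdrop := JM_drop D L p1 a (by rw [hp1a]; exact hy)
      have hc' : Cap D ((e + (Fintype.card σ + 1)) + (Fintype.card σ + 1) * A.card) := by
        intro j
        have h1 := hc j
        have h2 : (Fintype.card σ + 1) * (A.card + 1) =
          (Fintype.card σ + 1) * A.card + (Fintype.card σ + 1) := by ring
        omega
      obtain ⟨p, hp, hdim⟩ := ih (L ⊓ KS D p1 {a} {a}) (e + (Fintype.card σ + 1)) (by omega) hc' p1
      have hpa : p a = y := by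
        rw [hp a ha, hp1a]
      refine ⟨p, fun k hk => ?_, ?_⟩
      · have hka : k ≠ a := fun h => hk (by rw [h]; exact Finset.mem_insert_self a A)
        have hkA : k ∉ A := fun h => hk (Finset.mem_insert_of_mem h)
        rw [hp k hkA, hp1k k hka]
      · have hle : (L ⊓ KS D p (insert a A) (insert a A) : Submodule ℂ (H D)) ≤
            L ⊓ KS D p1 {a} {a} ⊓ KS D p A A := by
          rintro f ⟨hfL, hf1, hf2⟩
          refine ⟨⟨hfL, fun k hk => ?_, fun k hk j => ?_⟩, fun k hk => ?_, fun k hk j => ?_⟩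
          · rw [Finset.mem_singleton.1 hk, hp1a, ← hpa]
            exact hf1 a (Finset.mem_insert_self a A)
          · rw [Finset.mem_singleton.1 hk, hp1a, ← hpa]
            exact hf2 a (Finset.mem_insert_self a A) j
          · exact hf1 k (Finset.mem_insert_of_mem hk)
          · exact hf2 k (Finset.mem_insert_of_mem hk) j
        have h3 := (Submodule.finrank_mono hle).trans hdim
        have h2 : (Fintype.card σ + 1) * (A.card + 1) =
          (Fintype.card σ + 1) * A.card + (Fintype.card σ + 1) := by ring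
        omega

end Pool.Agent.SV.G
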