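import Pool.Agent.Lib.MP_b54217_ag.G.HDim

/-! # PROJECT G: the jets lemma (helper54), differential relations -/

set_option autoImplicit false

namespace Pool.Agent.SV.G

open MvPolynomial Module

variable {σ : Type} [Fintype σ] [DecidableEq σ]

/-- the substitution `X j = κ` -/
private noncomputable def ja_ev (j : σ) (κ : ℂ) : MvPolynomial σ ℂ →ₐ[ℂ] MvPolynomial σ ℂ :=
  aeval fun i => if i = j then C κ else X i

omit [Fintype σ] in
private theorem ja_sub_dvd (j : σ) (κ : ℂ) (f : MvPolynomial σ ℂ) :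
    (X j - C κ) ∣ f - ja_ev j κ f := by
  induction f using MvPolynomial.induction_on with
  | C a =>
    have h : ja_ev j κ (C a) = C a := by
      unfold ja_ev
      rw [aeval_C]
      rfl
    rw [h, sub_self]
    exact dvd_zero _
  | add p q hp hq =>
    have h : p + q - ja_ev j κ (p + q) = (p - ja_ev j κ p) + (q - ja_ev j κ q) := by
      rw [map_add]
      ring
    rw [h]
    exact dvd_add hp hq
  | mul_X p i hp =>
    have h : p * X i - ja_ev j κ (p * X i) =
        (p - ja_ev j κ p) * X i + ja_ev j κ p * (X i - ja_ev j κ (X i)) := by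
      rw [map_mul]
      ring
    rw [h]
    refine dvd_add (Dvd.dvd.mul_right hp _) (Dvd.dvd.mul_left ?_ _)
    have h1 : ja_ev j κ (X i) = if i = j then C κ else X i := by
      unfold ja_ev
      rw [aeval_X]
    rw [h1]
    by_cases hij : i = j
    · rw [if_pos hij, hij]
    · rw [if_neg hij, sub_self]
      exact dvd_zero _

omit [Fintype σ] in
private theorem ja_dvd_iff (j : σ) (κ : ℂ) (f : MvPolynomial σ ℂ) :
    (X j - C κ) ∣ f ↔ ja_ev j κ f = 0 := by
  constructor
  · rintro ⟨g, rfl⟩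
    have h1 : ja_ev j κ (X j - C κ) = 0 := by
      unfold ja_ev
      rw [map_sub, aeval_X, if_pos rfl, aeval_C]
      exact sub_self _
    rw [map_mul, h1, zero_mul]
  · intro h
    have h1 := ja_sub_dvd j κ f
    rwa [h, sub_zero] at h1

omit [Fintype σ] [DecidableEq σ] in
private theorem ja_ne (j : σ) (κ : ℂ) : (X j - C κ : MvPolynomial σ ℂ) ≠ 0 := by
  intro h
  have h1 := congrArg (eval fun _ => κ + 1) h
  rw [map_sub, eval_X, eval_C, map_zero, add_sub_cancel_left] at h1
  exact one_ne_zero h1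

omit [Fintype σ] [DecidableEq σ] in
private theorem ja_not_unit (j : σ) (κ : ℂ) : ¬ IsUnit (X j - C κ : MvPolynomial σ ℂ) := by
  intro h
  have h1 := h.map (eval fun _ : σ => κ)
  rw [map_sub, eval_X, eval_C, sub_self] at h1
  exact not_isUnit_zero h1

omit [Fintype σ] in
private theorem ja_mem (D : Finset (σ →₀ ℕ)) (j : σ) (κ : ℂ) (h : MvPolynomial σ ℂ)
    (hh : h ∈ H (Dj D j)) : (X j - C κ) * h ∈ H D := by
  have hh1 : ∀ a, coeff a h ≠ 0 → a ∈ Dj D j := by
    intro a ha
    have h2 := (mem_restrictSupport_iff ℂ).1 hh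
    exact Finset.mem_coe.1 (h2 (Finset.mem_coe.2 (mem_support_iff.2 ha)))
  refine (mem_restrictSupport_iff ℂ).2 ?_
  intro a ha
  have ha1 : coeff a ((X j - C κ) * h) ≠ 0 := mem_support_iff.1 (Finset.mem_coe.1 ha)
  rw [sub_mul, coeff_sub, coeff_C_mul, coeff_X_mul'] at ha1
  show a ∈ (D : Set (σ →₀ ℕ))
  rw [Finset.mem_coe]
  by_cases h3 : coeff a h = 0
  · rw [h3, mul_zero, sub_zero] at ha1
    by_cases h4 : j ∈ a.support
    · rw [if_pos h4] at ha1
      have h5 := hh1 _ ha1
      unfold Dj at h5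
      rw [Finset.mem_filter] at h5
      have h6 : a - Finsupp.single j 1 + Finsupp.single j 1 = a := by
        apply tsub_add_cancel_of_le
        rw [Finsupp.single_le_iff]
        exact Nat.one_le_iff_ne_zero.2 (Finsupp.mem_support_iff.1 h4)
      rw [h6] at h5
      exact h5.2
    · rw [if_neg h4] at ha1
      exact absurd rfl ha1
  · have h5 := hh1 _ h3
    unfold Dj at h5
    rw [Finset.mem_filter] at h5
    exact h5.1

/-- Multiplication by `X j - C κ` maps `H (Dj D j)` injectively into `H D`: so a subspace `L` of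
`H D` with `|D| < dim L + |D'_j|` contains a nonzero multiple of `X j - C κ`. -/
theorem exists_multiple (D : Finset (σ →₀ ℕ)) (L : Submodule ℂ (H D)) (j : σ) (κ : ℂ)
    (hL : D.card < finrank ℂ L + (Dj D j).card) :
    ∃ f ∈ L, (f : MvPolynomial σ ℂ) ≠ 0 ∧ (X j - C κ) ∣ (f : MvPolynomial σ ℂ) := by
  let μ : H (Dj D j) →ₗ[ℂ] H D := LinearMap.codRestrict (H D)
    ((LinearMap.mulLeft ℂ (X j - C κ : MvPolynomial σ ℂ)).comp (H (Dj D j)).subtype)
    (fun h => ja_mem D j κ h h.2)
  have hμ : ∀ h : H (Dj D j), (μ h : MvPolynomial σ ℂ) = (X j - C κ) * (h : MvPolynomial σ ℂ) :=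
    fun _ => rfl
  have hinj : Function.Injective μ := by
    rw [← LinearMap.ker_eq_bot, LinearMap.ker_eq_bot']
    intro h hh
    have h1 : (X j - C κ) * (h : MvPolynomial σ ℂ) = 0 := by
      rw [← hμ h, hh]
      rfl
    exact Subtype.ext ((mul_eq_zero.1 h1).resolve_left (ja_ne j κ))
  have hR : finrank ℂ (LinearMap.range μ) = (Dj D j).card := by
    rw [LinearMap.finrank_range_of_inj hinj, finrank_H]
  have h1 := Submodule.finrank_sup_add_finrank_inf_eq L (LinearMap.range μ)
  have h2 : finrank ℂ (L ⊔ LinearMap.range μ : Submodule ℂ (H D)) ≤ D.card := by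
    rw [← finrank_H D]
    exact Submodule.finrank_le _
  have h3 : 0 < finrank ℂ (L ⊓ LinearMap.range μ : Submodule ℂ (H D)) := by omega
  have h3b : L ⊓ LinearMap.range μ ≠ ⊥ := by
    intro hbot
    rw [hbot, finrank_bot] at h3
    exact absurd h3 (lt_irrefl 0)
  obtain ⟨f, hf, hf0⟩ := Submodule.exists_mem_ne_zero_of_ne_bot h3b
  obtain ⟨hfL, h, hh⟩ := Submodule.mem_inf.1 hf
  refine ⟨f, hfL, ?_, ?_⟩
  · intro h4
    exact hf0 (Subtype.ext h4)
  · rw [← hh, hμ]
    exact Dvd.intro _ rfl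

/-- A differential relation `w0 f + ∑ w_j ∂_j f = 0` on such an `L` is trivial.  If `w_j ≠ 0`,
choose `κ` with `X j - C κ ∤ w_j` (only finitely many `κ` are bad: `X j - C κ` are pairwise
non-associated primes); take `0 ≠ f ∈ L`, `f = (X j - C κ)^k h` with `k ≥ 1` maximal; then
`X j - C κ` divides `k w_j h`, contradiction.  All `w_j = 0`: `w0 f = 0` for a nonzero `f`. -/
theorem no_relation (D : Finset (σ →₀ ℕ)) (L : Submodule ℂ (H D)) (hL0 : L ≠ ⊥)
    (hL : ∀ j, D.card < finrank ℂ L + (Dj D j).card) (w0 : MvPolynomial σ ℂ)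
    (w : σ → MvPolynomial σ ℂ)
    (h : ∀ f ∈ L, w0 * (f : MvPolynomial σ ℂ) + ∑ j, w j * pderiv j (f : MvPolynomial σ ℂ) = 0) :
    w0 = 0 ∧ ∀ j, w j = 0 := by
  have hw : ∀ j, w j = 0 := by
    intro j
    by_contra hwj
    obtain ⟨y, hy⟩ : ∃ y : σ → ℂ, eval y (w j) ≠ 0 := by
      by_contra hcon
      push Not at hcon
      apply hwj
      apply MvPolynomial.funext
      intro y
      rw [hcon y, map_zero]
    set κ : ℂ := y j with hκ
    have hnd : ¬ (X j - C κ) ∣ w j := by
      rintro ⟨g, hg⟩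
      apply hy
      rw [hg, map_mul, map_sub, eval_X, eval_C, hκ, sub_self, zero_mul]
    obtain ⟨f, hfL, hf0, hfd⟩ := exists_multiple D L j κ (hL j)
    obtain ⟨n, g, hgd, hg⟩ := WfDvdMonoid.max_power_factor' hf0 (ja_not_unit j κ)
    have hn : n ≠ 0 := by
      rintro rfl
      rw [pow_zero, one_mul] at hg
      rw [hg] at hfd
      exact hgd hfd
    obtain ⟨k, rfl⟩ := Nat.exists_eq_succ_of_ne_zero hn
    have h1 := h f hfL
    have hd : ∀ i, pderiv i (f : MvPolynomial σ ℂ) =
        (X j - C κ) ^ (k + 1) * pderiv i g +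
          (if i = j then ((k + 1 : ℕ) : MvPolynomial σ ℂ) * ((X j - C κ) ^ k * g) else 0) := by
      intro i
      rw [hg, Derivation.leibniz, Derivation.leibniz_pow, map_sub, pderiv_C, sub_zero, pderiv_X]
      simp only [smul_eq_mul, nsmul_eq_mul, Nat.succ_sub_one, Nat.succ_eq_add_one]
      by_cases hij : i = j
      · rw [if_pos hij, hij, Pi.single_eq_same]
        ring
      · rw [if_neg hij, Pi.single_eq_of_ne (Ne.symm hij)]
        ring
    have h2 : (X j - C κ) ^ k * ((X j - C κ) * (w0 * g + ∑ i, w i * pderiv i g) +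
        ((k + 1 : ℕ) : MvPolynomial σ ℂ) * (w j * g)) = 0 := by
      rw [← h1]
      have h3 : ∑ i, w i * pderiv i (f : MvPolynomial σ ℂ) =
          (X j - C κ) ^ (k + 1) * ∑ i, w i * pderiv i g +
          ((k + 1 : ℕ) : MvPolynomial σ ℂ) * ((X j - C κ) ^ k * g) * w j := by
        rw [Finset.mul_sum]
        have h4 : ((k + 1 : ℕ) : MvPolynomial σ ℂ) * ((X j - C κ) ^ k * g) * w j =
            ∑ i, w i * (if i = j then ((k + 1 : ℕ) : MvPolynomial σ ℂ) *
              ((X j - C κ) ^ k * g) else 0) := by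
          rw [Finset.sum_eq_single j]
          · rw [if_pos rfl, mul_comm]
          · intro i _ hij
            rw [if_neg hij, mul_zero]
          · intro hj
            exact absurd (Finset.mem_univ j) hj
        rw [h4, ← Finset.sum_add_distrib]
        apply Finset.sum_congr rfl
        intro i _
        rw [hd i]
        ring
      rw [h3]
      rw [hg, Nat.succ_eq_add_one]
      ring
    have h5 := (mul_eq_zero.1 h2).resolve_left (pow_ne_zero k (ja_ne j κ))
    have h6 : ja_ev j κ (((k + 1 : ℕ) : MvPolynomial σ ℂ) * (w j * g)) = 0 := by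
      rw [← ja_dvd_iff]
      have h5a : (X j - C κ) ∣ (X j - C κ) * (w0 * g + ∑ i, w i * pderiv i g) :=
        Dvd.intro _ rfl
      refine (dvd_add_right h5a).1 ?_
      rw [h5]
      exact dvd_zero _
    rw [map_mul, map_mul, map_natCast] at h6
    rcases mul_eq_zero.1 h6 with h7 | h7
    · exact absurd h7 (Nat.cast_ne_zero.2 (Nat.succ_ne_zero k))
    · rcases mul_eq_zero.1 h7 with h8 | h8
      · exact hnd ((ja_dvd_iff j κ _).2 h8)
      · exact hgd ((ja_dvd_iff j κ _).2 h8)
  refine ⟨?_, hw⟩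
  obtain ⟨f, hfL, hf0⟩ := Submodule.exists_mem_ne_zero_of_ne_bot hL0
  have h1 := h f hfL
  have h2 : ∑ j, w j * pderiv j (f : MvPolynomial σ ℂ) = 0 := by
    apply Finset.sum_eq_zero
    intro j _
    rw [hw j, zero_mul]
  rw [h2, add_zero] at h1
  refine (mul_eq_zero.1 h1).resolve_right ?_
  intro h3
  exact hf0 (Subtype.ext h3)

end Pool.Agent.SV.G
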