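import Pool.Agent.Lib.MP_b54217_ag.G.JetsA

/-! # PROJECT G: the jets lemma (helper54, proof of `jets` by helper70) -/

set_option autoImplicit false

namespace Pool.Agent.SV.G

open MvPolynomial Module

variable {σ : Type} [Fintype σ] [DecidableEq σ]

/-- The jet of a polynomial: its value and its partial derivatives. -/
noncomputable def jet (f : MvPolynomial σ ℂ) : Option σ → MvPolynomial σ ℂ
  | none => f
  | some j => pderiv j f

/-- The jets of the elements of `L` span everything over the fraction field. -/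
theorem jet_span (D : Finset (σ →₀ ℕ)) (L : Submodule ℂ (H D)) (hL0 : L ≠ ⊥)
    (hL : ∀ j, D.card < finrank ℂ L + (Dj D j).card) :
    Submodule.span (FractionRing (MvPolynomial σ ℂ))
      {v : Option σ → FractionRing (MvPolynomial σ ℂ) | ∃ f ∈ L, ∀ i,
        v i = algebraMap (MvPolynomial σ ℂ) (FractionRing (MvPolynomial σ ℂ))
          (jet (f : MvPolynomial σ ℂ) i)} = ⊤ := by
  classical
  by_contra hne
  obtain ⟨φ, hφ0, hφ⟩ := Submodule.exists_le_ker_of_lt_top _ (lt_top_iff_ne_top.2 hne)
  obtain ⟨b, hb⟩ := IsLocalization.exist_integer_multiples_of_finite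
    (nonZeroDivisors (MvPolynomial σ ℂ)) (fun i : Option σ =>
      φ (Pi.single i (1 : FractionRing (MvPolynomial σ ℂ))))
  choose w hw using hb
  have hsum : ∀ v : Option σ → FractionRing (MvPolynomial σ ℂ),
      φ v = ∑ i, v i * φ (Pi.single i 1) := by
    intro v
    conv_lhs => rw [← Finset.univ_sum_single v]
    rw [map_sum]
    refine Finset.sum_congr rfl fun i _ => ?_
    have h1 : (Pi.single i (v i) : Option σ → FractionRing (MvPolynomial σ ℂ)) =
        v i • Pi.single i 1 := by
      rw [← Pi.single_smul, smul_eq_mul, mul_one]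
    rw [h1, map_smul, smul_eq_mul]
  have hrel : ∀ f ∈ L, w none * (f : MvPolynomial σ ℂ) +
      ∑ j, w (some j) * pderiv j (f : MvPolynomial σ ℂ) = 0 := by
    intro f hf
    have h1 : φ (fun i => algebraMap (MvPolynomial σ ℂ) (FractionRing (MvPolynomial σ ℂ))
        (jet (f : MvPolynomial σ ℂ) i)) = 0 :=
      hφ (Submodule.subset_span ⟨f, hf, fun i => rfl⟩)
    rw [hsum] at h1
    have h2 : algebraMap (MvPolynomial σ ℂ) (FractionRing (MvPolynomial σ ℂ))
        (∑ i, w i * jet (f : MvPolynomial σ ℂ) i) = 0 := by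
      rw [map_sum]
      have h3 : ∀ i, algebraMap (MvPolynomial σ ℂ) (FractionRing (MvPolynomial σ ℂ))
          (w i * jet (f : MvPolynomial σ ℂ) i) =
          algebraMap (MvPolynomial σ ℂ) (FractionRing (MvPolynomial σ ℂ)) b *
            (algebraMap (MvPolynomial σ ℂ) (FractionRing (MvPolynomial σ ℂ))
              (jet (f : MvPolynomial σ ℂ) i) * φ (Pi.single i 1)) := by
        intro i
        rw [map_mul, hw i, Algebra.smul_def]
        ring
      rw [Finset.sum_congr rfl fun i _ => h3 i, ← Finset.mul_sum, h1, mul_zero]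
    have h3 := IsFractionRing.injective (MvPolynomial σ ℂ)
      (FractionRing (MvPolynomial σ ℂ)) (h2.trans (map_zero _).symm)
    rw [Fintype.sum_option] at h3
    exact h3
  obtain ⟨h0, h1⟩ := no_relation D L hL0 hL (w none) (fun j => w (some j)) hrel
  have hw0 : ∀ i, w i = 0 := by
    intro i
    cases i with
    | none => exact h0
    | some j => exact h1 j
  apply hφ0
  ext i
  have h2 := hw i
  rw [hw0 i, map_zero, Algebra.smul_def] at h2
  have h3 : algebraMap (MvPolynomial σ ℂ) (FractionRing (MvPolynomial σ ℂ))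
      (b : MvPolynomial σ ℂ) ≠ 0 := by
    intro h4
    have h5 := IsFractionRing.injective (MvPolynomial σ ℂ)
      (FractionRing (MvPolynomial σ ℂ)) (h4.trans (map_zero _).symm)
    exact nonZeroDivisors.coe_ne_zero b h5
  rcases mul_eq_zero.1 h2.symm with h4 | h4
  · exact absurd h4 h3
  · rw [LinearMap.comp_apply, LinearMap.comp_apply, LinearMap.zero_apply]
    exact h4

/-- JETS LEMMA.  `f ↦ (f(y), ∂_j f(y))` is onto on `L` for some `y`, so the double point at `y`
drops the dimension by `m + 1`.  Proof: a basis `f_1, .., f_d` of `L` and the matrix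
`(f_k; ∂_j f_k)` over `K = FractionRing (MvPolynomial σ ℂ)` with `m + 1` rows: the rows are
linearly independent over `K` (`no_relation`, clear denominators), so some `(m+1)`-minor is a
nonzero polynomial, which is nonzero at some `y`. -/
theorem jets (D : Finset (σ →₀ ℕ)) (L : Submodule ℂ (H D)) (hL0 : L ≠ ⊥)
    (hL : ∀ j, D.card < finrank ℂ L + (Dj D j).card) :
    ∃ y : σ → ℂ, ∀ (a : ℂ) (b : σ → ℂ), ∃ f ∈ L, eval y (f : MvPolynomial σ ℂ) = a ∧
      ∀ j, eval y (pderiv j (f : MvPolynomial σ ℂ)) = b j := by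
  classical
  obtain ⟨s, hs, hspan, hli⟩ := exists_linearIndependent (FractionRing (MvPolynomial σ ℂ))
    {v : Option σ → FractionRing (MvPolynomial σ ℂ) | ∃ f ∈ L, ∀ i,
        v i = algebraMap (MvPolynomial σ ℂ) (FractionRing (MvPolynomial σ ℂ))
          (jet (f : MvPolynomial σ ℂ) i)}
  rw [jet_span D L hL0 hL] at hspan
  let B : Module.Basis s (FractionRing (MvPolynomial σ ℂ))
      (Option σ → FractionRing (MvPolynomial σ ℂ)) :=
    Module.Basis.mk hli (by rw [Subtype.range_coe, hspan])
  let e : s ≃ Option σ := B.indexEquiv (Pi.basisFun _ _)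
  have hg : ∀ i : Option σ, ∃ f : H D, f ∈ L ∧ ∀ j,
      ((e.symm i : s) : Option σ → FractionRing (MvPolynomial σ ℂ)) j =
        algebraMap (MvPolynomial σ ℂ) (FractionRing (MvPolynomial σ ℂ))
          (jet (f : MvPolynomial σ ℂ) j) := by
    intro i
    obtain ⟨f, hf, h⟩ := hs (e.symm i).2
    exact ⟨f, hf, h⟩
  choose g hgL hg using hg
  let M : Matrix (Option σ) (Option σ) (MvPolynomial σ ℂ) :=
    Matrix.of fun i j => jet (g i : MvPolynomial σ ℂ) j
  have hM : M.det ≠ 0 := by
    intro h0
    have h1 : (M.map (algebraMap (MvPolynomial σ ℂ)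
        (FractionRing (MvPolynomial σ ℂ)))).det = 0 := by
      have h2 := RingHom.map_det (algebraMap (MvPolynomial σ ℂ)
        (FractionRing (MvPolynomial σ ℂ))) M
      rw [h0, map_zero] at h2
      exact h2.symm
    have h2 : LinearIndependent (FractionRing (MvPolynomial σ ℂ))
        (M.map (algebraMap (MvPolynomial σ ℂ) (FractionRing (MvPolynomial σ ℂ)))).row := by
      have h3 := hli.comp e.symm e.symm.injective
      have h4 : (M.map (algebraMap (MvPolynomial σ ℂ)
          (FractionRing (MvPolynomial σ ℂ)))).row =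
          (fun x : s => (x : Option σ → FractionRing (MvPolynomial σ ℂ))) ∘ e.symm := by
        funext i j
        exact (hg i j).symm
      rw [h4]
      exact h3
    rw [Matrix.linearIndependent_rows_iff_isUnit, Matrix.isUnit_iff_isUnit_det, h1] at h2
    exact not_isUnit_zero h2
  obtain ⟨y, hy⟩ : ∃ y : σ → ℂ, eval y M.det ≠ 0 := by
    by_contra hcon
    push Not at hcon
    apply hM
    apply MvPolynomial.funext
    intro y
    rw [hcon y, map_zero]
  refine ⟨y, fun a b => ?_⟩
  let N : Matrix (Option σ) (Option σ) ℂ := M.map (eval y)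
  have hN : IsUnit N.det := by
    have h2 := RingHom.map_det (eval y) M
    rw [isUnit_iff_ne_zero]
    intro h3
    apply hy
    rw [h2]
    exact h3
  let t : Option σ → ℂ := fun i => match i with
    | none => a
    | some j => b j
  let c : Option σ → ℂ := Matrix.vecMul t N⁻¹
  have hc : Matrix.vecMul c N = t := by
    rw [Matrix.vecMul_vecMul, Matrix.nonsing_inv_mul N hN, Matrix.vecMul_one]
  have hcj : ∀ j, ∑ i, c i * eval y (jet (g i : MvPolynomial σ ℂ) j) = t j := by
    intro j
    have h1 := congrFun hc j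
    rw [← h1]
    rfl
  refine ⟨∑ i, c i • g i, Submodule.sum_mem _ fun i _ => Submodule.smul_mem _ _ (hgL i), ?_, ?_⟩
  · rw [Submodule.coe_sum, map_sum]
    have h1 := hcj none
    refine Eq.trans ?_ h1
    refine Finset.sum_congr rfl fun i _ => ?_
    rw [Submodule.coe_smul, smul_eval]
    rfl
  · intro j
    rw [Submodule.coe_sum, map_sum, map_sum]
    have h1 := hcj (some j)
    refine Eq.trans ?_ h1
    refine Finset.sum_congr rfl fun i _ => ?_
    rw [Submodule.coe_smul, Derivation.map_smul, smul_eval]
    rfl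

end Pool.Agent.SV.G
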