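import Pool.Agent.Lib.MP_b54217_ag.G.Scalar
import Pool.Agent.Lib.MP_b54217_ag.G.GenB

/-! # PROJECT G: coordinate vectors (outside the window), and the unbalanced case -/

set_option autoImplicit false

namespace Pool.Agent.SV.G

open MvPolynomial Module

variable {σ : Type} [Fintype σ] [DecidableEq σ]

/-- `u_k = e_{k mod n}`: `F l ∈ KS (range r) (C l)`, where `C l` is a subset with
`min h |{k < r : k mod n = l}|` elements of `{k < r : k mod n = l}`; `sc` for every `l`,
`Gen.all`, `Gen.ex`; `finrank` of a product (`Submodule.pi`) is the sum. -/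
theorem out_bound [Nonempty σ] (D : Finset (σ →₀ ℕ)) {n : ℕ} (hn : 1 ≤ n) (r h : ℕ)
    (hh : Cap D ((Fintype.card σ + 1) * h)) :
    ∃ (u : ℕ → Fin n → ℂ) (p : ℕ → σ → ℂ), finrank ℂ (TT n D r u p) ≤
      ∑ l : Fin n, (D.card - r - Fintype.card σ *
        min h ((Finset.range r).filter fun k => k % n = l).card) := by
  have hC : ∀ l : Fin n, ∃ C ⊆ (Finset.range r).filter (fun k => k % n = l),
      C.card = min h ((Finset.range r).filter fun k => k % n = l).card := fun l =>
    Finset.exists_subset_card_eq (min_le_right _ _)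
  choose C hC1 hC2 using hC
  have hG := Gen.all (Finset.univ : Finset (Fin n)) (Q := fun l p =>
    finrank ℂ (KS D p (Finset.range r) (C l)) ≤
      D.card - (Finset.range r).card - Fintype.card σ * (C l).card)
    (fun l _ => sc D (Finset.range r) (C l) ((hC1 l).trans (Finset.filter_subset _ _))
      (fun j => le_trans (Nat.mul_le_mul_left _ (by rw [hC2]; exact min_le_left _ _)) (hh j)))
  obtain ⟨p, hp⟩ := hG.ex
  obtain ⟨u, hu⟩ : ∃ u : ℕ → Fin n → ℂ, ∀ k l, u k l = if k % n = (l : ℕ) then 1 else 0 :=
    ⟨fun k l => if k % n = l then 1 else 0, fun _ _ => rfl⟩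
  refine ⟨u, p, ?_⟩
  have hmem : ∀ F ∈ TT n D r u p, ∀ l, F l ∈ KS D p (Finset.range r) (C l) := by
    intro F hF l
    refine ⟨fun k hk => (hF.1 l).1 k hk, fun k hk i => ?_⟩
    have hk' := Finset.mem_filter.1 (hC1 l hk)
    have h1 := hF.2 k hk'.1 i
    rw [Finset.sum_eq_single l] at h1
    · rwa [hu, if_pos hk'.2, one_mul] at h1
    · intro l' _ hne
      rw [hu, if_neg, zero_mul]
      intro h2
      exact hne (Fin.ext (h2.symm.trans hk'.2))
    · exact fun h2 => absurd (Finset.mem_univ l) h2
  let Φ : TT n D r u p →ₗ[ℂ] (∀ l : Fin n, KS D p (Finset.range r) (C l)) :=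
    { toFun := fun F l => ⟨F.1 l, hmem F.1 F.2 l⟩
      map_add' := fun F G => rfl
      map_smul' := fun c F => rfl }
  have hΦ : Function.Injective Φ := by
    intro F G hFG
    apply Subtype.ext
    funext l
    exact congrArg Subtype.val (congrFun hFG l)
  refine (LinearMap.finrank_le_finrank_of_injective hΦ).trans ?_
  have hfree : ∀ l : Fin n, Module.Free ℂ (KS D p (Finset.range r) (C l)) := fun l =>
    @Module.Free.of_divisionRing ℂ (KS D p (Finset.range r) (C l)) _ (Submodule.addCommGroup _)
      (Submodule.module _)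
  rw [Module.finrank_pi_fintype]
  refine Finset.sum_le_sum fun l _ => ?_
  have h1 := hp l (Finset.mem_univ l)
  rwa [Finset.card_range, hC2] at h1

/-- `|{k < r : k mod n = l}|` is `r / n` or `r / n + 1`, and the sum over `l` is `r`. -/
theorem card_class {n : ℕ} (hn : 1 ≤ n) (r : ℕ) :
    (∀ l : Fin n, r / n ≤ ((Finset.range r).filter fun k => k % n = l).card ∧
      ((Finset.range r).filter fun k => k % n = l).card ≤ (r + n - 1) / n) ∧
    ∑ l : Fin n, ((Finset.range r).filter fun k => k % n = l).card = r := by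
  constructor
  · intro l
    have h1 : ((Finset.range r).filter fun k => k % n = l).card =
        r / n + if (l : ℕ) % n < r % n then 1 else 0 := by
      rw [← Nat.count_modEq_card r hn l, Nat.count_eq_card_filter_range]
      congr 1
      refine Finset.filter_congr fun k _ => ?_
      rw [Nat.ModEq, Nat.mod_eq_of_lt l.2]
    rw [h1]
    refine ⟨Nat.le_add_right _ _, ?_⟩
    rw [Nat.le_div_iff_mul_le (by omega)]
    have h2 := Nat.div_add_mod r n
    rw [add_mul, mul_comm (r / n) n]
    split_ifs with h3
    · rw [one_mul]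
      omega
    · rw [zero_mul]
      omega
  · have h1 : (Finset.range r).card = ∑ l : Fin n,
        ((Finset.range r).filter fun k => (⟨k % n, Nat.mod_lt _ (by omega)⟩ : Fin n) = l).card :=
      Finset.card_eq_sum_card_fiberwise fun _ _ => Finset.mem_coe.2 (Finset.mem_univ _)
    rw [Finset.card_range] at h1
    conv_rhs => rw [h1]
    refine Finset.sum_congr rfl fun l _ => ?_
    congr 1
    refine Finset.filter_congr fun k _ => ?_
    rw [Fin.ext_iff]

end Pool.Agent.SV.G
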