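import Pool.Agent.Lib.MP_b54217_ag.G.Window
import Pool.Agent.Lib.MP_b54217_ag.G.Out

/-! # PROJECT G: the dimension for `n ≥ m + 1` -/

set_option autoImplicit false

namespace Pool.Agent.SV.G

open MvPolynomial Module

variable {σ : Type} [Fintype σ] [DecidableEq σ]

/-- Every coordinate has enough double points. -/
theorem bal_zero [Nonempty σ] (D : Finset (σ →₀ ℕ)) {n : ℕ} (hn : 1 ≤ n) (r h : ℕ)
    (hh : Cap D ((Fintype.card σ + 1) * h)) (h1 : h ≤ r / n)
    (h2 : D.card ≤ r + Fintype.card σ * h) (X : ℕ) :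
    ∃ (u : ℕ → Fin n → ℂ) (p : ℕ → σ → ℂ), finrank ℂ (TT n D r u p) ≤ X := by
  obtain ⟨u, p, h3⟩ := out_bound D hn r h hh
  refine ⟨u, p, h3.trans ?_⟩
  rw [Finset.sum_eq_zero]
  · exact Nat.zero_le _
  · intro l _
    have h4 := (card_class hn r).1 l
    have h5 : min h ((Finset.range r).filter fun k => k % n = l).card = h :=
      min_eq_left (h1.trans h4.1)
    rw [h5]
    omega

/-- No coordinate has too many double points. -/
theorem bal_exact [Nonempty σ] (D : Finset (σ →₀ ℕ)) {n : ℕ} (hn : 1 ≤ n) (r h : ℕ)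
    (hh : Cap D ((Fintype.card σ + 1) * h)) (h1 : (r + n - 1) / n ≤ h)
    (h2 : r + Fintype.card σ * ((r + n - 1) / n) ≤ D.card) :
    ∃ (u : ℕ → Fin n → ℂ) (p : ℕ → σ → ℂ),
      finrank ℂ (TT n D r u p) ≤ n * D.card - r * (n + Fintype.card σ) := by
  obtain ⟨u, p, h3⟩ := out_bound D hn r h hh
  refine ⟨u, p, h3.trans ?_⟩
  obtain ⟨h4, h5⟩ := card_class hn r
  have h6 : ∑ l : Fin n, (D.card - r - Fintype.card σ *
        min h ((Finset.range r).filter fun k => k % n = l).card) +
      Fintype.card σ * r = n * (D.card - r) := by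
    have h7 : Fintype.card σ * r =
        ∑ l : Fin n, Fintype.card σ * ((Finset.range r).filter fun k => k % n = l).card := by
      rw [← Finset.mul_sum, h5]
    rw [h7, ← Finset.sum_add_distrib]
    have h8 : ∀ l : Fin n, D.card - r - Fintype.card σ *
        min h ((Finset.range r).filter fun k => k % n = l).card +
        Fintype.card σ * ((Finset.range r).filter fun k => k % n = l).card = D.card - r := by
      intro l
      rw [min_eq_right ((h4 l).2.trans h1)]
      refine Nat.sub_add_cancel ?_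
      have h9 := Nat.mul_le_mul_left (Fintype.card σ) (h4 l).2
      omega
    rw [Finset.sum_congr rfl fun l _ => h8 l, Finset.sum_const, Finset.card_univ,
      Fintype.card_fin, smul_eq_mul]
  refine Nat.le_sub_of_add_le ?_
  obtain ⟨c, hc⟩ : ∃ c, D.card = r + c := ⟨D.card - r, by omega⟩
  rw [hc, Nat.add_sub_cancel_left] at h6
  rw [hc, Nat.add_sub_cancel_left]
  have h10 : n * (r + c) = n * r + n * c := Nat.mul_add _ _ _
  have h11 : r * (n + Fintype.card σ) = n * r + Fintype.card σ * r := by ring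
  omega

/-- ALL `r` (balanced).  `N ≤ r`: `out_bound` with `h = 0`.  `r < N`: `N - r = m q + t`, `t < m`.
* `q = 0`: then `n ≤ r` by `hr`; `out_bound` with `h = 1`.
* `r ≤ n q`: `out_bound` with `h = ⌈r / n⌉ ≤ q`; capacity by `num_cap`:
  `(n + m) h ≤ N + n` because `n (h - 1) < r ≤ N - m h`.
* `t = 0`, `n q ≤ r`: `h = q`.  `n (q + 1) ≤ r`: `h = q + 1`, `(n + m)(q + 1) ≤ N + m`.
* otherwise `window`. -/
theorem main_bal {D : Finset (σ →₀ ℕ)} (hG : Good D) {n : ℕ} (hn : Fintype.card σ + 1 ≤ n)
    (r : ℕ) (hr : ¬ (D.card < r + Fintype.card σ ∧ r < n ∧ r < D.card)) :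
    ∃ (u : ℕ → Fin n → ℂ) (p : ℕ → σ → ℂ),
      finrank ℂ (TT n D r u p) ≤ n * D.card - r * (n + Fintype.card σ) := by
  have hm2 := hG.two
  have hn1 : 1 ≤ n := by omega
  have : Nonempty σ := Fintype.card_pos_iff.1 (by omega)
  have hbig := hG.big
  have hbig' : Fintype.card σ ≤ D.card := by
    refine le_trans ?_ hbig
    calc Fintype.card σ = 1 * (Fintype.card σ * 1) := by ring
      _ ≤ (2 * Fintype.card σ + 1) * (Fintype.card σ * (Fintype.card σ + 2)) :=
        Nat.mul_le_mul (by omega) (Nat.mul_le_mul_left _ (by omega))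
  by_cases h1 : D.card ≤ r
  · exact bal_zero D hn1 r 0 (fun j => by simp) (Nat.zero_le _) (by omega) _
  push Not at h1
  obtain ⟨q, t, htm, hqt⟩ : ∃ q t, t < Fintype.card σ ∧
      D.card = r + Fintype.card σ * q + t := by
    refine ⟨(D.card - r) / Fintype.card σ, (D.card - r) % Fintype.card σ,
      Nat.mod_lt _ (by omega), ?_⟩
    have := Nat.div_add_mod (D.card - r) (Fintype.card σ)
    omega
  by_cases hq : q = 0
  · subst hq
    rw [mul_zero, add_zero] at hqt
    have h2 : n ≤ r := by
      by_contra hc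
      exact hr ⟨by omega, by omega, by omega⟩
    refine bal_zero D hn1 r 1 (num_cap hG hn (by omega)) ?_ (by omega) _
    rw [Nat.le_div_iff_mul_le (by omega)]
    omega
  have hq1 : 1 ≤ q := by omega
  by_cases h2 : r ≤ n * q
  · have h3 : (r + n - 1) / n ≤ q := by
      have h4 : (r + n - 1) / n < q + 1 := by
        rw [Nat.div_lt_iff_lt_mul (by omega)]
        have h5 : (q + 1) * n = n * q + n := by ring
        omega
      omega
    have h4 : n * ((r + n - 1) / n) ≤ r + n - 1 := Nat.mul_div_le _ _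
    have h5 : Fintype.card σ * ((r + n - 1) / n) ≤ Fintype.card σ * q :=
      Nat.mul_le_mul_left _ h3
    refine bal_exact D hn1 r ((r + n - 1) / n) (num_cap hG hn ?_) le_rfl (by omega)
    rw [add_mul]
    omega
  push Not at h2
  have h2' : q ≤ r / n := by
    rw [Nat.le_div_iff_mul_le (by omega), mul_comm]
    omega
  by_cases ht : t = 0
  · refine bal_zero D hn1 r q (num_cap hG hn ?_) h2' (by omega) _
    rw [add_mul]
    omega
  by_cases h3 : n * (q + 1) ≤ r
  · have h4 : Fintype.card σ * (q + 1) = Fintype.card σ * q + Fintype.card σ := by ring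
    refine bal_zero D hn1 r (q + 1) (num_cap hG hn ?_) ?_ (by omega) _
    · rw [add_mul]
      omega
    · rw [Nat.le_div_iff_mul_le (by omega), mul_comm]
      omega
  push Not at h3
  obtain ⟨s, hs⟩ : ∃ s, r = n * q + s := ⟨r - n * q, by omega⟩
  obtain ⟨u, p, h4⟩ := window hG hn hqt hs (by omega) htm (by omega) hq1
  refine ⟨u, p, h4.trans (le_of_eq ?_)⟩
  have h5 : n * D.card = n * t + (n * r + n * (Fintype.card σ * q)) := by
    rw [hqt]
    ring
  have h6 : r * (n + Fintype.card σ) =
      Fintype.card σ * s + (n * r + n * (Fintype.card σ * q)) := by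
    nth_rewrite 1 [hs]
    rw [hs]
    ring
  rw [h5, h6, Nat.add_sub_add_right]

end Pool.Agent.SV.G
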