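import Pool.Agent.Lib.MP_b54217_ag.G.Defs

/-! # PROJECT G: arithmetic -/

set_option autoImplicit false

namespace Pool.Agent.SV.G

private theorem ng_cap {m N K n h : ℕ} (hK : (m + 1) * (2 * N + (2 * m + 1) * (3 * m - 2)) ≤
    2 * (2 * m + 1) * K) (hm : 2 ≤ m) (hn : m + 1 ≤ n) (hh : (n + m) * h ≤ N + n) :
    (m + 1) * h ≤ K := by
  have h1 : (2 * m + 1) * h ≤ N + (m + 1) := by
    rcases Nat.eq_zero_or_pos h with rfl | hpos
    · rw [mul_zero]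
      exact Nat.zero_le _
    · obtain ⟨d, rfl⟩ : ∃ d, n = m + 1 + d := ⟨n - (m + 1), by omega⟩
      have e1 : (m + 1 + d + m) * h = (2 * m + 1) * h + d * h := by ring
      have e2 : d ≤ d * h := Nat.le_mul_of_pos_right d hpos
      omega
  have h2 : 2 * (m + 1) ≤ (2 * m + 1) * (3 * m - 2) := by
    calc 2 * (m + 1) ≤ (2 * m + 1) * 2 := by omega
      _ ≤ (2 * m + 1) * (3 * m - 2) := Nat.mul_le_mul_left _ (by omega)
  have h3 : 2 * (2 * m + 1) * ((m + 1) * h) ≤ 2 * (2 * m + 1) * K := by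
    calc 2 * (2 * m + 1) * ((m + 1) * h) = (m + 1) * (2 * ((2 * m + 1) * h)) := by ring
      _ ≤ (m + 1) * (2 * N + (2 * m + 1) * (3 * m - 2)) :=
          Nat.mul_le_mul_left _ (by omega)
      _ ≤ 2 * (2 * m + 1) * K := hK
  exact Nat.le_of_mul_le_mul_left h3 (by omega)

private theorem ng_N {m n N r q t s : ℕ} (hn : m + 1 ≤ n) (hN : N = r + m * q + t)
    (hr : r = n * q + s) (ht : 0 < t) (hs : 0 < s) : (2 * m + 1) * q + 2 ≤ N := by
  obtain ⟨d, rfl⟩ : ∃ d, n = m + 1 + d := ⟨n - (m + 1), by omega⟩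
  have e1 : (m + 1 + d) * q + m * q = (2 * m + 1) * q + d * q := by ring
  omega

private theorem ng_a {m N K q : ℕ} (hK : (m + 1) * (2 * N + (2 * m + 1) * (3 * m - 2)) ≤
    2 * (2 * m + 1) * K) (hm : 2 ≤ m) (hN : (2 * m + 1) * q + 2 ≤ N) :
    (m + 1) * (m + q) ≤ K := by
  have h2 : 2 * ((2 * m + 1) * (m + q)) ≤ 2 * N + (2 * m + 1) * (3 * m - 2) := by
    obtain ⟨a, rfl⟩ : ∃ a, m = a + 2 := ⟨m - 2, by omega⟩
    have e0 : 3 * (a + 2) - 2 = 3 * a + 4 := by omega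
    rw [e0]
    have e : 2 * ((2 * (a + 2) + 1) * (a + 2 + q)) =
        (2 * (a + 2) + 1) * (2 * a + 4) + 2 * ((2 * (a + 2) + 1) * q) := by ring
    have e' : (2 * (a + 2) + 1) * (2 * a + 4) ≤ (2 * (a + 2) + 1) * (3 * a + 4) :=
      Nat.mul_le_mul_left _ (by omega)
    omega
  have h3 : 2 * (2 * m + 1) * ((m + 1) * (m + q)) ≤ 2 * (2 * m + 1) * K := by
    calc 2 * (2 * m + 1) * ((m + 1) * (m + q)) = (m + 1) * (2 * ((2 * m + 1) * (m + q))) := by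
          ring
      _ ≤ (m + 1) * (2 * N + (2 * m + 1) * (3 * m - 2)) := Nat.mul_le_mul_left _ h2
      _ ≤ 2 * (2 * m + 1) * K := hK
  exact Nat.le_of_mul_le_mul_left h3 (by omega)

private theorem ng_b {m N K q : ℕ} (hK : (m + 1) * (2 * N + (2 * m + 1) * (3 * m - 2)) ≤
    2 * (2 * m + 1) * K) (hm : 2 ≤ m) (hN : (2 * m + 1) * q + 2 ≤ N) :
    (m + 1) * (m + 2) / 2 + (m + 1) * (m + q - 2) ≤ K := by
  obtain ⟨a, rfl⟩ : ∃ a, m = a + 2 := ⟨m - 2, by omega⟩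
  have e0 : a + 2 + q - 2 = a + q := by omega
  have e00 : 3 * (a + 2) - 2 = 3 * a + 4 := by omega
  rw [e0]
  rw [e00] at hK
  have h0 : 2 * ((a + 2 + 1) * (a + 2 + 2) / 2) ≤ (a + 2 + 1) * (a + 2 + 2) :=
    Nat.mul_div_le _ _
  have h1 : 2 * ((a + 2 + 1) * (a + 2 + 2) / 2 + (a + 2 + 1) * (a + q)) ≤
      (a + 2 + 1) * (3 * a + 4 + 2 * q) := by
    have e : (a + 2 + 1) * (3 * a + 4 + 2 * q) =
        (a + 2 + 1) * (a + 2 + 2) + 2 * ((a + 2 + 1) * (a + q)) := by ring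
    rw [e]
    omega
  have h2 : (2 * (a + 2) + 1) * (3 * a + 4 + 2 * q) ≤
      2 * N + (2 * (a + 2) + 1) * (3 * a + 4) := by
    have e : (2 * (a + 2) + 1) * (3 * a + 4 + 2 * q) =
        (2 * (a + 2) + 1) * (3 * a + 4) + 2 * ((2 * (a + 2) + 1) * q) := by ring
    omega
  have h4 : 2 * (2 * (a + 2) + 1) *
      ((a + 2 + 1) * (a + 2 + 2) / 2 + (a + 2 + 1) * (a + q)) ≤
      2 * (2 * (a + 2) + 1) * K := by
    calc 2 * (2 * (a + 2) + 1) *
          ((a + 2 + 1) * (a + 2 + 2) / 2 + (a + 2 + 1) * (a + q))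
        = (2 * (a + 2) + 1) *
          (2 * ((a + 2 + 1) * (a + 2 + 2) / 2 + (a + 2 + 1) * (a + q))) := by ring
      _ ≤ (2 * (a + 2) + 1) * ((a + 2 + 1) * (3 * a + 4 + 2 * q)) := Nat.mul_le_mul_left _ h1
      _ = (a + 2 + 1) * ((2 * (a + 2) + 1) * (3 * a + 4 + 2 * q)) := by ring
      _ ≤ (a + 2 + 1) * (2 * N + (2 * (a + 2) + 1) * (3 * a + 4)) :=
          Nat.mul_le_mul_left _ h2
      _ ≤ 2 * (2 * (a + 2) + 1) * K := hK
  exact Nat.le_of_mul_le_mul_left h4 (by omega)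

private theorem ng_c {m N q r t : ℕ} (hbig : (2 * m + 1) * (m * (m + 2)) ≤ N)
    (hN : (2 * m + 1) * q + 2 ≤ N) (hr : N = r + m * q + t) (ht : t < m) {ν s' : ℕ}
    (hν : ν ≤ m) (hs : s' ≤ m) : ν * q + s' + ν * m ≤ r := by
  have h1 : 2 * m * q + m * (m + 2) ≤ N := by
    have h2 : (2 * m + 1) * (2 * m * q + m * (m + 2)) ≤ (2 * m + 1) * N := by
      calc (2 * m + 1) * (2 * m * q + m * (m + 2)) =
            2 * m * ((2 * m + 1) * q) + (2 * m + 1) * (m * (m + 2)) := by ring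
        _ ≤ 2 * m * N + N := Nat.add_le_add (Nat.mul_le_mul_left _ (by omega)) hbig
        _ = (2 * m + 1) * N := by ring
    exact Nat.le_of_mul_le_mul_left h2 (by omega)
  have h3 : ν * q ≤ m * q := Nat.mul_le_mul_right q hν
  have h4 : ν * m ≤ m * m := Nat.mul_le_mul_right m hν
  have e1 : 2 * m * q = m * q + m * q := by ring
  have e2 : m * (m + 2) = m * m + 2 * m := by ring
  omega

variable {σ : Type} [Fintype σ] [DecidableEq σ]

/-- `(2m+1)(m+1) h ≤ (m+1)(N + m + 1)`. -/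
theorem num_cap {D : Finset (σ →₀ ℕ)} (hG : Good D) {n h : ℕ} (hn : Fintype.card σ + 1 ≤ n)
    (hh : (n + Fintype.card σ) * h ≤ D.card + n) :
    Cap D ((Fintype.card σ + 1) * h) :=
  fun j => ng_cap (hG.cap j) hG.two hn hh

/-- The window: `(2m+1) q + 2 ≤ N`. -/
theorem num_window {D : Finset (σ →₀ ℕ)} (hG : Good D) {n r q t s : ℕ}
    (hn : Fintype.card σ + 1 ≤ n) (hN : D.card = r + Fintype.card σ * q + t)
    (hr : r = n * q + s) (ht : 0 < t) (htm : t < Fintype.card σ) (hs : 0 < s) (hq : 1 ≤ q) :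
    Cap D ((Fintype.card σ + 1) * (Fintype.card σ + q)) ∧
    Cap D ((Fintype.card σ + 1) * (Fintype.card σ + 2) / 2 +
      (Fintype.card σ + 1) * (Fintype.card σ + q - 2)) ∧
    ∀ ν s', ν ≤ Fintype.card σ → s' ≤ Fintype.card σ → ν * q + s' + ν * Fintype.card σ ≤ r := by
  have _ := hq
  have h1 := ng_N hn hN hr ht hs
  exact ⟨fun j => ng_a (hG.cap j) hG.two h1, fun j => ng_b (hG.cap j) hG.two h1,
    fun ν s' hν hs' => ng_c hG.big h1 hN htm hν hs'⟩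

end Pool.Agent.SV.G
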