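import Pool.Agent.Lib.MP_b54217_ag.G.Defs

/-! # PROJECT G: the dimension of a kernel is upper semicontinuous -/

set_option autoImplicit false

namespace Pool.Agent.SV.G

open MvPolynomial Module

/-- Functionals `φ x i` on a finite dimensional space which depend polynomially on the parameter
`x`: the condition `dim (common kernel) ≤ c` is open.

Proof: `K0 = ⨅ ker (φ x0 i)`, `W` a complement of `K0` (`Submodule.exists_isCompl`),
`e = finrank W = finrank V - finrank K0`.  The restrictions of the `φ x0 i` to `W` have common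
kernel `0`, so they span `Dual ℂ W` (`Subspace.dualAnnihilator`/`dualCoannihilator`), so there are
indices `a : Fin e → ι` such that `φ x0 (a j) ∘ W.subtype` is a basis of the dual, i.e. the matrix
`φ x0 (a j) (w k)` (`w` a basis of `W`) is invertible.  `G = det` of the matrix of the polynomials
of `hφ (a j) (w k)`.  If `eval x G ≠ 0`, then `(⨅ ker (φ x i)) ⊓ W = ⊥`, so
`finrank ≤ finrank V - finrank W = finrank K0 ≤ c`. -/
theorem open_ker {τ V ι : Type} [AddCommGroup V] [Module ℂ V] [FiniteDimensional ℂ V]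
    (φ : (τ → ℂ) → ι → V →ₗ[ℂ] ℂ)
    (hφ : ∀ i v, ∃ F : MvPolynomial τ ℂ, ∀ x, φ x i v = eval x F) (x0 : τ → ℂ) {c : ℕ}
    (h : finrank ℂ (⨅ i, LinearMap.ker (φ x0 i) : Submodule ℂ V) ≤ c) :
    ∃ G : MvPolynomial τ ℂ, eval x0 G ≠ 0 ∧ ∀ x, eval x G ≠ 0 →
      finrank ℂ (⨅ i, LinearMap.ker (φ x i) : Submodule ℂ V) ≤ c := by
  classical
  obtain ⟨W, hW⟩ := Submodule.exists_isCompl (⨅ i, LinearMap.ker (φ x0 i) : Submodule ℂ V)
  let ψ : ι → Module.Dual ℂ W := fun i => (φ x0 i).comp W.subtype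
  -- the restrictions span the dual
  have hcoan : (Submodule.span ℂ (Set.range ψ)).dualCoannihilator = ⊥ := by
    rw [eq_bot_iff]
    intro y hy
    rw [Submodule.mem_dualCoannihilator] at hy
    have hy1 : (y : V) ∈ (⨅ i, LinearMap.ker (φ x0 i) : Submodule ℂ V) := by
      rw [Submodule.mem_iInf]
      intro i
      rw [LinearMap.mem_ker]
      exact hy (ψ i) (Submodule.subset_span ⟨i, rfl⟩)
    have hy2 : (y : V) ∈ (⊥ : Submodule ℂ V) := by
      rw [← hW.inf_eq_bot]
      exact ⟨hy1, y.2⟩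
    rw [Submodule.mem_bot] at hy2 ⊢
    exact Subtype.ext hy2
  have hspan : Submodule.span ℂ (Set.range ψ) = ⊤ := by
    have h1 := Subspace.dualCoannihilator_dualAnnihilator_eq
      (W := (Submodule.span ℂ (Set.range ψ) : Subspace ℂ (Module.Dual ℂ W)))
    rw [← h1, hcoan, Submodule.dualAnnihilator_bot]
  have hfr : finrank ℂ (Submodule.span ℂ (Set.range ψ)) = finrank ℂ W := by
    rw [hspan, finrank_top]
    exact Subspace.dual_finrank_eq
  obtain ⟨f, hf1, hf2, -⟩ := Submodule.exists_fun_fin_finrank_span_eq ℂ (Set.range ψ)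
  choose a ha using hf1
  -- the basis of the complement
  let w : Module.Basis (Fin (finrank ℂ W)) ℂ W := Module.finBasis ℂ W
  let a' : Fin (finrank ℂ W) → ι := fun j => a (Fin.cast hfr.symm j)
  have ha' : ∀ j, ψ (a' j) = f (Fin.cast hfr.symm j) := fun j => ha _
  choose F hF using fun j k : Fin (finrank ℂ W) => hφ (a' j) (w k : V)
  let Mx : (τ → ℂ) → Matrix (Fin (finrank ℂ W)) (Fin (finrank ℂ W)) ℂ :=
    fun x => Matrix.of fun j k => φ x (a' j) (w k : V)
  have hdet : ∀ x, eval x (Matrix.det (Matrix.of F)) = (Mx x).det := by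
    intro x
    rw [RingHom.map_det]
    congr 1
    ext j k
    exact (hF j k x).symm
  have hmul : ∀ x (v : Fin (finrank ℂ W) → ℂ) (j : Fin (finrank ℂ W)),
      (Mx x).mulVec v j = φ x (a' j) ((∑ k, v k • w k : W) : V) := by
    intro x v j
    have h1 : ((∑ k, v k • w k : W) : V) = ∑ k, v k • (w k : V) := by
      rw [Submodule.coe_sum]
      exact Finset.sum_congr rfl fun k _ => Submodule.coe_smul _ _
    rw [h1, map_sum]
    change ∑ k, φ x (a' j) (w k : V) * v k = _
    refine Finset.sum_congr rfl fun k _ => ?_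
    rw [map_smul, smul_eq_mul, mul_comm]
  refine ⟨Matrix.det (Matrix.of F), ?_, ?_⟩
  · rw [hdet]
    intro h0
    obtain ⟨v, hv, hv2⟩ := Matrix.exists_mulVec_eq_zero_iff.2 h0
    apply hv
    have hy : (∑ k, v k • w k : W) ∈ (Submodule.span ℂ (Set.range ψ)).dualCoannihilator := by
      rw [Submodule.mem_dualCoannihilator, ← hf2]
      intro g hg
      induction hg using Submodule.span_induction with
      | mem g hg =>
        obtain ⟨j, rfl⟩ := hg
        have h1 := ha' (Fin.cast hfr j)
        have h2 : Fin.cast hfr.symm (Fin.cast hfr j) = j := rfl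
        rw [h2] at h1
        rw [← h1]
        have h3 := congrFun hv2 (Fin.cast hfr j)
        rw [hmul] at h3
        exact h3
      | zero => rfl
      | add g1 g2 _ _ h1 h2 => rw [LinearMap.add_apply, h1, h2, add_zero]
      | smul c g _ h1 => rw [LinearMap.smul_apply, h1, smul_zero]
    rw [hcoan, Submodule.mem_bot] at hy
    have hli := w.linearIndependent
    rw [Fintype.linearIndependent_iff] at hli
    funext k
    exact hli v hy k
  · intro x hx
    rw [hdet] at hx
    have hdisj : Disjoint (⨅ i, LinearMap.ker (φ x i) : Submodule ℂ V) W := by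
      rw [Submodule.disjoint_def]
      intro y hy1 hy2
      have hy3 : (⟨y, hy2⟩ : W) = ∑ k, w.repr ⟨y, hy2⟩ k • w k := (w.sum_repr _).symm
      have hv : (Mx x).mulVec (fun k => w.repr ⟨y, hy2⟩ k) = 0 := by
        funext j
        rw [hmul, ← hy3]
        rw [Submodule.mem_iInf] at hy1
        exact hy1 (a' j)
      have hv0 : (fun k => w.repr ⟨y, hy2⟩ k) = 0 := by
        by_contra hne
        exact hx (Matrix.exists_mulVec_eq_zero_iff.1 ⟨_, hne, hv⟩)
      have hy4 : (⟨y, hy2⟩ : W) = 0 := by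
        rw [hy3]
        refine Finset.sum_eq_zero fun k _ => ?_
        have := congrFun hv0 k
        rw [Pi.zero_apply] at this
        rw [this, zero_smul]
      exact congrArg Subtype.val hy4
    have h1 := Submodule.finrank_add_finrank_le_of_disjoint hdisj
    have h2 := Submodule.finrank_add_eq_of_isCompl hW
    omega

/-- One parameter version.  Proof: `open_ker` with `τ = Unit` (or the same proof); a nonzero
polynomial in one variable has finitely many zeros. -/
theorem open_ker1 {V ι : Type} [AddCommGroup V] [Module ℂ V] [FiniteDimensional ℂ V]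
    (φ : ℂ → ι → V →ₗ[ℂ] ℂ)
    (hφ : ∀ i v, ∃ F : Polynomial ℂ, ∀ x, φ x i v = F.eval x) (x0 : ℂ) {c : ℕ}
    (h : finrank ℂ (⨅ i, LinearMap.ker (φ x0 i) : Submodule ℂ V) ≤ c) :
    {x : ℂ | ¬ finrank ℂ (⨅ i, LinearMap.ker (φ x i) : Submodule ℂ V) ≤ c}.Finite := by
  obtain ⟨G, hG1, hG2⟩ := open_ker (τ := Unit) (fun x => φ (x ()))
    (fun i v => by
      obtain ⟨F, hF⟩ := hφ i v
      refine ⟨Polynomial.aeval (MvPolynomial.X ()) F, fun x => ?_⟩
      rw [hF, Polynomial.aeval_def, Polynomial.hom_eval₂, eval_X]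
      have h1 : (eval x).comp (algebraMap ℂ (MvPolynomial Unit ℂ)) = RingHom.id ℂ := by
        ext z
        rw [RingHom.comp_apply, MvPolynomial.algebraMap_eq, eval_C, RingHom.id_apply]
      rw [h1]
      rfl) (fun _ => x0) h
  let g : Polynomial ℂ := MvPolynomial.aeval (fun _ : Unit => (Polynomial.X : Polynomial ℂ)) G
  have hg : ∀ x : ℂ, g.eval x = eval (fun _ => x) G := by
    intro x
    have h1 : (Polynomial.evalRingHom x).comp
        (MvPolynomial.aeval (fun _ : Unit => (Polynomial.X : Polynomial ℂ)) :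
          MvPolynomial Unit ℂ →ₐ[ℂ] Polynomial ℂ).toRingHom = eval (fun _ => x) := by
      apply MvPolynomial.ringHom_ext
      · intro r
        simp
      · intro i
        simp
    exact RingHom.congr_fun h1 G
  have hg0 : g ≠ 0 := by
    intro h0
    apply hG1
    rw [← hg, h0, Polynomial.eval_zero]
  refine (Polynomial.finite_setOfPred_isRoot hg0).subset ?_
  intro x hx
  by_contra hne
  apply hx
  apply hG2 (fun _ => x)
  rw [← hg]
  exact hne

/-- The version for the points `p`. -/
theorem gen_ker {σ V ι : Type} [AddCommGroup V] [Module ℂ V] [FiniteDimensional ℂ V]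
    (φ : (ℕ → σ → ℂ) → ι → V →ₗ[ℂ] ℂ)
    (hφ : ∀ i v, ∃ F : MvPolynomial (ℕ × σ) ℂ, ∀ p : ℕ → σ → ℂ,
      φ p i v = eval (fun x => p x.1 x.2) F) (p0 : ℕ → σ → ℂ) {c : ℕ}
    (h : finrank ℂ (⨅ i, LinearMap.ker (φ p0 i) : Submodule ℂ V) ≤ c) :
    Gen fun p => finrank ℂ (⨅ i, LinearMap.ker (φ p i) : Submodule ℂ V) ≤ c := by
  obtain ⟨G, hG1, hG2⟩ := open_ker (τ := ℕ × σ) (fun x => φ (fun k i => x (k, i)))
    (fun i v => by
      obtain ⟨F, hF⟩ := hφ i v
      exact ⟨F, fun x => hF _⟩) (fun x => p0 x.1 x.2) h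
  refine ⟨G, ?_, fun p hp => hG2 (fun y => p y.1 y.2) hp⟩
  intro h0
  apply hG1
  rw [h0, map_zero]

end Pool.Agent.SV.G
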