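import Pool.Agent.Lib.MP_b54217_ag.G.Open
import Pool.Agent.Lib.MP_b54217_ag.G.PolyF
import Pool.Agent.Lib.MP_b54217_ag.G.HDim

/-! # PROJECT G: openness for the concrete systems -/

set_option autoImplicit false

namespace Pool.Agent.SV.G

open MvPolynomial Module

variable {σ : Type}

/-- `gen_ker` for a family of submodules given by a set of polynomial functionals. -/
theorem openS_set {V : Type} [AddCommGroup V] [Module ℂ V] [FiniteDimensional ℂ V]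
    (Ls : Set ((ℕ → σ → ℂ) → V →ₗ[ℂ] ℂ))
    (hL : ∀ l ∈ Ls, ∀ v, ∃ F : MvPolynomial (ℕ × σ) ℂ, ∀ p : ℕ → σ → ℂ,
      l p v = eval (fun x => p x.1 x.2) F) (W : (ℕ → σ → ℂ) → Submodule ℂ V)
    (hW : ∀ p v, v ∈ W p ↔ ∀ l ∈ Ls, l p v = 0) (p0 : ℕ → σ → ℂ) {c : ℕ}
    (h : finrank ℂ (W p0) ≤ c) : Gen fun p => finrank ℂ (W p) ≤ c := by
  have hWe : ∀ p, W p = (⨅ i : Ls, LinearMap.ker (i.1 p) : Submodule ℂ V) := by
    intro p
    ext v
    rw [hW, Submodule.mem_iInf]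
    constructor
    · intro h1 i
      exact h1 i.1 i.2
    · intro h1 l hl
      exact h1 ⟨l, hl⟩
  rw [hWe p0] at h
  obtain ⟨G, hG, hG2⟩ := gen_ker (fun p (i : Ls) => i.1 p) (fun i v => hL i.1 i.2 v) p0 h
  refine ⟨G, hG, fun p hp => ?_⟩
  show finrank ℂ (W p) ≤ c
  rw [hWe p]
  exact hG2 p hp

/-- evaluation as a linear map -/
noncomputable def openS_ev (y : σ → ℂ) : MvPolynomial σ ℂ →ₗ[ℂ] ℂ where
  toFun f := eval y f
  map_add' f g := map_add _ f g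
  map_smul' c f := by rw [smul_eval]; rfl

/-- evaluation of a partial derivative as a linear map -/
noncomputable def openS_dv (y : σ → ℂ) (i : σ) : MvPolynomial σ ℂ →ₗ[ℂ] ℂ where
  toFun f := eval y (pderiv i f)
  map_add' f g := by rw [map_add, map_add]
  map_smul' c f := by rw [Derivation.map_smul, smul_eval]; rfl

/-- `gen_ker` for the functionals `f ↦ eval (p k) f` (`k ∈ S`), `f ↦ eval (p k) (pderiv i f)`
(`k ∈ A`), `V = H D`. -/
theorem gen_ks (D : Finset (σ →₀ ℕ)) (S A : Finset ℕ) (p0 : ℕ → σ → ℂ) {c : ℕ}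
    (h : finrank ℂ (KS D p0 S A) ≤ c) : Gen fun p => finrank ℂ (KS D p S A) ≤ c := by
  refine openS_set {l | (∃ k ∈ S, l = fun p => (openS_ev (p k)).comp (H D).subtype) ∨
    (∃ k ∈ A, ∃ i, l = fun p => (openS_dv (p k) i).comp (H D).subtype)} ?_ (fun p => KS D p S A) ?_ p0 h
  · rintro l (⟨k, _, rfl⟩ | ⟨k, _, i, rfl⟩) v
    · exact poly_ev k _
    · exact poly_ev k (pderiv i (v : MvPolynomial σ ℂ))
  · intro p v
    constructor
    · rintro ⟨h1, h2⟩ l (⟨k, hk, rfl⟩ | ⟨k, hk, i, rfl⟩)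
      · exact h1 k hk
      · exact h2 k hk i
    · intro h1
      exact ⟨fun k hk => h1 _ (Or.inl ⟨k, hk, rfl⟩), fun k hk i => h1 _ (Or.inr ⟨k, hk, i, rfl⟩)⟩

theorem gen_kh [DecidableEq σ] (D : Finset (σ →₀ ℕ)) (S A : Finset ℕ) (b : ℕ) (p0 : ℕ → σ → ℂ)
    {c : ℕ} (h : finrank ℂ (KH D p0 S A b) ≤ c) :
    Gen fun p => finrank ℂ (KH D p S A b) ≤ c := by
  refine openS_set {l | (∃ k ∈ S, l = fun p => (openS_ev (p k)).comp (H D).subtype) ∨
    (∃ k ∈ A, ∃ i, l = fun p => (openS_dv (p k) i).comp (H D).subtype) ∨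
    (∃ i j, l = fun p => (q2 (p b) (ee i j)).comp (H D).subtype)} ?_ (fun p => KH D p S A b) ?_ p0 h
  · rintro l (⟨k, _, rfl⟩ | ⟨k, _, i, rfl⟩ | ⟨i, j, rfl⟩) v
    · exact poly_ev k _
    · exact poly_ev k (pderiv i (v : MvPolynomial σ ℂ))
    · exact poly_q2 b (ee i j) _
  · intro p v
    constructor
    · rintro ⟨⟨h1, h2⟩, h3⟩ l (⟨k, hk, rfl⟩ | ⟨k, hk, i, rfl⟩ | ⟨i, j, rfl⟩)
      · exact h1 k hk
      · exact h2 k hk i
      · exact h3 i j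
    · intro h1
      exact ⟨⟨fun k hk => h1 _ (Or.inl ⟨k, hk, rfl⟩), fun k hk i => h1 _ (Or.inr (Or.inl ⟨k, hk, i, rfl⟩))⟩,
        fun i j => h1 _ (Or.inr (Or.inr ⟨i, j, rfl⟩))⟩

/-- the gluing functional -/
noncomputable def openS_tb {D : Finset (σ →₀ ℕ)} {ν : ℕ} (w : Fin ν → ℂ) (y : σ → ℂ) (i : σ) :
    (Fin ν → H D) →ₗ[ℂ] ℂ :=
  ∑ l, w l • ((openS_dv y i).comp (H D).subtype).comp (LinearMap.proj l)

theorem openS_tb_apply {D : Finset (σ →₀ ℕ)} {ν : ℕ} (w : Fin ν → ℂ) (y : σ → ℂ) (i : σ)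
    (F : Fin ν → H D) : openS_tb w y i F = ∑ l, w l * eval y (pderiv i (F l : MvPolynomial σ ℂ)) := by
  unfold openS_tb
  rw [LinearMap.sum_apply]
  rfl

theorem gen_tb (D : Finset (σ →₀ ℕ)) (P : Finset ℕ) {ν : ℕ} (B : Fin ν → Finset ℕ)
    (Z : Finset ℕ) (u : ℕ → Fin ν → ℂ) (p0 : ℕ → σ → ℂ) {c : ℕ}
    (h : finrank ℂ (TB D P B Z u p0) ≤ c) : Gen fun p => finrank ℂ (TB D P B Z u p) ≤ c := by
  refine openS_set {l | (∃ a, ∃ k ∈ P, l = fun p => ((openS_ev (p k)).comp (H D).subtype).comp (LinearMap.proj a)) ∨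
    (∃ a, ∃ k ∈ B a, ∃ i, l = fun p => ((openS_dv (p k) i).comp (H D).subtype).comp (LinearMap.proj a)) ∨
    (∃ k ∈ Z, ∃ i, l = fun p => openS_tb (u k) (p k) i)} ?_ (fun p => TB D P B Z u p) ?_ p0 h
  · rintro l (⟨a, k, _, rfl⟩ | ⟨a, k, _, i, rfl⟩ | ⟨k, _, i, rfl⟩) v
    · exact poly_ev k _
    · exact poly_ev k (pderiv i (v a : MvPolynomial σ ℂ))
    · choose G hG using fun a => poly_ev k (pderiv i (v a : MvPolynomial σ ℂ))
      refine ⟨∑ a, C (u k a) * G a, fun p => ?_⟩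
      rw [openS_tb_apply, map_sum]
      refine Finset.sum_congr rfl fun a _ => ?_
      rw [map_mul, eval_C, hG]
  · intro p v
    constructor
    · rintro ⟨h1, h2⟩ l (⟨a, k, hk, rfl⟩ | ⟨a, k, hk, i, rfl⟩ | ⟨k, hk, i, rfl⟩)
      · exact (h1 a).1 k hk
      · exact (h1 a).2 k hk i
      · rw [openS_tb_apply]
        exact h2 k hk i
    · intro h1
      refine ⟨fun a => ⟨fun k hk => h1 _ (Or.inl ⟨a, k, hk, rfl⟩), fun k hk i => h1 _ (Or.inr (Or.inl ⟨a, k, hk, i, rfl⟩))⟩, fun k hk i => ?_⟩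
      have h2 := h1 _ (Or.inr (Or.inr ⟨k, hk, i, rfl⟩))
      rw [openS_tb_apply] at h2
      exact h2

end Pool.Agent.SV.G
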