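import Pool.Agent.Lib.MP_b54217_ag.G.Scalar
import Pool.Agent.Lib.MP_b54217_ag.G.GenB

/-! # PROJECT G: the unbalanced case -/

set_option autoImplicit false

namespace Pool.Agent.SV.G

open MvPolynomial Module

variable {σ : Type} [Fintype σ] [DecidableEq σ]

/-- The unbalanced case: `r < n`, `r < N < r + m`; `u_k = e_k`: `F l = 0` for `l < r`
(`sc` with `A = {l}`), `F l ∈ KS (range r) ∅` of dimension `N - r` for the others. -/
theorem main_unb [Nonempty σ] {D : Finset (σ →₀ ℕ)} (hc : Cap D (Fintype.card σ + 1)) {n r : ℕ}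
    (h1 : D.card ≤ r + Fintype.card σ) (h2 : r ≤ n) :
    ∃ (u : ℕ → Fin n → ℂ) (p : ℕ → σ → ℂ),
      finrank ℂ (TT n D r u p) ≤ (n - r) * (D.card - r) := by
  have hg1 : Gen fun p => ∀ l ∈ Finset.range r,
      finrank ℂ (KS D p (Finset.range r) {l}) ≤ 0 := by
    refine Gen.all (Finset.range r) fun l hl => ?_
    refine (sc D (Finset.range r) {l} (Finset.singleton_subset_iff.2 hl)
      (by rw [Finset.card_singleton, mul_one]; exact hc)).mono fun p hp => ?_
    rw [Finset.card_range, Finset.card_singleton, mul_one] at hp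
    omega
  have hg2 : Gen fun p => finrank ℂ (KS D p (Finset.range r) ∅) ≤ D.card - r := by
    refine (sc D (Finset.range r) ∅ (Finset.empty_subset _) (by
      intro j
      rw [Finset.card_empty, mul_zero]
      exact Nat.zero_le _)).mono fun p hp => ?_
    rw [Finset.card_range, Finset.card_empty, mul_zero] at hp
    omega
  obtain ⟨p, hp1, hp2⟩ := (hg1.and hg2).ex
  refine ⟨fun k l => if k = (l : ℕ) then 1 else 0, p, ?_⟩
  have hz : ∀ F ∈ TT n D r (fun k l => if k = (l : ℕ) then 1 else 0) p, ∀ l : Fin n,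
      (l : ℕ) < r → F l = 0 := by
    intro F hF l hl
    have h3 : F l ∈ KS D p (Finset.range r) {(l : ℕ)} := by
      refine ⟨(hF.1 l).1, fun k hk i => ?_⟩
      rw [Finset.mem_singleton] at hk
      subst hk
      have h4 := hF.2 l (Finset.mem_range.2 hl) i
      rw [Finset.sum_eq_single l] at h4
      · simpa using h4
      · intro b _ hb
        have h12 : ¬ ((l : ℕ) = (b : ℕ)) := fun h => hb (Fin.ext h.symm)
        simp only [if_neg h12, zero_mul]
      · intro h
        exact absurd (Finset.mem_univ l) h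
    have h5 := hp1 l (Finset.mem_range.2 hl)
    have h6 : KS D p (Finset.range r) {(l : ℕ)} = ⊥ :=
      Submodule.finrank_eq_zero.1 (Nat.le_zero.1 h5)
    rw [h6] at h3
    exact (Submodule.mem_bot ℂ).1 h3
  let L : TT n D r (fun k l => if k = (l : ℕ) then 1 else 0) p →ₗ[ℂ]
      ({l : Fin n // r ≤ (l : ℕ)} → KS D p (Finset.range r) ∅) :=
    { toFun := fun F l => ⟨F.1 l.1, F.2.1 l.1⟩
      map_add' := fun _ _ => rfl
      map_smul' := fun _ _ => rfl }
  have hL : Function.Injective L := by
    intro F G hFG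
    apply Subtype.ext
    funext l
    by_cases hl : (l : ℕ) < r
    · rw [hz F.1 F.2 l hl, hz G.1 G.2 l hl]
    · have h7 := congrFun hFG ⟨l, not_lt.1 hl⟩
      exact congrArg Subtype.val h7
  have hfree : Module.Free ℂ (KS D p (Finset.range r) ∅) :=
    Module.Free.of_basis (Module.Basis.ofVectorSpace ℂ (KS D p (Finset.range r) ∅))
  have h8 := LinearMap.finrank_le_finrank_of_injective hL
  rw [Module.finrank_pi_fintype, Finset.sum_const, Finset.card_univ, smul_eq_mul] at h8
  have h9 : Fintype.card {l : Fin n // r ≤ (l : ℕ)} = n - r := by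
    have h10 := Fintype.card_subtype_compl fun l : Fin n => (l : ℕ) < r
    have h11 : Fintype.card {l : Fin n // (l : ℕ) < r} = r := by
      rw [Fintype.card_subtype, Fin.card_filter_val_lt]
      omega
    rw [h11, Fintype.card_fin] at h10
    rw [← h10]
    exact Fintype.card_congr (Equiv.subtypeEquivRight fun l => not_lt.symm)
  rw [h9] at h8
  exact h8.trans (Nat.mul_le_mul le_rfl hp2)

end Pool.Agent.SV.G
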