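import Pool.Agent.Lib.MP_b54217_ag.G.Jets
import Pool.Agent.Lib.MP_b54217_ag.G.OpenS

/-! # PROJECT G: double and simple points for one polynomial -/

set_option autoImplicit false

namespace Pool.Agent.SV.G

open MvPolynomial Module

variable {σ : Type} [Fintype σ] [DecidableEq σ]

/-- `doubles` with `L = ⊤`, `e = 0` at the points of `A` (position `p1`), `add_simple` with
`K = KS D p1 A A`, `T = S \ A` (position `p`, equal to `p1` on `A`);
`KS D p S A = KS D p1 A A ⊓ KS D p T ∅`; `gen_ks`. -/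
theorem sc [Nonempty σ] (D : Finset (σ →₀ ℕ)) (S A : Finset ℕ) (hA : A ⊆ S)
    (hc : Cap D ((Fintype.card σ + 1) * A.card)) :
    Gen fun p => finrank ℂ (KS D p S A) ≤ D.card - S.card - Fintype.card σ * A.card := by
  have hH : finrank ℂ (H D) = D.card := finrank_H D
  have htop : finrank ℂ (⊤ : Submodule ℂ (H D)) = D.card := by
    rw [finrank_top, hH]
  obtain ⟨p1, _, h1⟩ := doubles D ⊤ A 0 (by rw [htop]; exact le_rfl)
    (by rw [Nat.zero_add]; exact hc) (fun _ _ => 0)
  rw [htop, top_inf_eq] at h1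
  obtain ⟨p, hp, h2⟩ := add_simple D (KS D p1 A A) (S \ A) p1
  have hle : KS D p S A ≤ KS D p1 A A ⊓ KS D p (S \ A) ∅ := by
    intro f hf
    have hpk : ∀ k ∈ A, p k = p1 k := fun k hk =>
      hp k fun h => (Finset.mem_sdiff.1 h).2 hk
    refine ⟨⟨fun k hk => ?_, fun k hk i => ?_⟩, ⟨fun k hk => ?_, fun k hk => ?_⟩⟩
    · rw [← hpk k hk]
      exact hf.1 k (hA hk)
    · rw [← hpk k hk]
      exact hf.2 k hk i
    · exact hf.1 k (Finset.mem_sdiff.1 hk).1
    · exact absurd hk (Finset.notMem_empty k)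
  have h3 := Submodule.finrank_mono hle
  have h4 : (S \ A).card = S.card - A.card := Finset.card_sdiff_of_subset hA
  have h5 := Finset.card_le_card hA
  have h6 : (Fintype.card σ + 1) * A.card = Fintype.card σ * A.card + A.card := by ring
  refine gen_ks D S A p ?_
  rw [h6] at h1
  omega

end Pool.Agent.SV.G
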