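import Pool.Agent.Lib.MP_b54217_ag.G.Block
import Pool.Agent.Lib.MP_b54217_ag.G.GlueAll
import Pool.Agent.Lib.MP_b54217_ag.G.NumG

/-! # PROJECT G: the window -/

set_option autoImplicit false

namespace Pool.Agent.SV.G

open MvPolynomial Module

variable {σ : Type} [Fintype σ] [DecidableEq σ]

omit [Fintype σ] in
private lemma window_cap_mono {D : Finset (σ →₀ ℕ)} {x y : ℕ} (h : Cap D x) (hxy : y ≤ x) :
    Cap D y := fun j => hxy.trans (h j)

/-- The window: `r = n q + s`, groups `B l = {l q, .., l q + q - 1}`, `Z = {n q, .., r - 1}`,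
`BS_all` with `block`, `BS_one`, `num_window`; `u_k = e_l` for `k ∈ B l`; `TT ≤ TB`. -/
theorem window {D : Finset (σ →₀ ℕ)} (hG : Good D) {n r q t s : ℕ}
    (hn : Fintype.card σ + 1 ≤ n) (hN : D.card = r + Fintype.card σ * q + t)
    (hr : r = n * q + s) (ht : 0 < t) (htm : t < Fintype.card σ) (hs : 0 < s) (hq : 1 ≤ q) :
    ∃ (u : ℕ → Fin n → ℂ) (p : ℕ → σ → ℂ),
      finrank ℂ (TT n D r u p) ≤ n * t - Fintype.card σ * s := by
  have hne : Nonempty σ := by
    rw [← Fintype.card_pos_iff]
    have := hG.two
    omega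
  obtain ⟨hc1, hc3, hP⟩ := num_window hG hn hN hr ht htm hs hq
  have hN' : D.card = (Finset.range r).card + Fintype.card σ * q + t := by
    rw [Finset.card_range]
    exact hN
  have hsmall : ∀ ν s', ν ≤ Fintype.card σ → s' ≤ Fintype.card σ →
      BS D (Finset.range r) q t ν s' := by
    intro ν s' hν hs'
    refine block hG.low hG.two hN' hq htm hν ?_ hc1 hc3
    rw [Finset.card_range]
    exact hP ν s' hν hs'
  have h1 : BS D (Finset.range r) q t 1 0 := by
    refine BS_one hN' (window_cap_mono hc1 ?_)
    exact Nat.mul_le_mul_left _ (by omega)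
  have hall := BS_all ht htm h1 hsmall n s
  have hblk : ∀ l : Fin n, (l : ℕ) * q + q ≤ n * q := by
    intro l
    have h2 : ((l : ℕ) + 1) * q ≤ n * q := Nat.mul_le_mul_right q l.2
    rw [add_mul, one_mul] at h2
    exact h2
  obtain ⟨u0, hgen⟩ := hall (fun l => Finset.Ico ((l : ℕ) * q) ((l : ℕ) * q + q))
    (Finset.Ico (n * q) r)
    (by
      intro l k hk
      rw [Finset.mem_Ico] at hk
      rw [Finset.mem_range]
      have := hblk l
      omega)
    (by
      intro l
      simp)
    (by
      intro l l' hll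
      rw [Finset.disjoint_left]
      intro k hk hk'
      rw [Finset.mem_Ico] at hk hk'
      apply hll
      have e1 : k / q = (l : ℕ) := by
        rw [Nat.div_eq_of_lt_le]
        · exact hk.1
        · rw [add_mul, one_mul]
          exact hk.2
      have e2 : k / q = (l' : ℕ) := by
        rw [Nat.div_eq_of_lt_le]
        · exact hk'.1
        · rw [add_mul, one_mul]
          exact hk'.2
      exact Fin.ext (e1.symm.trans e2))
    (by
      intro k hk
      rw [Finset.mem_Ico] at hk
      rw [Finset.mem_range]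
      exact hk.2)
    (by
      intro l
      rw [Finset.disjoint_left]
      intro k hk hk'
      rw [Finset.mem_Ico] at hk hk'
      have := hblk l
      omega)
    (by
      rw [Nat.card_Ico]
      omega)
  obtain ⟨p, hp⟩ := hgen.ex
  refine ⟨fun k l => if k < n * q then (if k / q = (l : ℕ) then 1 else 0) else u0 k l, p, ?_⟩
  refine le_trans (Submodule.finrank_mono ?_) hp
  rintro F ⟨hF1, hF2⟩
  refine ⟨fun l => ⟨(hF1 l).1, ?_⟩, ?_⟩
  · intro k hk i
    rw [Finset.mem_Ico] at hk
    have hb := hblk l
    have hkn : k < n * q := by omega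
    have hkq : k / q = (l : ℕ) := by
      rw [Nat.div_eq_of_lt_le]
      · exact hk.1
      · rw [add_mul, one_mul]
        exact hk.2
    have h2 := hF2 k (by rw [Finset.mem_range]; omega) i
    simp only [hkn, if_true, hkq] at h2
    rw [Finset.sum_eq_single l] at h2
    · simpa using h2
    · intro l' _ hl'
      have hne2 : ¬ ((l : ℕ) = (l' : ℕ)) := fun h => hl' (Fin.ext h.symm)
      rw [if_neg hne2, zero_mul]
    · intro h
      exact absurd (Finset.mem_univ l) h
  · intro k hk i
    rw [Finset.mem_Ico] at hk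
    have h2 := hF2 k (by rw [Finset.mem_range]; exact hk.2) i
    have hkn : ¬ (k < n * q) := by omega
    simp only [hkn, if_false] at h2
    exact h2

end Pool.Agent.SV.G
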